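import Pool.Agent.Lib_MP_cedc2d_lc.Inst
import Mathlib.Data.Nat.ChineseRemainder

/-!
# From formulas to instances: arithmetic
-/

namespace Pool.Agent.Jit

/-- Formulas in conjunctive normal form. -/
abbrev Cnf := List (List (Bool × List Bool))

section defs

variable (φ : Cnf)

/-- The names of the variables, with repetitions. -/
def vs : List (List Bool) := φ.flatMap fun c => c.map Prod.snd
def hh : ℕ := 1 + (vs φ).length + φ.length
def nn : ℕ := 2 * hh φ + 2
def FF : ℕ := (nn φ).factorial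
def pp (a : ℕ) : ℕ := FF φ * (2 * FF φ + a + 1) + 1
def MM : ℕ := ((List.range (vs φ).length).map (pp φ)).prod
def UU : ℕ := FF φ ^ 2 * MM φ
def KK : ℕ := nn φ ^ 2 * FF φ ^ 2
def TT (a : ℕ) : ℕ := KK φ * (MM φ / pp φ a)
def idx (x : List Bool) : ℕ := (vs φ).findIdx fun y => decide (y = x)
def consP (a : ℕ) : ℕ × ℕ := (TT φ a + nn φ / 4 * MM φ, 0)
def clauseP (c : List (Bool × List Bool)) : ℕ × ℕ :=
  ((c.map fun l => if l.1 then 0 else TT φ (idx φ l.2) + (hh φ + 1) * MM φ).sum,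
    (c.map fun l => if l.1 then TT φ (idx φ l.2) else 0).sum + 2 * (hh φ + 1) * MM φ)
def LL : List (ℕ × ℕ) :=
  (MM φ, 0) :: ((List.range (vs φ).length).map (consP φ) ++ φ.map (clauseP φ))

end defs

section

variable {φ : Cnf}

theorem four_le : 4 ≤ nn φ := by simp only [nn, hh]; omega

theorem sq_le_factorial : ∀ n : ℕ, 4 ≤ n → n ^ 2 ≤ n.factorial := by
  intro n hn
  induction n, hn using Nat.le_induction with
  | base => decide
  | succ n hn ih =>
    rw [Nat.factorial_succ]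
    nlinarith

theorem six_mul_le_factorial (n : ℕ) (hn : 4 ≤ n) : 6 * n ≤ n.factorial := by
  obtain ⟨m, rfl⟩ : ∃ m, n = m + 1 := ⟨n - 1, by omega⟩
  rw [Nat.factorial_succ]
  have : Nat.factorial 3 ≤ m.factorial := Nat.factorial_le (by omega)
  have h6 : Nat.factorial 3 = 6 := rfl
  rw [h6] at this
  nlinarith

theorem FF_sq : 4 * nn φ ^ 3 ≤ FF φ ^ 2 := by
  have h1 := sq_le_factorial (nn φ) four_le
  have h2 := four_le (φ := φ)
  have h3 : (nn φ ^ 2) ^ 2 ≤ FF φ ^ 2 := Nat.pow_le_pow_left h1 2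
  refine le_trans ?_ h3
  have e : (nn φ ^ 2) ^ 2 = nn φ * nn φ ^ 3 := by ring
  rw [e]
  exact Nat.mul_le_mul_right _ h2

theorem FF_six : 6 * nn φ ≤ FF φ := six_mul_le_factorial _ four_le

theorem FF_pos : 0 < FF φ := Nat.factorial_pos _

theorem pp_pos (a : ℕ) : 0 < pp φ a := Nat.succ_pos _

theorem MM_pos : 0 < MM φ := by
  rw [MM]
  refine List.prod_pos ?_
  intro x hx
  obtain ⟨a, _, rfl⟩ := List.mem_map.1 hx
  exact pp_pos a

theorem UU_pos : 0 < UU φ := Nat.mul_pos (pow_pos FF_pos 2) MM_pos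

theorem pp_dvd {a : ℕ} (ha : a < (vs φ).length) : pp φ a ∣ MM φ :=
  List.dvd_prod (List.mem_map.2 ⟨a, List.mem_range.2 ha, rfl⟩)

theorem le_pp (a : ℕ) : 2 * FF φ ^ 2 ≤ pp φ a := by
  rw [pp]
  nlinarith

theorem pp_le {a : ℕ} (ha : a < (vs φ).length) : 12 * pp φ a ≤ 25 * FF φ ^ 2 := by
  have h1 := FF_six (φ := φ)
  have h2 : 2 * (vs φ).length + 4 ≤ nn φ := by simp only [nn, hh]; omega
  have h3 : 12 * (a + 1) + 12 ≤ FF φ := by omega
  have h4 := FF_pos (φ := φ)
  rw [pp]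
  nlinarith

theorem coprime_FF (a : ℕ) : Nat.Coprime (pp φ a) (FF φ) := by
  rw [pp, Nat.coprime_mul_left_add_left]
  exact Nat.coprime_one_left _

theorem coprime_KK (a : ℕ) : Nat.Coprime (KK φ) (pp φ a) := by
  have h1 := coprime_FF (φ := φ) a
  have h2 : nn φ ∣ FF φ := Nat.dvd_factorial (by have := four_le (φ := φ); omega) le_rfl
  have h3 := Nat.Coprime.coprime_dvd_right h2 h1
  rw [KK]
  exact Nat.Coprime.symm (Nat.Coprime.mul_right (Nat.Coprime.pow_right 2 h3)
    (Nat.Coprime.pow_right 2 h1))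

theorem coprime_pp {a b : ℕ} (hab : a < b) (hb : b < (vs φ).length) :
    Nat.Coprime (pp φ a) (pp φ b) := by
  by_contra h
  obtain ⟨q, hq, h1, h2⟩ := Nat.Prime.not_coprime_iff_dvd.1 h
  have h3 : pp φ b - pp φ a = FF φ * (b - a) := by
    simp only [pp]
    obtain ⟨c, rfl⟩ : ∃ c, b = a + c := ⟨b - a, by omega⟩
    have : FF φ * (2 * FF φ + (a + c) + 1) + 1 = (FF φ * (2 * FF φ + a + 1) + 1) + FF φ * c := by
      ring
    rw [this, Nat.add_sub_cancel_left, Nat.add_sub_cancel_left]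
  have h4 : q ∣ FF φ * (b - a) := h3 ▸ Nat.dvd_sub h2 h1
  have h5 : ¬ q ∣ FF φ := by
    intro h5
    have := Nat.dvd_gcd h1 h5
    rw [coprime_FF] at this
    exact hq.one_lt.ne' (Nat.dvd_one.1 this)
  rcases (Nat.Prime.dvd_mul hq).1 h4 with h6 | h6
  · exact h5 h6
  · apply h5
    have h7 := Nat.le_of_dvd (by omega) h6
    refine Nat.dvd_factorial hq.pos ?_
    have h2 : 2 * (vs φ).length + 4 ≤ nn φ := by simp only [nn, hh]; omega
    omega

theorem length_LL : nn φ = 2 * (LL φ).length + 2 := by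
  simp only [nn, hh, LL, List.length_cons, List.length_append, List.length_map, List.length_range]
  omega

theorem idx_lt {c : List (Bool × List Bool)} (hc : c ∈ φ) {l : Bool × List Bool} (hl : l ∈ c) :
    idx φ l.2 < (vs φ).length := by
  rw [idx, List.findIdx_lt_length]
  refine ⟨l.2, ?_, by simp⟩
  rw [vs, List.mem_flatMap]
  exact ⟨c, hc, List.mem_map.2 ⟨l, hl, rfl⟩⟩

theorem idx_spec {c : List (Bool × List Bool)} (hc : c ∈ φ) {l : Bool × List Bool} (hl : l ∈ c) :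
    (vs φ)[idx φ l.2]'(idx_lt hc hl) = l.2 := by
  have := List.findIdx_getElem (p := fun y => decide (y = l.2)) (xs := vs φ)
    (w := idx_lt hc hl)
  exact of_decide_eq_true this

theorem TT_le (a : ℕ) : 2 * TT φ a ≤ nn φ ^ 2 * MM φ := by
  have h1 := le_pp (φ := φ) a
  have h2 := FF_pos (φ := φ)
  have h3 : MM φ / pp φ a ≤ MM φ / (2 * FF φ ^ 2) :=
    Nat.div_le_div_left h1 (by positivity)
  have h4 : (2 * FF φ ^ 2) * (MM φ / (2 * FF φ ^ 2)) ≤ MM φ := Nat.mul_div_le _ _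
  calc 2 * TT φ a = nn φ ^ 2 * ((2 * FF φ ^ 2) * (MM φ / pp φ a)) := by rw [TT, KK]; ring
    _ ≤ nn φ ^ 2 * ((2 * FF φ ^ 2) * (MM φ / (2 * FF φ ^ 2))) := by gcongr
    _ ≤ nn φ ^ 2 * MM φ := Nat.mul_le_mul_left _ h4

theorem sum_le {c : List (Bool × List Bool)} (hc : c.length ≤ 3) (f : Bool × List Bool → ℕ)
    (B : ℕ) (hf : ∀ l, f l ≤ B) : (c.map f).sum ≤ 3 * B := by
  have : (c.map f).sum ≤ c.length * B := by
    have := List.sum_le_card_nsmul (c.map f) B (by
      intro x hx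
      obtain ⟨l, _, rfl⟩ := List.mem_map.1 hx
      exact hf l)
    simpa using this
  exact this.trans (Nat.mul_le_mul_right _ hc)

theorem LL_small (h3 : ∀ c ∈ φ, c.length ≤ 3) : ∀ w ∈ LL φ,
    2 * nn φ * w.1 ≤ UU φ ∧ 2 * nn φ * w.2 ≤ UU φ := by
  have hF := FF_sq (φ := φ)
  have hn := four_le (φ := φ)
  have hM := MM_pos (φ := φ)
  have key : ∀ X : ℕ, 2 * X ≤ 3 * nn φ ^ 2 * MM φ + 3 * nn φ * MM φ →
      2 * nn φ * X ≤ UU φ := by
    intro X hX
    have h1 : 2 * nn φ * X ≤ nn φ * (3 * nn φ ^ 2 * MM φ + 3 * nn φ * MM φ) := by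
      calc 2 * nn φ * X = nn φ * (2 * X) := by ring
        _ ≤ _ := Nat.mul_le_mul_left _ hX
    refine h1.trans ?_
    have h2 : nn φ * (3 * nn φ ^ 2 * MM φ + 3 * nn φ * MM φ) =
      (3 * nn φ ^ 3 + 3 * nn φ ^ 2) * MM φ := by ring
    rw [h2, UU]
    refine Nat.mul_le_mul_right _ (le_trans ?_ hF)
    have h3 : nn φ ^ 3 = nn φ * nn φ ^ 2 := by ring
    rw [h3]
    nlinarith [pow_pos (show 0 < nn φ by omega) 2]
  intro w hw
  rw [LL, List.mem_cons, List.mem_append] at hw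
  rcases hw with rfl | hw | hw
  · refine ⟨key _ ?_, by simp⟩
    simp only
    have : MM φ ≤ nn φ * MM φ := Nat.le_mul_of_pos_left _ (by omega)
    nlinarith [Nat.zero_le (nn φ ^ 2 * MM φ)]
  · obtain ⟨a, _, rfl⟩ := List.mem_map.1 hw
    refine ⟨key _ ?_, by simp [consP]⟩
    simp only [consP]
    have h1 := TT_le (φ := φ) a
    have h2 : nn φ / 4 * MM φ ≤ nn φ * MM φ := Nat.mul_le_mul_right _ (Nat.div_le_self _ _)
    nlinarith [Nat.zero_le (nn φ ^ 2 * MM φ), Nat.zero_le (nn φ * MM φ)]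
  · obtain ⟨c, hc, rfl⟩ := List.mem_map.1 hw
    have h4 : (hh φ + 1) * 2 = nn φ := by rw [nn]; ring
    have h5 : 2 * ((hh φ + 1) * MM φ) = nn φ * MM φ := by rw [← h4]; ring
    simp only [clauseP]
    constructor
    · apply key
      set B := nn φ ^ 2 * MM φ + nn φ * MM φ with hB
      have h6 : (c.map fun l => 2 * (if l.1 then 0 else TT φ (idx φ l.2) +
          (hh φ + 1) * MM φ)).sum ≤ 3 * B := by
        refine sum_le (h3 c hc) (fun l => 2 * (if l.1 then 0 else TT φ (idx φ l.2) +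
          (hh φ + 1) * MM φ)) B ?_
        intro l
        have := TT_le (φ := φ) (idx φ l.2)
        split_ifs
        · exact Nat.zero_le _
        · omega
      rw [List.sum_map_mul_left] at h6
      rw [hB] at h6
      linarith
    · apply key
      set B := nn φ ^ 2 * MM φ with hB
      have h6 : (c.map fun l => 2 * (if l.1 then TT φ (idx φ l.2) else 0)).sum ≤ 3 * B := by
        refine sum_le (h3 c hc) (fun l => 2 * (if l.1 then TT φ (idx φ l.2) else 0)) B ?_
        intro l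
        have := TT_le (φ := φ) (idx φ l.2)
        split_ifs
        · omega
        · exact Nat.zero_le _
      rw [List.sum_map_mul_left] at h6
      have h7 : 2 * (2 * (hh φ + 1) * MM φ) = 2 * (nn φ * MM φ) := by rw [← h5]; ring
      have h8 : 0 ≤ nn φ * MM φ := Nat.zero_le _
      rw [mul_add, h7]
      linarith

end

end Pool.Agent.Jit
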