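import Pool.Agent.Lib_MP_33ea09_lc.PolyArith

/-!
# Binary arithmetic in polynomial time
-/

set_option linter.unusedSectionVars false
set_option linter.unusedVariables false

namespace Pool.Agent.PT81

open Polynomial

/-- A natural number written in binary. -/
@[ext] structure BN where
  val : ℕ
  deriving DecidableEq

variable {E : Env} {α β γ δ : Type}

/-! ### Lists of bits and their values -/

/-- The value of a list of bits, least significant bit first. -/
def bitval (l : List Bool) : ℕ := l.foldr (fun b v => 2 * v + b.toNat) 0

@[simp] theorem bitval_nil : bitval [] = 0 := rfl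
@[simp] theorem bitval_cons (b : Bool) (l : List Bool) :
    bitval (b :: l) = 2 * bitval l + b.toNat := rfl

theorem bitval_append (l m : List Bool) :
    bitval (l ++ m) = bitval l + 2 ^ l.length * bitval m := by
  induction l with
  | nil => simp
  | cons b l ih => simp only [List.cons_append, bitval_cons, ih, List.length_cons, pow_succ]; ring

theorem bitval_lt (l : List Bool) : bitval l < 2 ^ l.length := by
  induction l with
  | nil => simp
  | cons b l ih =>
    simp only [bitval_cons, List.length_cons, pow_succ]
    have : b.toNat ≤ 1 := by cases b <;> simp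
    omega

theorem bitval_replicate_false (k : ℕ) : bitval (List.replicate k false) = 0 := by
  induction k with
  | zero => rfl
  | succ k ih => simp [List.replicate_succ, ih]

theorem bitval_bits (n : ℕ) : bitval (Nat.bits n) = n := by
  induction n using Nat.binaryRec' with
  | zero => simp
  | bit b n h ih =>
    rw [Nat.bits_append_bit _ _ h, bitval_cons, ih, Nat.bit_val]

/-- Removal of the leading zeros. -/
def bnorm (l : List Bool) : List Bool :=
  l.foldr (fun b acc => if b then true :: acc else if acc.isEmpty then [] else false :: acc) []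

theorem bnorm_eq (l : List Bool) : bnorm l = Nat.bits (bitval l) := by
  induction l with
  | nil => simp [bnorm]
  | cons b l ih =>
    have e : bnorm (b :: l) = if b then true :: bnorm l else
      if (bnorm l).isEmpty then [] else false :: bnorm l := rfl
    rw [e, ih, bitval_cons]
    cases b
    · simp only [Bool.false_eq_true, if_false, Bool.toNat_false, add_zero]
      by_cases h : bitval l = 0
      · simp [h]
      · have h1 : (Nat.bits (bitval l)).isEmpty = false := by
          cases h2 : Nat.bits (bitval l) with
          | nil =>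
            exfalso
            apply h
            have := bitval_bits (bitval l)
            rw [h2] at this
            exact this.symm
          | cons a t => rfl
        rw [h1]
        have := Nat.bits_append_bit (bitval l) false (fun h' => absurd h' h)
        rw [Nat.bit_val] at this
        simpa using this.symm
    · simp only [if_true, Bool.toNat_true]
      have := Nat.bits_append_bit (bitval l) true (fun _ => rfl)
      rw [Nat.bit_val] at this
      simpa using this.symm

instance [Enc E Bool] : Enc E BN where
  enc m := en E (Nat.bits m.val)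
  inj := by
    intro a b h
    have h1 := en_inj h
    ext
    rw [← bitval_bits a.val, h1, bitval_bits]

theorem en_BN (m : BN) : en E m = en E (Nat.bits m.val) := rfl

theorem esz_bits (l : List Bool) : 2 * l.length + 1 ≤ esz E l ∧ esz E l ≤ 4 * l.length + 1 := by
  induction l with
  | nil => simp
  | cons b l ih =>
    have h1 := esz_bool (E := E) b
    have h2 := esz_pos (E := E) b
    simp only [esz_cons, List.length_cons]
    omega

theorem esz_BN_le (m : BN) : esz E m ≤ 4 * m.val.size + 1 := by
  have := (esz_bits (E := E) (Nat.bits m.val)).2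
  rw [← Nat.size_eq_bits_len]
  exact this

theorem le_esz_BN (m : BN) : 2 * m.val.size + 1 ≤ esz E m := by
  have := (esz_bits (E := E) (Nat.bits m.val)).1
  rw [← Nat.size_eq_bits_len]
  exact this

section

variable [Enc E α] [Enc E β] [Enc E γ] [Enc E δ]

theorem Poly.bnorm {f : γ → List Bool} (hf : Poly E f) : Poly E (fun c => bnorm (f c)) := by
  refine Poly.foldrAdd (b := fun _ => ([] : List Bool))
    (g := fun x : γ × (Bool × List Bool) => if x.2.1 then true :: x.2.2 else
      if x.2.2.isEmpty then [] else false :: x.2.2) hf (Poly.const [])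
    (Poly.ite (Poly.fst.comp Poly.snd) (Poly.cons (Poly.const true) (Poly.snd.comp Poly.snd))
      (Poly.ite (Poly.isEmpty (Poly.snd.comp Poly.snd)) (Poly.const [])
        (Poly.cons (Poly.const false) (Poly.snd.comp Poly.snd)))) 4 ?_
  intro c a ha b
  have h1 := esz_bool (E := E) true
  have h2 := esz_bool (E := E) false
  have h3 := esz_pos (E := E) b
  simp only [eval_ofNat]
  split_ifs
  · rw [esz_cons]; omega
  · rw [esz_nil]; omega
  · rw [esz_cons]; omega

/-- The number with a given list of bits. -/
theorem Poly.toBN {f : γ → List Bool} (hf : Poly E f) : Poly E (fun c => BN.mk (bitval (f c))) :=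
  PT.recode (Poly.bnorm hf) fun c => by
    show en E (BN.mk (bitval (f c))) = en E (PT81.bnorm (f c))
    rw [en_BN, bnorm_eq]

/-- The list of bits of a number. -/
theorem Poly.bits {f : γ → BN} (hf : Poly E f) : Poly E (fun c => Nat.bits (f c).val) :=
  PT.recode hf fun _ => rfl

end

/-! ### Addition, subtraction, comparison -/

/-- One step of the adder. The state consists of the remaining bits of the second number, the carry
bit and the output, in reversed order. -/
def stepA (s : (List Bool × Bool) × List Bool) (a : Bool) : (List Bool × Bool) × List Bool :=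
  ((s.1.1.tail, (a && s.1.1.headD false) || (s.1.2 && (a || s.1.1.headD false))),
    xor (xor a (s.1.1.headD false)) s.1.2 :: s.2)

/-- The adder. -/
def adder (a b : List Bool) (c : Bool) : (List Bool × Bool) × List Bool :=
  a.foldl stepA ((b, c), [])

theorem stepA_fold (a : List Bool) : ∀ s : (List Bool × Bool) × List Bool,
    (a.foldl stepA s).2.length = s.2.length + a.length ∧
    (a.foldl stepA s).1.1 = s.1.1.drop a.length ∧
    bitval (a.foldl stepA s).2.reverse + 2 ^ (a.foldl stepA s).2.length *
      ((a.foldl stepA s).1.2.toNat + bitval (a.foldl stepA s).1.1) =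
    bitval s.2.reverse + 2 ^ s.2.length * (s.1.2.toNat + bitval s.1.1 + bitval a) := by
  induction a with
  | nil => intro s; simp
  | cons x a ih =>
    intro s
    obtain ⟨h1, h2, h3⟩ := ih (stepA s x)
    rw [List.foldl_cons]
    refine ⟨?_, ?_, ?_⟩
    · rw [h1]
      simp only [stepA, List.length_cons]
      omega
    · rw [h2]
      simp [stepA]
    · rw [h3]
      obtain ⟨⟨r, c⟩, o⟩ := s
      simp only [stepA, List.reverse_cons, bitval_append, List.length_reverse, List.length_cons,
        bitval_cons, bitval_nil, pow_succ]
      have hr : bitval r = 2 * bitval r.tail + (r.headD false).toNat := by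
        cases r with
        | nil => simp
        | cons y r => simp
      rw [hr]
      generalize r.headD false = y
      generalize bitval r.tail = v
      cases x <;> cases y <;> cases c <;> simp <;> ring

theorem adder_spec (a b : List Bool) (c : Bool) (h : b.length ≤ a.length) :
    (adder a b c).2.length = a.length ∧
    bitval (adder a b c).2.reverse + 2 ^ a.length * (adder a b c).1.2.toNat =
      bitval a + bitval b + c.toNat := by
  obtain ⟨h1, h2, h3⟩ := stepA_fold a ((b, c), [])
  have h4 : ((b, c), ([] : List Bool)).1.1.drop a.length = [] := by simpa using h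
  rw [h4] at h2
  simp only [List.length_nil, zero_add] at h1
  refine ⟨h1, ?_⟩
  unfold adder
  rw [h2, h1] at h3
  simp only [bitval_nil, add_zero, List.reverse_nil, List.length_nil, pow_zero, one_mul,
    zero_add] at h3
  omega

/-- The first number, padded. -/
def padL (a b : List Bool) : List Bool := a ++ List.replicate b.length false

theorem bitval_padL (a b : List Bool) : bitval (padL a b) = bitval a := by
  rw [padL, bitval_append, bitval_replicate_false]; simp

theorem length_padL (a b : List Bool) : (padL a b).length = a.length + b.length := by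
  simp [padL]

/-- The complement of the second number, padded. -/
def cpl (a b : List Bool) : List Bool := (padL b a).map (fun x => !x)

theorem bitval_map_not (l : List Bool) : bitval (l.map (fun x => !x)) + bitval l + 1 =
    2 ^ l.length := by
  induction l with
  | nil => simp
  | cons b l ih =>
    simp only [List.map_cons, bitval_cons, List.length_cons, pow_succ]
    cases b <;> simp <;> omega

/-- The sum, as a list. -/
def addL (a b : List Bool) : List Bool :=
  ((adder (padL a b) b false).1.2 :: (adder (padL a b) b false).2).reverse

theorem bitval_addL (a b : List Bool) : bitval (addL a b) = bitval a + bitval b := by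
  obtain ⟨h1, h2⟩ := adder_spec (padL a b) b false (by rw [length_padL]; omega)
  rw [addL, List.reverse_cons, bitval_append, List.length_reverse, h1]
  simp only [bitval_cons, bitval_nil, mul_zero, zero_add, Bool.toNat_false, add_zero] at h2 ⊢
  rw [h2, bitval_padL]

/-- The difference with the borrow. -/
def subR (a b : List Bool) : (List Bool × Bool) × List Bool := adder (padL a b) (cpl a b) true

theorem subR_spec (a b : List Bool) :
    (subR a b).1.2 = decide (bitval b ≤ bitval a) ∧
    (bitval b ≤ bitval a → bitval (subR a b).2.reverse = bitval a - bitval b) := by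
  obtain ⟨h1, h2⟩ := adder_spec (padL a b) (cpl a b) true
    (by rw [cpl, List.length_map, length_padL, length_padL]; omega)
  have h3 := bitval_map_not (padL b a)
  rw [bitval_padL, length_padL] at h3
  have h4 : bitval (cpl a b) + bitval b + 1 = 2 ^ (b.length + a.length) := h3
  rw [bitval_padL, length_padL, Nat.add_comm a.length] at h2
  have h5 := bitval_lt (subR a b).2.reverse
  have h6 : (subR a b).2.length = b.length + a.length := by
    rw [subR, h1, length_padL, Nat.add_comm]
  rw [List.length_reverse, h6] at h5
  have h7 : bitval a < 2 ^ (b.length + a.length) :=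
    (bitval_lt a).trans_le (Nat.pow_le_pow_right (by norm_num) (by omega))
  have h8 : bitval b < 2 ^ (b.length + a.length) :=
    (bitval_lt b).trans_le (Nat.pow_le_pow_right (by norm_num) (by omega))
  change bitval (subR a b).2.reverse + 2 ^ (b.length + a.length) * (subR a b).1.2.toNat =
    bitval a + bitval (cpl a b) + 1 at h2
  cases h : (subR a b).1.2
  · rw [h] at h2
    simp only [Bool.toNat_false, mul_zero, add_zero] at h2
    have : ¬ bitval b ≤ bitval a := by omega
    refine ⟨by simp [this], fun h' => absurd h' this⟩
  · rw [h] at h2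
    simp only [Bool.toNat_true, mul_one] at h2
    have : bitval b ≤ bitval a := by omega
    refine ⟨by simp [this], fun _ => by omega⟩

section

variable [Enc E α] [Enc E β] [Enc E γ] [Enc E δ]

theorem Poly.adder {a b : γ → List Bool} {c : γ → Bool} (ha : Poly E a) (hb : Poly E b)
    (hc : Poly E c) : Poly E (fun x => adder (a x) (b x) (c x)) := by
  have hst : Poly E (fun x : γ × (((List Bool × Bool) × List Bool) × Bool) =>
      stepA x.2.1 x.2.2) := by
    have h0 : Poly E (fun x : γ × (((List Bool × Bool) × List Bool) × Bool) => x.2.1.1.1) :=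
      Poly.fst.comp (Poly.fst.comp (Poly.fst.comp Poly.snd))
    have h1 : Poly E (fun x : γ × (((List Bool × Bool) × List Bool) × Bool) => x.2.1.1.2) :=
      Poly.snd.comp (Poly.fst.comp (Poly.fst.comp Poly.snd))
    have h2 : Poly E (fun x : γ × (((List Bool × Bool) × List Bool) × Bool) => x.2.1.2) :=
      Poly.snd.comp (Poly.fst.comp Poly.snd)
    have h3 : Poly E (fun x : γ × (((List Bool × Bool) × List Bool) × Bool) => x.2.2) :=
      Poly.snd.comp Poly.snd
    have h4 : Poly E (fun x : γ × (((List Bool × Bool) × List Bool) × Bool) =>
        x.2.1.1.1.headD false) :=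
      (Poly.listCases h0 (Poly.const false) (Poly.fst.comp Poly.snd)).congr fun x => by
        cases x.2.1.1.1 <;> rfl
    have hx : ∀ {u v : γ × (((List Bool × Bool) × List Bool) × Bool) → Bool},
        Poly E u → Poly E v → Poly E (fun x => xor (u x) (v x)) := by
      intro u v hu hv
      exact (Poly.comp₁ (fun p : Bool × Bool => xor p.1 p.2) (Poly.pair hu hv))
    exact ((Poly.tail h0).pair (Poly.or (Poly.and h3 h4) (Poly.and h1 (Poly.or h3 h4)))).pair
      (Poly.cons (hx (hx h3 h4) h1) h2)
  refine Poly.foldlAdd (g := fun x : γ × (((List Bool × Bool) × List Bool) × Bool) =>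
      stepA x.2.1 x.2.2) ha ((hb.pair hc).pair (Poly.const [])) hst 8 ?_
  intro c a ha s
  obtain ⟨⟨r, c⟩, o⟩ := s
  simp only [stepA, esz_prod, esz_cons, eval_ofNat]
  have h1 := esz_drop_le (E := E) r 1
  rw [List.drop_one] at h1
  have h2 : ∀ b : Bool, esz E b ≤ 3 := fun b => esz_bool b
  have h3 := h2 ((a && r.headD false) || (c && (a || r.headD false)))
  have h4 := h2 (xor (xor a (r.headD false)) c)
  omega

theorem Poly.badd {f g : γ → BN} (hf : Poly E f) (hg : Poly E g) :
    Poly E (fun c => BN.mk ((f c).val + (g c).val)) := by
  have h1 := hf.bits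
  have h2 := hg.bits
  have h3 : Poly E (fun c => padL (Nat.bits (f c).val) (Nat.bits (g c).val)) :=
    Poly.append h1 (Poly.replicate h2.length (Poly.const false))
  have h4 := Poly.adder h3 h2 (Poly.const false)
  have h5 : Poly E (fun c => addL (Nat.bits (f c).val) (Nat.bits (g c).val)) :=
    Poly.reverse (Poly.cons (Poly.snd.comp (Poly.fst.comp h4)) (Poly.snd.comp h4))
  refine (Poly.toBN h5).congr fun c => ?_
  rw [bitval_addL, bitval_bits, bitval_bits]

theorem poly_subR {f g : γ → BN} (hf : Poly E f) (hg : Poly E g) :
    Poly E (fun c => subR (Nat.bits (f c).val) (Nat.bits (g c).val)) := by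
  have h1 := hf.bits
  have h2 := hg.bits
  have h3 : Poly E (fun c => padL (Nat.bits (f c).val) (Nat.bits (g c).val)) :=
    Poly.append h1 (Poly.replicate h2.length (Poly.const false))
  have h4 : Poly E (fun c => padL (Nat.bits (g c).val) (Nat.bits (f c).val)) :=
    Poly.append h2 (Poly.replicate h1.length (Poly.const false))
  have h5 : Poly E (fun c => cpl (Nat.bits (f c).val) (Nat.bits (g c).val)) :=
    Poly.map (g := fun x : γ × Bool => !x.2) h4 (Poly.not Poly.snd)
  exact Poly.adder h3 h5 (Poly.const true)

theorem Poly.ble {f g : γ → BN} (hf : Poly E f) (hg : Poly E g) :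
    Poly E (fun c => decide ((f c).val ≤ (g c).val)) := by
  refine (Poly.snd.comp (Poly.fst.comp (poly_subR hg hf))).congr fun c => ?_
  rw [(subR_spec _ _).1, bitval_bits, bitval_bits]

theorem Poly.blt {f g : γ → BN} (hf : Poly E f) (hg : Poly E g) :
    Poly E (fun c => decide ((f c).val < (g c).val)) := by
  refine (Poly.not (Poly.ble hg hf)).congr fun c => ?_
  by_cases h : (f c).val < (g c).val
  · simp [h]
  · simp [h]; omega

theorem Poly.bsub {f g : γ → BN} (hf : Poly E f) (hg : Poly E g) :
    Poly E (fun c => BN.mk ((f c).val - (g c).val)) := by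
  refine (Poly.ite (Poly.ble hg hf) (Poly.toBN (Poly.reverse (Poly.snd.comp (poly_subR hf hg))))
    (Poly.const (BN.mk 0))).congr fun c => ?_
  by_cases h : (g c).val ≤ (f c).val
  · simp only [h, decide_true, if_true]
    have := (subR_spec (Nat.bits (f c).val) (Nat.bits (g c).val)).2
    rw [bitval_bits, bitval_bits] at this
    rw [this h]
  · simp only [h, decide_false, Bool.false_eq_true, if_false]
    congr 1
    omega

/-- Folding with a number as the accumulator. -/
theorem Poly.foldrBN {f : γ → List α} {b : γ → BN} {g : γ × (α × BN) → BN}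
    (hf : Poly E f) (hb : Poly E b) (hg : Poly E g) (r : ℕ[X])
    (hr : ∀ c, ∀ a ∈ f c, ∀ v, (g (c, (a, v))).val.size ≤ v.val.size + r.eval (esz E c)) :
    Poly E (fun c => (f c).foldr (fun a b => g (c, (a, b))) (b c)) := by
  obtain ⟨pf, hpf⟩ := hf.bound
  obtain ⟨pb, hpb⟩ := hb.bound
  have h := Poly.foldlInv (f := fun c => (f c).reverse) (b := b)
    (g := fun x : γ × (BN × α) => g (x.1, (x.2.2, x.2.1))) hf.reverse hb
    (hg.comp (Poly.fst.pair ((Poly.snd.comp Poly.snd).pair (Poly.fst.comp Poly.snd))))
    (fun c k v => v.val.size ≤ (b c).val.size + k * r.eval (esz E c))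
    (4 * (pb + pf * r) + 1) (by intro c; simp) (by
      intro c k hk v hv a ha
      have := hr c a (List.mem_reverse.1 ha) v
      have e : (k + 1) * r.eval (esz E c) = k * r.eval (esz E c) + r.eval (esz E c) := by ring
      rw [e]
      simp only
      omega) (by
      intro c k hk v hv
      have h1 := esz_BN_le (E := E) v
      have h2 := le_esz_BN (E := E) (b c)
      have h3 := hpb c
      have h4 : k * r.eval (esz E c) ≤ pf.eval (esz E c) * r.eval (esz E c) := by
        refine Nat.mul_le_mul_right _ ?_
        have := length_le_esz (E := E) (f c)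
        have := hpf c
        simp only [List.length_reverse] at hk
        omega
      simp only [eval_add, eval_mul, eval_ofNat, eval_one]
      omega)
  refine h.congr fun c => ?_
  simp

theorem size_add_le (a b : ℕ) : (a + b).size ≤ a.size + b.size + 1 := by
  rw [Nat.size_le]
  have h1 := Nat.lt_size_self a
  have h2 := Nat.lt_size_self b
  have h3 : 2 ^ a.size ≤ 2 ^ (a.size + b.size) := Nat.pow_le_pow_right (by norm_num) (by omega)
  have h4 : 2 ^ b.size ≤ 2 ^ (a.size + b.size) := Nat.pow_le_pow_right (by norm_num) (by omega)
  rw [pow_succ]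
  omega

theorem size_mul_le (a b : ℕ) : (a * b).size ≤ a.size + b.size := by
  rw [Nat.size_le]
  have h1 := Nat.lt_size_self a
  have h2 := Nat.lt_size_self b
  rw [pow_add]
  exact Nat.mul_lt_mul'' h1 h2

theorem size_two_mul_le (a : ℕ) (b : Bool) : (2 * a + b.toNat).size ≤ a.size + 1 := by
  rw [Nat.size_le]
  have h1 := Nat.lt_size_self a
  rw [pow_succ]
  have : b.toNat ≤ 1 := by cases b <;> simp
  omega

theorem size_toNat_le (b : Bool) : b.toNat.size ≤ 1 := by cases b <;> simp

theorem Poly.bshift {f : γ → BN} {b : γ → Bool} (hf : Poly E f) (hb : Poly E b) :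
    Poly E (fun c => BN.mk (2 * (f c).val + (b c).toNat)) := by
  refine (Poly.toBN (Poly.cons hb hf.bits)).congr fun c => ?_
  rw [bitval_cons, bitval_bits]

theorem Poly.bmul {f g : γ → BN} (hf : Poly E f) (hg : Poly E g) :
    Poly E (fun c => BN.mk ((f c).val * (g c).val)) := by
  obtain ⟨pg, hpg⟩ := hg.bound
  have hst : Poly E (fun x : γ × (Bool × BN) =>
      BN.mk ((BN.mk (2 * x.2.2.val + false.toNat)).val +
        (if x.2.1 then g x.1 else BN.mk 0).val)) :=
    Poly.badd (Poly.bshift (Poly.snd.comp Poly.snd) (Poly.const false))
      (Poly.ite (Poly.fst.comp Poly.snd) (hg.comp Poly.fst) (Poly.const _))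
  have h := Poly.foldrBN (b := fun _ => BN.mk 0) hf.bits (Poly.const _) hst (pg + 3) (by
    intro c a ha v
    simp only
    have h1 := size_add_le (2 * v.val + false.toNat) (if a then g c else BN.mk 0).val
    have h2 := size_two_mul_le v.val false
    have h3 : (if a then g c else BN.mk 0).val.size ≤ (g c).val.size := by
      cases a <;> simp
    have h4 := le_esz_BN (E := E) (g c)
    have h5 := hpg c
    simp only [eval_add, eval_ofNat]
    omega)
  refine h.congr fun c => ?_
  have key : ∀ l : List Bool, (l.foldr (fun a b => BN.mk ((BN.mk (2 * b.val + false.toNat)).val +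
      (if a then g c else BN.mk 0).val)) (BN.mk 0)) = BN.mk (bitval l * (g c).val) := by
    intro l
    induction l with
    | nil => simp
    | cons a l ih =>
      rw [List.foldr_cons, ih]
      ext
      simp only [bitval_cons]
      cases a <;> simp <;> ring
  rw [key, bitval_bits]

/-- One step of the long division. -/
theorem Poly.bdivmod {f g : γ → BN} (hf : Poly E f) (hg : Poly E g) :
    Poly E (fun c => (BN.mk ((f c).val / (g c).val), BN.mk ((f c).val % (g c).val))) := by
  obtain ⟨pf, hpf⟩ := hf.bound
  have hr : Poly E (fun x : γ × ((BN × BN) × Bool) => BN.mk (2 * x.2.1.2.val + x.2.2.toNat)) :=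
    Poly.bshift (Poly.snd.comp (Poly.fst.comp Poly.snd)) (Poly.snd.comp Poly.snd)
  have hq : Poly E (fun x : γ × ((BN × BN) × Bool) => x.2.1.1) :=
    Poly.fst.comp (Poly.fst.comp Poly.snd)
  have hk : Poly E (fun x : γ × ((BN × BN) × Bool) =>
      decide ((g x.1).val ≤ (BN.mk (2 * x.2.1.2.val + x.2.2.toNat)).val)) :=
    Poly.ble (hg.comp Poly.fst) hr
  have hst := Poly.ite hk
    (Poly.pair (Poly.bshift hq (Poly.const true)) (Poly.bsub hr (hg.comp Poly.fst)))
    (Poly.pair (Poly.bshift hq (Poly.const false)) hr)
  have h := Poly.foldlInv (f := fun c => (Nat.bits (f c).val).reverse)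
    (b := fun _ => (BN.mk 0, BN.mk 0)) hf.bits.reverse (Poly.const _) hst
    (fun c k v => v.1.val.size ≤ k ∧ v.2.val.size ≤ k) (8 * pf + 3) (by intro c; simp) (by
      intro c k hk v hv a ha
      obtain ⟨h1, h2⟩ := hv
      have h3 := size_two_mul_le v.1.val true
      have h4 := size_two_mul_le v.1.val false
      have h5 := size_two_mul_le v.2.val a
      simp only
      split_ifs
      · refine ⟨by simp only; omega, ?_⟩
        simp only
        exact (Nat.size_le_size (Nat.sub_le _ _)).trans (by omega)
      · exact ⟨by simp only; omega, by simp only; omega⟩) (by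
      intro c k hk v hv
      obtain ⟨v1, v2⟩ := v
      have h1 := esz_BN_le (E := E) v1
      have h2 := esz_BN_le (E := E) v2
      have h3 := length_le_esz (E := E) (Nat.bits (f c).val)
      have h4 := hpf c
      simp only [List.length_reverse] at hk
      have h5 : k ≤ pf.eval (esz E c) := by
        have : esz E (Nat.bits (f c).val) = esz E (f c) := rfl
        omega
      simp only [esz_prod, eval_add, eval_mul, eval_ofNat] at hv ⊢
      omega)
  have h' : Poly E (fun c => if (g c).val = 0 then (BN.mk 0, f c) else
      (Nat.bits (f c).val).reverse.foldl (fun (v : BN × BN) a =>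
      if decide ((g c).val ≤ (BN.mk (2 * v.2.val + a.toNat)).val) then
        (BN.mk (2 * v.1.val + true.toNat), BN.mk ((BN.mk (2 * v.2.val + a.toNat)).val - (g c).val))
      else (BN.mk (2 * v.1.val + false.toNat), BN.mk (2 * v.2.val + a.toNat)))
        (BN.mk 0, BN.mk 0)) := by
    refine (Poly.ite (k := fun c => decide (g c = BN.mk 0)) (Poly.eq hg (Poly.const (BN.mk 0)))
      (Poly.pair (Poly.const (BN.mk 0)) hf) h).congr fun c => ?_
    by_cases h0 : (g c).val = 0
    · have : g c = BN.mk 0 := by ext; exact h0
      simp [this]
    · have : g c ≠ BN.mk 0 := fun h' => h0 (by rw [h'])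
      simp [h0, this]
  refine h'.congr fun c => ?_
  by_cases h0 : (g c).val = 0
  · simp [h0]
  rw [if_neg h0, List.foldl_reverse]
  have key : ∀ l : List Bool, (l.foldr (fun a (v : BN × BN) =>
      if decide ((g c).val ≤ (BN.mk (2 * v.2.val + a.toNat)).val) then
        (BN.mk (2 * v.1.val + true.toNat), BN.mk ((BN.mk (2 * v.2.val + a.toNat)).val - (g c).val))
      else (BN.mk (2 * v.1.val + false.toNat), BN.mk (2 * v.2.val + a.toNat)))
        (BN.mk 0, BN.mk 0)) = (BN.mk (bitval l / (g c).val), BN.mk (bitval l % (g c).val)) := by
    intro l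
    induction l with
    | nil => simp
    | cons a l ih =>
      rw [List.foldr_cons, ih]
      simp only [bitval_cons]
      set m := (g c).val with hm
      set v := bitval l with hv
      have hm0 : 0 < m := Nat.pos_of_ne_zero h0
      have e1 := Nat.div_add_mod v m
      have e2 := Nat.mod_lt v hm0
      have ha : a.toNat ≤ 1 := by cases a <;> simp
      by_cases hle : m ≤ 2 * (v % m) + a.toNat
      · simp only [hle, decide_true, if_true, Bool.toNat_true]
        have e3 : 2 * v + a.toNat = (2 * (v % m) + a.toNat - m) + m * (2 * (v / m) + 1) := by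
          have : 2 * v = 2 * (m * (v / m)) + 2 * (v % m) := by omega
          have h6 : m * (2 * (v / m) + 1) = 2 * (m * (v / m)) + m := by ring
          omega
        have hlt : 2 * (v % m) + a.toNat - m < m := by omega
        rw [e3, Nat.add_mul_div_left _ _ hm0, Nat.add_mul_mod_self_left, Nat.div_eq_of_lt hlt,
          Nat.mod_eq_of_lt hlt, zero_add]
      · simp only [hle, decide_false, Bool.false_eq_true, if_false, Bool.toNat_false, add_zero]
        have e3 : 2 * v + a.toNat = (2 * (v % m) + a.toNat) + m * (2 * (v / m)) := by
          have : 2 * v = 2 * (m * (v / m)) + 2 * (v % m) := by omega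
          have h6 : m * (2 * (v / m)) = 2 * (m * (v / m)) := by ring
          omega
        have hlt : 2 * (v % m) + a.toNat < m := by omega
        rw [e3, Nat.add_mul_div_left _ _ hm0, Nat.add_mul_mod_self_left, Nat.div_eq_of_lt hlt,
          Nat.mod_eq_of_lt hlt, zero_add]
  rw [key, bitval_bits]

theorem Poly.bdiv {f g : γ → BN} (hf : Poly E f) (hg : Poly E g) :
    Poly E (fun c => BN.mk ((f c).val / (g c).val)) := Poly.fst.comp (Poly.bdivmod hf hg)

theorem Poly.bmod {f g : γ → BN} (hf : Poly E f) (hg : Poly E g) :
    Poly E (fun c => BN.mk ((f c).val % (g c).val)) := Poly.snd.comp (Poly.bdivmod hf hg)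

/-- From unary to binary. -/
theorem Poly.ofUnary {f : γ → ℕ} (hf : Poly E f) : Poly E (fun c => BN.mk (f c)) := by
  have h := Poly.foldrBN (f := fun c => List.replicate (f c) ()) (b := fun _ => BN.mk 0)
    (g := fun x : γ × (Unit × BN) => BN.mk (x.2.2.val + (BN.mk 1).val)) hf.units (Poly.const _)
    (Poly.badd (Poly.snd.comp Poly.snd) (Poly.const (BN.mk 1))) 2 (by
      intro c a ha v
      have := size_add_le v.val 1
      have h1 : Nat.size 1 = 1 := by simp
      simp only [eval_ofNat]
      omega)
  refine h.congr fun c => ?_
  induction f c with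
  | zero => rfl
  | succ n ih => rw [List.replicate_succ, List.foldr_cons, ih]

theorem Poly.bsum {f : γ → List BN} (hf : Poly E f) :
    Poly E (fun c => BN.mk ((f c).map BN.val).sum) := by
  obtain ⟨pf, hpf⟩ := hf.bound
  have h := Poly.foldrBN (b := fun _ => BN.mk 0)
    (g := fun x : γ × (BN × BN) => BN.mk (x.2.1.val + x.2.2.val)) hf (Poly.const _)
    (Poly.badd (Poly.fst.comp Poly.snd) (Poly.snd.comp Poly.snd)) (pf + 1) (by
      intro c a ha v
      have := size_add_le a.val v.val
      have h1 := mem_esz_le (E := E) _ a ha
      have h2 := le_esz_BN (E := E) a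
      have h3 := hpf c
      simp only [eval_add, eval_one]
      omega)
  refine h.congr fun c => ?_
  induction f c with
  | nil => rfl
  | cons a l ih => rw [List.foldr_cons, ih]; simp

theorem Poly.bprod {f : γ → List BN} (hf : Poly E f) :
    Poly E (fun c => BN.mk ((f c).map BN.val).prod) := by
  obtain ⟨pf, hpf⟩ := hf.bound
  have h := Poly.foldrBN (b := fun _ => BN.mk 1)
    (g := fun x : γ × (BN × BN) => BN.mk (x.2.1.val * x.2.2.val)) hf (Poly.const _)
    (Poly.bmul (Poly.fst.comp Poly.snd) (Poly.snd.comp Poly.snd)) pf (by
      intro c a ha v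
      have := size_mul_le a.val v.val
      have h1 := mem_esz_le (E := E) _ a ha
      have h2 := le_esz_BN (E := E) a
      have h3 := hpf c
      simp only
      omega)
  refine h.congr fun c => ?_
  induction f c with
  | nil => rfl
  | cons a l ih => rw [List.foldr_cons, ih]; simp

end

end Pool.Agent.PT81
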