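import Pool.Agent.Lib_MP_cedc2d_lc.Hall

/-!
# Reduction of the interval criterion to simultaneous approximation
-/

namespace Pool.Agent.Jit

/-- The function `s - [β ≤ s]`. -/
def gf (β s : ℚ) : ℚ := s - if β ≤ s then 1 else 0

theorem ceil_gf {β : ℚ} (h0 : 0 < β) (h1 : β < 1) (t : ℚ) :
    ((⌈t - (1 - β)⌉ : ℤ) : ℚ) = t + gf β (Int.fract (-t)) := by
  have hs0 := Int.fract_nonneg (-t)
  have hs1 := Int.fract_lt_one (-t)
  have hm := Int.floor_add_fract (-t)
  set s := Int.fract (-t)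
  set m := ⌊-t⌋
  rw [gf]
  split_ifs with h
  · have : ⌈t - (1 - β)⌉ = -m - 1 := by
      rw [Int.ceil_eq_iff]
      push_cast
      constructor <;> linarith
    rw [this]
    push_cast
    linarith
  · push Not at h
    have : ⌈t - (1 - β)⌉ = -m := by
      rw [Int.ceil_eq_iff]
      push_cast
      constructor <;> linarith
    rw [this]
    push_cast
    linarith

theorem floor_gf {β : ℚ} (h0 : 0 < β) (h1 : β < 1) (t : ℚ) :
    ((⌊t + (1 - β)⌋ : ℤ) : ℚ) = t - gf β (Int.fract t) := by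
  have hs0 := Int.fract_nonneg t
  have hs1 := Int.fract_lt_one t
  have hm := Int.floor_add_fract t
  set s := Int.fract t
  set m := ⌊t⌋
  rw [gf]
  split_ifs with h
  · have : ⌊t + (1 - β)⌋ = m + 1 := by
      rw [Int.floor_eq_iff]
      push_cast
      constructor <;> linarith
    rw [this]
    push_cast
    linarith
  · push Not at h
    have : ⌊t + (1 - β)⌋ = m := by
      rw [Int.floor_eq_iff]
      constructor <;> linarith
    rw [this]
    linarith

section

variable {ι : Type} [Fintype ι] {r : ι → ℚ} {β : ℚ}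

/-- The total `∑ (s_i - [β ≤ s_i])` for `s_i = {z r_i}` is an integer. -/
theorem exists_int (hr : ∑ i, r i = 1) (z : ℤ) :
    ∃ G : ℤ, ∑ i, gf β (Int.fract (z * r i)) = G := by
  have h : ∀ i, ∃ k : ℤ, gf β (Int.fract (z * r i)) = z * r i - k := by
    intro i
    rw [gf, Int.fract]
    split_ifs
    · exact ⟨⌊(z : ℚ) * r i⌋ + 1, by push_cast; ring⟩
    · exact ⟨⌊(z : ℚ) * r i⌋, by ring⟩
  choose k hk using h
  refine ⟨z - ∑ i, k i, ?_⟩
  rw [Finset.sum_congr rfl fun i _ => hk i, Finset.sum_sub_distrib, ← Finset.mul_sum, hr, mul_one]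
  push_cast
  rfl

theorem all_lt_of_one_le {n : ℕ} (hn : Fintype.card ι = n) (h0 : 0 < β)
    (h1 : ((n : ℚ) - 1) * β ≤ 1) {s : ι → ℚ} (hs1 : ∀ i, s i < 1)
    (h : 1 ≤ ∑ i, gf β (s i)) : ∀ i, s i < β := by
  classical
  intro j
  by_contra hj
  push Not at hj
  have h2 : ∀ i, gf β (s i) ≤ β := by
    intro i
    rw [gf]
    split_ifs with h
    · have := hs1 i; linarith
    · push Not at h; linarith
  have h3 : gf β (s j) < 0 := by
    rw [gf, if_pos hj]
    have := hs1 j
    linarith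
  rw [← Finset.add_sum_erase _ _ (Finset.mem_univ j)] at h
  have h4 : ∑ i ∈ Finset.univ.erase j, gf β (s i) ≤ ((n : ℚ) - 1) * β := by
    refine (Finset.sum_le_sum fun i _ => h2 i).trans ?_
    rw [Finset.sum_const, Finset.card_erase_of_mem (Finset.mem_univ j), Finset.card_univ, hn,
      nsmul_eq_mul]
    have h5 : 0 < n := by
      rw [← hn]
      exact Fintype.card_pos_iff.2 ⟨j⟩
    rw [Nat.cast_sub h5]
    simp
  linarith

/-- **The criterion.** -/
theorem crit {n : ℕ} (hn : Fintype.card ι = n) (hn2 : 2 ≤ n) (h0 : 0 < β) (h1 : β < 1)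
    (hr : ∑ i, r i = 1) (hr0 : ∀ i, 0 < r i) {D : ℕ} (hD0 : 0 < D)
    (hD : ∀ i, ∃ m : ℤ, (D : ℚ) * r i = m)
    (c1 : ((n : ℚ) - 1) * β ≤ 1) (c2 : ∀ i, 1 - 2 * β < ((n : ℚ) - 1) * r i)
    (i0 : ι) (c3 : ∀ j, j ≠ i0 → ((n : ℚ) - 2) * r j + 2 * β ≤ 1) (c4 : r i0 + 2 * β ≤ 1) :
    (∀ x y : ℕ, x ≤ y → y ≤ D → ∑ i, (cnt (r i) (1 - β) x y).toNat ≤ y - x) ↔
      ¬ ∃ z : ℤ, (∀ i, Int.fract (z * r i) < β) ∧ ∃ i, Int.fract (z * r i) ≠ 0 := by
  classical
  constructor
  · rintro H ⟨z, hz1, i1, hz2⟩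
    obtain ⟨w, hw⟩ : ∃ w : ℕ, (w : ℤ) = z % D :=
      ⟨(z % D).toNat, Int.toNat_of_nonneg (Int.emod_nonneg _ (by omega))⟩
    have hwD : w < D := by
      have := Int.emod_lt_of_pos z (b := (D : ℤ)) (by omega)
      omega
    have hzw : z = w + D * (z / D) := by
      rw [hw]
      exact (Int.emod_add_mul_ediv z D).symm
    have hfr : ∀ i, Int.fract (-(((D - w : ℕ) : ℚ) * r i)) = Int.fract (z * r i) := by
      intro i
      obtain ⟨m, hm⟩ := hD i
      rw [Nat.cast_sub hwD.le]
      rw [Int.fract_eq_fract]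
      refine ⟨-m - (z / D) * m, ?_⟩
      have h2 : (z : ℚ) = w + D * (z / D : ℤ) := by exact_mod_cast hzw
      rw [h2]
      push_cast
      rw [← hm]
      ring
    have h2 := H 0 (D - w) (Nat.zero_le _) (Nat.sub_le _ _)
    have h3 : ∀ i, (((cnt (r i) (1 - β) 0 (D - w)).toNat : ℕ) : ℚ) =
        ((D : ℚ) - w) * r i + Int.fract (z * r i) := by
      intro i
      have e1 : ⌊((0 : ℕ) : ℚ) * r i + (1 - β)⌋ = 0 := by
        rw [Int.floor_eq_iff]
        simp only [Nat.cast_zero, zero_mul, zero_add, Int.cast_zero]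
        constructor <;> linarith
      have e2 := ceil_gf h0 h1 (((D - w : ℕ) : ℚ) * r i)
      rw [hfr, gf, if_neg (not_le.2 (hz1 i)), sub_zero, Nat.cast_sub hwD.le] at e2
      have e3 : ((cnt (r i) (1 - β) 0 (D - w) : ℤ) : ℚ) =
          ((D : ℚ) - w) * r i + Int.fract (z * r i) := by
        rw [cnt, e1, sub_zero, Nat.cast_sub hwD.le, e2]
      have e4 : (0 : ℚ) ≤ ((cnt (r i) (1 - β) 0 (D - w) : ℤ) : ℚ) := by
        rw [e3]
        have : (w : ℚ) ≤ D := by exact_mod_cast hwD.le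
        have := mul_nonneg (sub_nonneg.2 this) (hr0 i).le
        have := Int.fract_nonneg ((z : ℚ) * r i)
        linarith
      have e5 : 0 ≤ cnt (r i) (1 - β) 0 (D - w) := by exact_mod_cast e4
      rw [← e3]
      have := Int.toNat_of_nonneg e5
      exact_mod_cast this
    have h4 : ((∑ i, (cnt (r i) (1 - β) 0 (D - w)).toNat : ℕ) : ℚ) =
        ((D : ℚ) - w) + ∑ i, Int.fract (z * r i) := by
      rw [Nat.cast_sum, Finset.sum_congr rfl fun i _ => h3 i, Finset.sum_add_distrib,
        ← Finset.mul_sum, hr, mul_one]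
    have h5 : 0 < ∑ i, Int.fract ((z : ℚ) * r i) :=
      Finset.sum_pos' (fun i _ => Int.fract_nonneg _)
        ⟨i1, Finset.mem_univ _, lt_of_le_of_ne (Int.fract_nonneg _) (Ne.symm hz2)⟩
    have h6 : ((∑ i, (cnt (r i) (1 - β) 0 (D - w)).toNat : ℕ) : ℚ) ≤ ((D - w - 0 : ℕ) : ℚ) := by
      exact_mod_cast h2
    rw [h4, Nat.sub_zero, Nat.cast_sub hwD.le] at h6
    linarith
  · intro H x y hxy hy
    by_contra hcon
    push Not at hcon
    apply H
    have hxyq : (x : ℚ) ≤ y := by exact_mod_cast hxy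
    by_cases hc : ∀ i, 0 ≤ cnt (r i) (1 - β) x y
    · -- no truncation
      have h2 : ((y : ℤ) - x) + 1 ≤ ∑ i, cnt (r i) (1 - β) x y := by
        have e1 : ((∑ i, (cnt (r i) (1 - β) x y).toNat : ℕ) : ℤ) = ∑ i, cnt (r i) (1 - β) x y := by
          rw [Nat.cast_sum]
          exact Finset.sum_congr rfl fun i _ => Int.toNat_of_nonneg (hc i)
        rw [← e1]
        omega
      have h3 : ((∑ i, cnt (r i) (1 - β) x y : ℤ) : ℚ) = (y - x) +
          ∑ i, gf β (Int.fract (((-y : ℤ) : ℚ) * r i)) +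
          ∑ i, gf β (Int.fract (((x : ℤ) : ℚ) * r i)) := by
        push_cast
        have e1 : ∀ i, ((cnt (r i) (1 - β) x y : ℤ) : ℚ) = (y - x) * r i +
            gf β (Int.fract (-(y : ℚ) * r i)) + gf β (Int.fract ((x : ℚ) * r i)) := by
          intro i
          rw [cnt, Int.cast_sub, ceil_gf h0 h1, floor_gf h0 h1, neg_mul]
          ring
        rw [Finset.sum_congr rfl fun i _ => e1 i, Finset.sum_add_distrib, Finset.sum_add_distrib,
          ← Finset.mul_sum, hr, mul_one]
      obtain ⟨G1, hG1⟩ := exists_int (β := β) hr (-y : ℤ)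
      obtain ⟨G2, hG2⟩ := exists_int (β := β) hr (x : ℤ)
      rw [hG1, hG2] at h3
      have h4 : (∑ i, cnt (r i) (1 - β) x y) = (y - x) + G1 + G2 := by exact_mod_cast h3
      have h5 : 1 ≤ G1 ∨ 1 ≤ G2 := by omega
      have fin : ∀ (z G : ℤ), ∑ i, gf β (Int.fract ((z : ℚ) * r i)) = G → 1 ≤ G →
          ∃ z : ℤ, (∀ i, Int.fract (z * r i) < β) ∧ ∃ i, Int.fract (z * r i) ≠ 0 := by
        intro z G hG hG1
        have h6 : (1 : ℚ) ≤ ∑ i, gf β (Int.fract ((z : ℚ) * r i)) := by
          rw [hG]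
          exact_mod_cast hG1
        have h7 := all_lt_of_one_le hn h0 c1 (fun i => Int.fract_lt_one ((z : ℚ) * r i)) h6
        refine ⟨z, h7, ?_⟩
        by_contra hall
        push Not at hall
        have h8 : ∑ i, gf β (Int.fract ((z : ℚ) * r i)) = 0 := by
          refine Finset.sum_eq_zero fun i _ => ?_
          rw [hall i, gf, if_neg (by linarith)]
          simp
        linarith
      rcases h5 with h5 | h5
      · exact fin _ _ hG1 h5
      · exact fin _ _ hG2 h5
    · -- truncation is impossible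
      exfalso
      push Not at hc
      obtain ⟨i, hi⟩ := hc
      have hup : ∀ j, ((cnt (r j) (1 - β) x y : ℤ) : ℚ) < (y - x) * r j + 2 * β := by
        intro j
        rw [cnt, Int.cast_sub]
        have e1 := Int.ceil_lt_add_one ((y : ℚ) * r j - (1 - β))
        have e2 := Int.sub_one_lt_floor ((x : ℚ) * r j + (1 - β))
        have e3 : ((y : ℚ) - x) * r j = y * r j - x * r j := by ring
        linarith
      have hlow : ((y : ℚ) - x) * r i ≤ 1 - 2 * β := by
        have e1 := Int.le_ceil ((y : ℚ) * r i - (1 - β))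
        have e2 := Int.floor_le ((x : ℚ) * r i + (1 - β))
        have e3 : ((y : ℚ) - x) * r i = y * r i - x * r i := by ring
        have e4 : cnt (r i) (1 - β) x y ≤ -1 := by omega
        have e5 : ((cnt (r i) (1 - β) x y : ℤ) : ℚ) ≤ -1 := by exact_mod_cast e4
        rw [cnt, Int.cast_sub] at e5
        linarith
      have hl : y - x ≤ n - 2 := by
        by_contra h
        have h2 : n - 1 ≤ y - x := by omega
        have h3 : ((n : ℚ) - 1) ≤ y - x := by
          have : ((n - 1 : ℕ) : ℚ) ≤ ((y - x : ℕ) : ℚ) := by exact_mod_cast h2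
          rw [Nat.cast_sub hxy, Nat.cast_sub (by omega)] at this
          simpa using this
        have h4 := mul_le_mul_of_nonneg_right h3 (hr0 i).le
        have h5 := c2 i
        linarith
      have hlq : (y : ℚ) - x ≤ (n : ℚ) - 2 := by
        have : ((y - x : ℕ) : ℚ) ≤ ((n - 2 : ℕ) : ℚ) := by exact_mod_cast hl
        rw [Nat.cast_sub hxy, Nat.cast_sub (by omega)] at this
        simpa using this
      have hz : ∀ j, j ≠ i0 → (cnt (r j) (1 - β) x y).toNat = 0 := by
        intro j hj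
        have e1 := hup j
        have e2 := c3 j hj
        have e3 := mul_le_mul_of_nonneg_right hlq (hr0 j).le
        have e4 : ((cnt (r j) (1 - β) x y : ℤ) : ℚ) < 1 := by linarith
        have e5 : cnt (r j) (1 - β) x y < 1 := by exact_mod_cast e4
        omega
      rw [Finset.sum_eq_single i0 (fun j _ hj => hz j hj)
        (fun h => absurd (Finset.mem_univ _) h)] at hcon
      have e1 := hup i0
      have e2 := hr0 i0
      have e3 : y - x < cnt (r i0) (1 - β) x y := by omega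
      have e4 : ((y : ℚ) - x) < ((cnt (r i0) (1 - β) x y : ℤ) : ℚ) := by exact_mod_cast e3
      have e4' : ((y : ℚ) - x) + 1 ≤ ((cnt (r i0) (1 - β) x y : ℤ) : ℚ) := by
        have : (y : ℤ) - x + 1 ≤ cnt (r i0) (1 - β) x y := by omega
        exact_mod_cast this
      have e5 : (0 : ℚ) ≤ ((y : ℚ) - x) * (1 - r i0) :=
        mul_nonneg (by linarith) (by linarith)
      have e6 : ((y : ℚ) - x) * (1 - r i0) = (y - x) - (y - x) * r i0 := by ring
      linarith

end

end Pool.Agent.Jit
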