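import Mathlib.Computability.TuringMachine.Computable
import Mathlib.Data.Nat.Bits
import Mathlib.Data.Rat.Cast.Order

/-!
# Bottleneck just-in-time sequencing, the class `NP` and polynomial-time reductions
-/

namespace Pool.Agent.Jit

open Turing

/-- The number `x_{ik}` of occurrences of the letter `i` in the prefix of length `k` of `S`. -/
def occ {n : ℕ} (S : List (Fin n)) (i : Fin n) (k : ℕ) : ℕ := (S.take k).count i

/-- `S` is a just-in-time sequence for `d`: a word in which the letter `i` occurs exactly `d i`
times. -/
def IsJIT (d : List ℕ) (S : List (Fin d.length)) : Prop := ∀ i, S.count i = d.get i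

/-- The bottleneck deviation of `S` is at most `B`: `|x_{ik} - k r_i| ≤ B` for all letters `i` and
all `1 ≤ k ≤ D`, where `D` is the sum of `d` and `r_i = d_i / D`. -/
def DevLE (d : List ℕ) (S : List (Fin d.length)) (B : ℚ) : Prop :=
  ∀ (i : Fin d.length) (k : ℕ), 1 ≤ k → k ≤ d.sum →
    |((occ S i k : ℕ) : ℚ) - k * ((d.get i : ℚ) / d.sum)| ≤ B

/-- There is a just-in-time sequence for `d` with bottleneck deviation at most `B`. -/
def Feasible (d : List ℕ) (B : ℚ) : Prop := ∃ S : List (Fin d.length), IsJIT d S ∧ DevLE d S B

/-- A list of natural numbers as a string: each number in binary, followed by the separator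
`none`. -/
def encodeNums (l : List ℕ) : List (Option Bool) :=
  l.flatMap fun m => (Nat.bits m).map some ++ [none]

/-- The decision problem BJIT: the strings of the instances `(d, p / q)`, written as
`p, q, d_1, ..., d_n`, with `n ≥ 1`, all `d_i > 0` and `q > 0`, for which there is a just-in-time
sequence for `d` with bottleneck deviation at most `p / q`. -/
def BJIT : Set (List (Option Bool)) :=
  {w | ∃ (p q : ℕ) (d : List ℕ), w = encodeNums (p :: q :: d) ∧ d ≠ [] ∧ (∀ m ∈ d, 0 < m) ∧
    0 < q ∧ Feasible d ((p : ℚ) / q)}

/-- The class `NP` (Arora and Barak, Definition 2.1): `L` is in `NP` if there are a polynomial `q`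
and a predicate `R` on pairs `(x, u)`, decided by a Turing machine in time polynomial in the length
of `(x, u)`, such that `x ∈ L` iff some `u ∈ {0,1}^(q |x|)` satisfies `R (x, u)`. -/
def InNP {Γ : Type} (L : Set (List Γ)) : Prop :=
  ∃ (R : List Γ × List Bool → Bool) (q : Polynomial ℕ),
    Nonempty (TM2ComputableInPolyTime
      (fun t : List Γ × List Bool => (t.1.map Sum.inl ++ t.2.map Sum.inr : List (Γ ⊕ Bool)))
      (fun b : Bool => [b]) R) ∧
    ∀ x : List Γ, x ∈ L ↔ ∃ u : List Bool, u.length = q.eval x.length ∧ R (x, u) = true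

/-- Polynomial-time many-one reducibility. -/
def Reduces {Γ Δ : Type} (A : Set (List Γ)) (B : Set (List Δ)) : Prop :=
  ∃ f : List Γ → List Δ, Nonempty (TM2ComputableInPolyTime (fun x : List Γ => x)
    (fun y : List Δ => y) f) ∧ ∀ x, x ∈ A ↔ f x ∈ B

end Pool.Agent.Jit
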