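import Pool.Agent.Lib_MP_cedc2d_lc.Defs
import Mathlib.Combinatorics.Hall.Basic
import Mathlib.Data.Nat.Count
import Mathlib.Algebra.Order.Floor.Ring
import Mathlib.Data.Rat.Floor
import Mathlib.Tactic

/-!
# The criterion for the existence of a just-in-time sequence with bounded bottleneck deviation
-/

namespace Pool.Agent.Jit

/-- Hall's condition for intervals. -/
theorem interval_hall {J : Type} [Fintype J] [DecidableEq J] (a b : J → ℕ) (D : ℕ)
    (ha : ∀ c, 1 ≤ a c) (hb : ∀ c, b c ≤ D)
    (H : ∀ x y, x ≤ y → y ≤ D →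
      (Finset.univ.filter fun c => x < a c ∧ b c ≤ y).card ≤ y - x) :
    ∀ (y : ℕ) (s : Finset J), y ≤ D → (∀ c ∈ s, b c ≤ y) →
      s.card ≤ (s.biUnion fun c => Finset.Icc (a c) (b c)).card := by
  have hab : ∀ c, a c ≤ b c := by
    intro c
    by_contra h
    push Not at h
    have h1 := H (b c) (b c) le_rfl (hb c)
    rw [Nat.sub_self, Nat.le_zero, Finset.card_eq_zero] at h1
    have : c ∈ (Finset.univ.filter fun c' => b c < a c' ∧ b c' ≤ b c) := by simp [h]
    rw [h1] at this
    simp at this
  intro y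
  induction y using Nat.strong_induction_on with
  | _ y ih =>
    intro s hyD hs
    set U := s.biUnion fun c => Finset.Icc (a c) (b c) with hU
    have h0 : (0 : ℕ) ∉ U := by
      rw [hU, Finset.mem_biUnion]
      rintro ⟨c, _, h⟩
      have := ha c
      rw [Finset.mem_Icc] at h
      omega
    by_cases hy : y ∈ U
    · set x := Nat.findGreatest (fun x => x ∉ U) y with hx
      have hxU : x ∉ U := Nat.findGreatest_spec (P := fun x => x ∉ U) (Nat.zero_le y) h0
      have hxy : x ≤ y := Nat.findGreatest_le y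
      have hxlt : x < y := lt_of_le_of_ne hxy (fun h => hxU (by rw [h]; exact hy))
      have hall : ∀ k, x < k → k ≤ y → k ∈ U := by
        intro k h1 h2
        by_contra h3
        have h4 := Nat.le_findGreatest (P := fun x => x ∉ U) h2 h3
        omega
      set s1 := s.filter fun c => x < b c with hs1
      set s2 := s.filter fun c => ¬ x < b c with hs2
      have hcard : s.card = s1.card + s2.card := (Finset.card_filter_add_card_filter_not _).symm
      have hs1c : s1.card ≤ y - x := by
        refine (Finset.card_le_card ?_).trans (H x y hxy hyD)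
        intro c hc
        rw [hs1, Finset.mem_filter] at hc
        rw [Finset.mem_filter]
        refine ⟨Finset.mem_univ _, ?_, hs c hc.1⟩
        by_contra h4
        apply hxU
        rw [hU, Finset.mem_biUnion]
        exact ⟨c, hc.1, by rw [Finset.mem_Icc]; omega⟩
      have hs2c := ih x hxlt s2 (hxy.trans hyD) (by
        intro c hc
        rw [hs2, Finset.mem_filter] at hc
        omega)
      set U2 := s2.biUnion fun c => Finset.Icc (a c) (b c) with hU2
      have hsub : U2 ∪ Finset.Ioc x y ⊆ U := by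
        intro k hk
        rw [Finset.mem_union] at hk
        rcases hk with hk | hk
        · rw [hU2, Finset.mem_biUnion] at hk
          obtain ⟨c, hc, hk⟩ := hk
          rw [hU, Finset.mem_biUnion]
          exact ⟨c, (Finset.mem_filter.1 hc).1, hk⟩
        · rw [Finset.mem_Ioc] at hk
          exact hall k hk.1 hk.2
      have hdis : Disjoint U2 (Finset.Ioc x y) := by
        rw [Finset.disjoint_left]
        intro k hk hk'
        rw [hU2, Finset.mem_biUnion] at hk
        obtain ⟨c, hc, hk⟩ := hk
        rw [hs2, Finset.mem_filter] at hc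
        rw [Finset.mem_Icc] at hk
        rw [Finset.mem_Ioc] at hk'
        omega
      have hc2 := Finset.card_le_card hsub
      rw [Finset.card_union_of_disjoint hdis, Nat.card_Ioc] at hc2
      omega
    · rcases Nat.eq_zero_or_pos y with h | h
      · have : s = ∅ := by
          rw [Finset.eq_empty_iff_forall_notMem]
          intro c hc
          have h1 := hs c hc
          have h2 := ha c
          have h3 := hab c
          omega
        rw [this]
        simp
      · refine ih (y - 1) (by omega) s (by omega) fun c hc => ?_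
        have h1 := hs c hc
        have h2 : b c ≠ y := by
          intro h3
          apply hy
          rw [hU, Finset.mem_biUnion]
          exact ⟨c, hc, by rw [Finset.mem_Icc]; have := hab c; omega⟩
        omega

/-- The number of copies of an item with rate `r` whose window is contained in `(x, y]`, as an
integer that may be negative. -/
def cnt (r B : ℚ) (x y : ℕ) : ℤ := ⌈(y : ℚ) * r - B⌉ - ⌊(x : ℚ) * r + B⌋

theorem card_filter_fin (m u v : ℕ) (hv : v ≤ m) (p : Fin m → Prop) [DecidablePred p]
    (hp : ∀ j : Fin m, p j ↔ u ≤ j.val ∧ j.val < v) : (Finset.univ.filter p).card = v - u := by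
  rw [← Nat.card_Ico, ← Finset.card_map Fin.valEmbedding]
  congr 1
  ext t
  simp only [Finset.mem_map, Finset.mem_filter, Finset.mem_univ, true_and, Fin.valEmbedding_apply,
    Finset.mem_Ico]
  constructor
  · rintro ⟨j, hj, rfl⟩
    exact (hp j).1 hj
  · intro h
    exact ⟨⟨t, by omega⟩, (hp _).2 h, rfl⟩

/-- The first slot of the window of the copy `j` (counted from zero). -/
noncomputable def rel (r B : ℚ) (j : ℕ) : ℕ := ⌈((j : ℚ) + 1 - B) / r⌉₊
/-- The last slot of the window of the copy `j` (counted from zero). -/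
noncomputable def dead (r B : ℚ) (j : ℕ) : ℕ := ⌊((j : ℚ) + B) / r⌋₊ + 1

theorem lt_rel {r B : ℚ} (hr : 0 < r) (x j : ℕ) :
    x < rel r B j ↔ ⌊(x : ℚ) * r + B⌋ ≤ (j : ℤ) := by
  rw [rel, Nat.lt_ceil, lt_div_iff₀ hr, ← Int.lt_add_one_iff, Int.floor_lt]
  push_cast
  constructor <;> intro h <;> linarith

theorem dead_le {r B : ℚ} (hr : 0 < r) (hB : 0 ≤ B) (y j : ℕ) :
    dead r B j ≤ y ↔ (j : ℤ) < ⌈(y : ℚ) * r - B⌉ := by
  rw [dead, Nat.succ_le_iff, Nat.floor_lt (by positivity), div_lt_iff₀ hr, Int.lt_ceil]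
  push_cast
  constructor <;> intro h <;> linarith

theorem card_windows {r B : ℚ} {D m : ℕ} (hr : 0 < r) (hB : 0 ≤ B) (hm : r * D = m)
    (x y : ℕ) (hy : y ≤ D) :
    (Finset.univ.filter fun j : Fin m => x < rel r B j ∧ dead r B j ≤ y).card =
      (cnt r B x y).toNat := by
  have hU : 0 ≤ ⌊(x : ℚ) * r + B⌋ := Int.floor_nonneg.2 (by positivity)
  have hV : ⌈(y : ℚ) * r - B⌉ ≤ (m : ℤ) := by
    rw [Int.ceil_le]
    have h1 : (y : ℚ) * r ≤ D * r := by
      have : (y : ℚ) ≤ D := by exact_mod_cast hy
      exact mul_le_mul_of_nonneg_right this hr.le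
    have h2 : (D : ℚ) * r = m := by rw [mul_comm]; exact hm
    push_cast
    linarith
  rw [card_filter_fin m (⌊(x : ℚ) * r + B⌋.toNat) (⌈(y : ℚ) * r - B⌉.toNat) (by omega)]
  · rw [cnt]
    omega
  · intro j
    rw [lt_rel hr, dead_le hr hB]
    omega

theorem count_take_ofFn {α : Type} [DecidableEq α] {D : ℕ} (g : Fin D → α) (a : α) (k : ℕ) :
    ((List.ofFn g).take k).count a =
      (Finset.univ.filter fun t : Fin D => t.val < k ∧ g t = a).card := by
  induction k with
  | zero => simp
  | succ k ih =>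
    by_cases hk : k < D
    · rw [List.take_succ_eq_append_getElem (by simpa using hk), List.count_append, ih,
        List.getElem_ofFn]
      have e : (Finset.univ.filter fun t : Fin D => t.val < k + 1 ∧ g t = a) =
          (Finset.univ.filter fun t : Fin D => t.val < k ∧ g t = a) ∪
          (if g ⟨k, hk⟩ = a then {⟨k, hk⟩} else ∅) := by
        ext t
        simp only [Finset.mem_filter, Finset.mem_univ, true_and, Finset.mem_union]
        by_cases ht : t = ⟨k, hk⟩
        · subst ht
          by_cases hg : g ⟨k, hk⟩ = a <;> simp [hg]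
        · have : t.val ≠ k := fun h => ht (Fin.ext h)
          have h2 : t.val < k + 1 ↔ t.val < k := by omega
          rw [h2]
          by_cases hg : g ⟨k, hk⟩ = a <;> simp [hg, ht]
      rw [e, Finset.card_union_of_disjoint]
      · congr 1
        by_cases hg : g ⟨k, hk⟩ = a <;> simp [hg]
      · rw [Finset.disjoint_left]
        intro t ht ht'
        simp only [Finset.mem_filter, Finset.mem_univ, true_and] at ht
        by_cases hg : g ⟨k, hk⟩ = a
        · rw [if_pos hg, Finset.mem_singleton] at ht'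
          rw [ht'] at ht
          simp at ht
        · rw [if_neg hg] at ht'
          simp at ht'
    · rw [List.take_of_length_le (by simp; omega)]
      rw [List.take_of_length_le (by simp; omega)] at ih
      rw [ih]
      congr 1
      ext t
      have := t.isLt
      simp only [Finset.mem_filter, Finset.mem_univ, true_and]
      constructor <;> rintro ⟨h1, h2⟩ <;> exact ⟨by omega, h2⟩

theorem sum_count {n : ℕ} (S : List (Fin n)) : ∑ i, S.count i = S.length := by
  have := Multiset.sum_count_eq_card (s := (Finset.univ : Finset (Fin n)))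
    (m := (S : Multiset (Fin n))) (fun a _ => Finset.mem_univ a)
  simpa only [Multiset.coe_count, Multiset.coe_card] using this

theorem sum_get (d : List ℕ) : ∑ i, d.get i = d.sum := by
  simp [← List.sum_ofFn]

section

variable {d : List ℕ} {S : List (Fin d.length)}

theorem length_of_isJIT (h : IsJIT d S) : S.length = d.sum := by
  rw [← sum_count, Finset.sum_congr rfl fun i _ => h i, sum_get]

/-- The necessary condition. -/
theorem necessary {B : ℚ} (hB : 0 ≤ B) (h : IsJIT d S) (hS : DevLE d S B) {x y : ℕ}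
    (hxy : x ≤ y) (hy : y ≤ d.sum) :
    ∑ i : Fin d.length, (cnt ((d.get i : ℚ) / d.sum) B x y).toNat ≤ y - x := by
  have hlen := length_of_isJIT h
  have key : ∀ i : Fin d.length, (cnt ((d.get i : ℚ) / d.sum) B x y).toNat + occ S i x ≤
      occ S i y := by
    intro i
    have hmono : occ S i x ≤ occ S i y := List.Sublist.count_le _ (List.take_sublist_take_left hxy)
    have h1 : ⌈(y : ℚ) * ((d.get i : ℚ) / d.sum) - B⌉ ≤ (occ S i y : ℤ) := by
      rw [Int.ceil_le]
      rcases Nat.eq_zero_or_pos y with h0 | h0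
      · subst h0
        have : (0 : ℚ) ≤ ((occ S i 0 : ℤ) : ℚ) := by positivity
        simp only [Nat.cast_zero, zero_mul]
        linarith
      · have := (abs_le.1 (hS i y h0 hy)).1
        rw [Int.cast_natCast]
        linarith
    have h2 : (occ S i x : ℤ) ≤ ⌊(x : ℚ) * ((d.get i : ℚ) / d.sum) + B⌋ := by
      rw [Int.le_floor]
      rcases Nat.eq_zero_or_pos x with h0 | h0
      · subst h0
        simp only [occ, List.take_zero, List.count_nil, Nat.cast_zero, zero_mul, zero_add,
          Int.cast_zero]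
        exact hB
      · have := (abs_le.1 (hS i x h0 (hxy.trans hy))).2
        rw [Int.cast_natCast]
        linarith
    rw [cnt]
    omega
  have h1 := Finset.sum_le_sum fun i (_ : i ∈ Finset.univ) => key i
  rw [Finset.sum_add_distrib] at h1
  have h2 : ∀ k ≤ d.sum, ∑ i, occ S i k = k := by
    intro k hk
    simp only [occ]
    rw [sum_count, List.length_take]
    omega
  rw [h2 x (hxy.trans hy), h2 y hy] at h1
  omega

end

/-- The sufficient condition. -/
theorem sufficient {d : List ℕ} (hd : ∀ m ∈ d, 0 < m) (hne : d ≠ []) {B : ℚ} (hB : 0 ≤ B)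
    (hB1 : B < 1)
    (H : ∀ x y : ℕ, x ≤ y → y ≤ d.sum →
      ∑ i : Fin d.length, (cnt ((d.get i : ℚ) / d.sum) B x y).toNat ≤ y - x) :
    Feasible d B := by
  classical
  set D := d.sum with hD
  have hDpos : 0 < D := by
    obtain ⟨a, l, rfl⟩ := List.exists_cons_of_ne_nil hne
    have := hd a (by simp)
    rw [hD, List.sum_cons]
    omega
  have hDq : (0 : ℚ) < D := by exact_mod_cast hDpos
  set r : Fin d.length → ℚ := fun i => (d.get i : ℚ) / D with hr
  have hdpos : ∀ i, 0 < d.get i := fun i => hd _ (List.get_mem d i)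
  have hrpos : ∀ i, 0 < r i := fun i => div_pos (by exact_mod_cast hdpos i) hDq
  have hrD : ∀ i, r i * D = d.get i := fun i => by
    rw [hr]
    field_simp
  let J : Type := Σ i : Fin d.length, Fin (d.get i)
  let a : J → ℕ := fun c => rel (r c.1) B c.2
  let b : J → ℕ := fun c => dead (r c.1) B c.2
  have ha : ∀ c, 1 ≤ a c := by
    intro c
    show 0 < rel (r c.1) B c.2
    rw [rel, Nat.ceil_pos]
    refine div_pos ?_ (hrpos _)
    have : (0 : ℚ) ≤ ((c.2 : ℕ) : ℚ) := by positivity
    linarith
  have hb : ∀ c, b c ≤ D := by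
    intro c
    show dead (r c.1) B c.2 ≤ D
    rw [dead_le (hrpos _) hB, Int.lt_ceil, mul_comm (D : ℚ), hrD]
    have h1 : (c.2 : ℕ) + 1 ≤ d.get c.1 := c.2.isLt
    have h2 : ((c.2 : ℕ) : ℚ) + 1 ≤ d.get c.1 := by exact_mod_cast h1
    push_cast
    linarith
  have hcard : ∀ x y : ℕ, (Finset.univ.filter fun c : J => x < a c ∧ b c ≤ y).card =
      ∑ i, (Finset.univ.filter fun j : Fin (d.get i) =>
        x < rel (r i) B j ∧ dead (r i) B j ≤ y).card := by
    intro x y
    simp only [Finset.card_filter]
    rw [Fintype.sum_sigma]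
  obtain ⟨f, hf1, hf2⟩ := (Finset.all_card_le_biUnion_card_iff_exists_injective
    (fun c : J => Finset.Icc (a c) (b c))).1 (fun s =>
      interval_hall a b D ha hb (fun x y hxy hy => by
        rw [hcard]
        refine (Finset.sum_le_sum fun i _ => ?_).trans (H x y hxy hy)
        rw [card_windows (hrpos i) hB (hrD i) x y hy]) D s le_rfl (fun c _ => hb c))
  have hf3 : ∀ c, 1 ≤ f c ∧ f c ≤ D := by
    intro c
    have h1 := Finset.mem_Icc.1 (hf2 c)
    exact ⟨(ha c).trans h1.1, h1.2.trans (hb c)⟩
  let F : J → Fin D := fun c => ⟨f c - 1, by have := hf3 c; omega⟩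
  have hFinj : Function.Injective F := by
    intro c c' h
    apply hf1
    have h1 : f c - 1 = f c' - 1 := congrArg Fin.val h
    have := hf3 c
    have := hf3 c'
    omega
  have hFcard : Fintype.card J = Fintype.card (Fin D) := by
    rw [Fintype.card_sigma]
    simp only [Fintype.card_fin]
    rw [sum_get]
  have hFbij : Function.Bijective F := (Fintype.bijective_iff_injective_and_card F).2
    ⟨hFinj, hFcard⟩
  let e : J ≃ Fin D := Equiv.ofBijective F hFbij
  let S : List (Fin d.length) := List.ofFn fun k => (e.symm k).1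
  have hocc : ∀ (i : Fin d.length) (k : ℕ), occ S i k =
      (Finset.univ.filter fun j : Fin (d.get i) => f ⟨i, j⟩ ≤ k).card := by
    intro i k
    rw [occ, count_take_ofFn]
    have e1 : (Finset.univ.filter fun t : Fin D => t.val < k ∧ (e.symm t).1 = i) =
        (Finset.univ.filter fun j : Fin (d.get i) => f ⟨i, j⟩ ≤ k).map
          ⟨fun j => e ⟨i, j⟩, fun j j' h => by
            have := e.injective h
            exact eq_of_heq (Sigma.mk.inj this).2⟩ := by
      ext t
      simp only [Finset.mem_filter, Finset.mem_univ, true_and, Finset.mem_map]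
      constructor
      · rintro ⟨h1, h2⟩
        obtain ⟨c, rfl⟩ := e.surjective t
        rw [Equiv.symm_apply_apply] at h2
        obtain ⟨i', j⟩ := c
        simp only at h2
        subst h2
        refine ⟨j, ?_, rfl⟩
        have h3 : f ⟨i', j⟩ - 1 < k := h1
        have := hf3 ⟨i', j⟩
        omega
      · rintro ⟨j, h1, rfl⟩
        refine ⟨?_, ?_⟩
        swap
        · show (e.symm (e ⟨i, j⟩)).1 = i
          rw [Equiv.symm_apply_apply]
        show f ⟨i, j⟩ - 1 < k
        have := hf3 ⟨i, j⟩
        omega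
    rw [e1, Finset.card_map]
  refine ⟨S, ?_, ?_⟩
  · intro i
    have h1 : S.take D = S := List.take_of_length_le (by simp [S])
    have h2 : S.count i = occ S i D := by rw [occ, h1]
    rw [h2, hocc]
    have : (Finset.univ.filter fun j : Fin (d.get i) => f ⟨i, j⟩ ≤ D) = Finset.univ := by
      rw [Finset.filter_eq_self]
      intro j _
      exact (hf3 _).2
    rw [this]
    simp
  · intro i k hk1 hkD
    rw [hocc]
    have hlow : (cnt (r i) B 0 k).toNat ≤
        (Finset.univ.filter fun j : Fin (d.get i) => f ⟨i, j⟩ ≤ k).card := by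
      rw [← card_windows (hrpos i) hB (hrD i) 0 k hkD]
      refine Finset.card_le_card fun j hj => ?_
      simp only [Finset.mem_filter, Finset.mem_univ, true_and] at hj ⊢
      exact (Finset.mem_Icc.1 (hf2 ⟨i, j⟩)).2.trans hj.2
    have hupp : (Finset.univ.filter fun j : Fin (d.get i) => f ⟨i, j⟩ ≤ k).card +
        (cnt (r i) B k D).toNat ≤ d.get i := by
      rw [← card_windows (hrpos i) hB (hrD i) k D le_rfl, ← Finset.card_union_of_disjoint]
      · refine (Finset.card_le_univ _).trans ?_
        simp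
      · rw [Finset.disjoint_left]
        intro j hj hj'
        simp only [Finset.mem_filter, Finset.mem_univ, true_and] at hj hj'
        have := (Finset.mem_Icc.1 (hf2 ⟨i, j⟩)).1
        have h2 : a ⟨i, j⟩ = rel (r i) B j := rfl
        omega
    have h1 : ⌊((0 : ℕ) : ℚ) * r i + B⌋ = 0 := by
      rw [Int.floor_eq_iff]
      simp only [Nat.cast_zero, zero_mul, zero_add, Int.cast_zero]
      exact ⟨hB, hB1⟩
    have h2 : ⌈((D : ℕ) : ℚ) * r i - B⌉ = d.get i := by
      rw [Int.ceil_eq_iff, mul_comm, hrD]
      push_cast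
      constructor <;> linarith
    rw [cnt, h1, sub_zero] at hlow
    rw [cnt, h2] at hupp
    have h3 := Int.le_ceil ((k : ℚ) * r i - B)
    have h4 := Int.floor_le ((k : ℚ) * r i + B)
    set N := (Finset.univ.filter fun j : Fin (d.get i) => f ⟨i, j⟩ ≤ k).card with hN
    have h5 : ⌈(k : ℚ) * r i - B⌉ ≤ (N : ℤ) := by omega
    have h6 : (N : ℤ) ≤ ⌊(k : ℚ) * r i + B⌋ := by omega
    have h7 : ((⌈(k : ℚ) * r i - B⌉ : ℤ) : ℚ) ≤ N := by exact_mod_cast h5
    have h8 : (N : ℚ) ≤ ((⌊(k : ℚ) * r i + B⌋ : ℤ) : ℚ) := by exact_mod_cast h6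
    have h9 : r i = (d.get i : ℚ) / D := rfl
    rw [← h9, abs_le]
    constructor <;> linarith

/-- The criterion. -/
theorem feasible_iff {d : List ℕ} (hd : ∀ m ∈ d, 0 < m) (hne : d ≠ []) {B : ℚ} (hB : 0 ≤ B)
    (hB1 : B < 1) : Feasible d B ↔ ∀ x y : ℕ, x ≤ y → y ≤ d.sum →
      ∑ i : Fin d.length, (cnt ((d.get i : ℚ) / d.sum) B x y).toNat ≤ y - x :=
  ⟨fun ⟨_, h1, h2⟩ _ _ hxy hy => necessary hB h1 h2 hxy hy, sufficient hd hne hB hB1⟩

theorem Feasible.mono {d : List ℕ} {B B' : ℚ} (h : Feasible d B) (hB : B ≤ B') :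
    Feasible d B' := by
  obtain ⟨S, h1, h2⟩ := h
  exact ⟨S, h1, fun i k hk hk' => (h2 i k hk hk').trans hB⟩

/-- Every instance is feasible if the bound is at least one. -/
theorem feasible_of_one_le {d : List ℕ} (hd : ∀ m ∈ d, 0 < m) (hne : d ≠ []) {B : ℚ}
    (hB : 1 ≤ B) : Feasible d B := by
  have hDpos : 0 < d.sum := by
    obtain ⟨a, l, rfl⟩ := List.exists_cons_of_ne_nil hne
    have := hd a (by simp)
    rw [List.sum_cons]
    omega
  set D := d.sum with hD
  have hDq : (1 : ℚ) ≤ D := by exact_mod_cast hDpos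
  have hD0 : (0 : ℚ) < D := by linarith
  have hinv : (1 : ℚ) / D ≤ 1 := by rw [div_le_one hD0]; exact hDq
  have hinv0 : (0 : ℚ) < 1 / D := by positivity
  refine Feasible.mono (B := 1 - 1 / D) (sufficient hd hne (by linarith) (by linarith) ?_)
    (by linarith)
  intro x y hxy hy
  rw [← hD] at hy ⊢
  have key : ∀ i : Fin d.length, (((cnt ((d.get i : ℚ) / D) (1 - 1 / D) x y).toNat : ℕ) : ℚ) ≤
      ((y : ℚ) - x) * ((d.get i : ℚ) / D) := by
    intro i
    set r := (d.get i : ℚ) / D with hr
    have hr0 : 0 ≤ r := by positivity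
    have hrD : r * D = d.get i := by rw [hr]; field_simp
    have h1 : ((⌈(y : ℚ) * r - (1 - 1 / D)⌉ : ℤ) : ℚ) ≤ y * r := by
      have h2 := Int.ceil_lt_add_one ((y : ℚ) * r - (1 - 1 / D))
      set c := ⌈(y : ℚ) * r - (1 - 1 / D)⌉
      have h3 : (c : ℚ) * D < y * d.get i + 1 := by
        have h4 : (c : ℚ) < y * r + 1 / D := by linarith
        have h5 := mul_lt_mul_of_pos_right h4 hD0
        have h6 : (y * r + 1 / D) * (D : ℚ) = y * (r * D) + 1 := by field_simp
        rw [h6, hrD] at h5
        exact h5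
      have h4 : c * D < y * d.get i + 1 := by exact_mod_cast h3
      have h5 : c * D ≤ y * d.get i := by omega
      have h6 : (c : ℚ) * D ≤ y * d.get i := by exact_mod_cast h5
      rw [← hrD, ← mul_assoc] at h6
      exact le_of_mul_le_mul_right h6 hD0
    have h2 : (x : ℚ) * r ≤ ((⌊(x : ℚ) * r + (1 - 1 / D)⌋ : ℤ) : ℚ) := by
      have h2 := Int.sub_one_lt_floor ((x : ℚ) * r + (1 - 1 / D))
      set c := ⌊(x : ℚ) * r + (1 - 1 / D)⌋
      have h3 : (x : ℚ) * d.get i < c * D + 1 := by
        have h4 : (x : ℚ) * r < c + 1 / D := by linarith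
        have h5 := mul_lt_mul_of_pos_right h4 hD0
        have h6 : (c + 1 / D) * (D : ℚ) = c * D + 1 := by field_simp
        rw [h6, mul_assoc, hrD] at h5
        exact h5
      have h4 : x * d.get i < c * D + 1 := by exact_mod_cast h3
      have h5 : x * d.get i ≤ c * D := by omega
      have h6 : (x : ℚ) * d.get i ≤ c * D := by exact_mod_cast h5
      rw [← hrD, ← mul_assoc] at h6
      exact le_of_mul_le_mul_right h6 hD0
    have hxy' : (x : ℚ) ≤ y := by exact_mod_cast hxy
    have h3 : (0 : ℚ) ≤ ((y : ℚ) - x) * r := mul_nonneg (by linarith) hr0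
    have h4 : ((cnt r (1 - 1 / D) x y : ℤ) : ℚ) ≤ ((y : ℚ) - x) * r := by
      rw [cnt]
      push_cast
      linarith
    rcases le_or_gt 0 (cnt r (1 - 1 / D) x y) with h5 | h5
    · have h6 : (((cnt r (1 - 1 / D) x y).toNat : ℕ) : ℤ) = cnt r (1 - 1 / D) x y :=
        Int.toNat_of_nonneg h5
      have h7 : (((cnt r (1 - 1 / D) x y).toNat : ℕ) : ℚ) = ((cnt r (1 - 1 / D) x y : ℤ) : ℚ) := by
        exact_mod_cast h6
      rw [h7]
      exact h4
    · rw [Int.toNat_of_nonpos h5.le]
      simpa using h3
  have h1 := Finset.sum_le_sum fun i (_ : i ∈ Finset.univ) => key i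
  rw [← Finset.mul_sum, ← Finset.sum_div] at h1
  have h2 : ∑ i : Fin d.length, ((d.get i : ℕ) : ℚ) = D := by
    rw [← Nat.cast_sum, sum_get]
  rw [h2, div_self hD0.ne', mul_one, ← Nat.cast_sum] at h1
  have h3 : ((∑ i : Fin d.length, (cnt ((d.get i : ℚ) / D) (1 - 1 / D) x y).toNat : ℕ) : ℚ) ≤
      ((y - x : ℕ) : ℚ) := by
    rw [Nat.cast_sub hxy]
    exact h1
  exact_mod_cast h3

end Pool.Agent.Jit
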