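import Pool.Agent.Lib_MP_cedc2d_lc.Num

/-!
# The instances of the reduction
-/

namespace Pool.Agent.Jit

/-- The instance with `n = 2 * L.length + 2` items. -/
def inst (n U : ℕ) (L : List (ℕ × ℕ)) : List ℕ :=
  (2 * n - 1) * U :: (n - 1) * U :: L.flatMap fun w =>
    [(n - 1) * U + w.1 - w.2, (n - 1) * U + w.2 - w.1]

section

variable {n U : ℕ} {L : List (ℕ × ℕ)}

theorem length_inst (hn : n = 2 * L.length + 2) : (inst n U L).length = n := by
  have : ∀ L : List (ℕ × ℕ), (L.flatMap fun w =>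
    [(n - 1) * U + w.1 - w.2, (n - 1) * U + w.2 - w.1]).length = 2 * L.length := by
    intro L
    induction L with
    | nil => rfl
    | cons w L ih => rw [List.flatMap_cons, List.length_append, ih]; simp; ring
  rw [inst, List.length_cons, List.length_cons, this]
  omega

theorem small (hn4 : 4 ≤ n) {u : ℕ} (hu : 2 * n * u ≤ U) : u ≤ (n - 1) * U := by
  have h1 : u ≤ 2 * n * u := by nlinarith
  have h2 : U ≤ (n - 1) * U := Nat.le_mul_of_pos_left _ (by omega)
  omega

theorem sum_inst (hn : n = 2 * L.length + 2) (hn4 : 4 ≤ n)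
    (hL : ∀ w ∈ L, 2 * n * w.1 ≤ U ∧ 2 * n * w.2 ≤ U) : (inst n U L).sum = n ^ 2 * U := by
  have : ∀ L' : List (ℕ × ℕ), (∀ w ∈ L', w ∈ L) → (L'.flatMap fun w =>
    [(n - 1) * U + w.1 - w.2, (n - 1) * U + w.2 - w.1]).sum = L'.length * (2 * ((n - 1) * U)) := by
    intro L' h
    induction L' with
    | nil => simp
    | cons w L' ih =>
      rw [List.flatMap_cons, List.sum_append, ih fun w hw => h w (List.mem_cons_of_mem _ hw)]
      obtain ⟨h1, h2⟩ := hL w (h w (by simp))
      have h3 := small hn4 h1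
      have h4 := small hn4 h2
      simp only [List.sum_cons, List.sum_nil, List.length_cons, add_zero]
      have e : (L'.length + 1) * (2 * ((n - 1) * U)) =
        L'.length * (2 * ((n - 1) * U)) + 2 * ((n - 1) * U) := by ring
      rw [e]
      omega
  rw [inst, List.sum_cons, List.sum_cons, this L fun _ h => h]
  obtain ⟨m, rfl⟩ : ∃ m, n = m + 1 := ⟨n - 1, by omega⟩
  have e1 : 2 * (m + 1) - 1 = 2 * m + 1 := by omega
  have e2 : m + 1 - 1 = m := by omega
  have e3 : 2 * L.length = m - 1 := by omega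
  rw [e1, e2]
  have e4 : L.length * (2 * (m * U)) = (2 * L.length) * (m * U) := by ring
  rw [e4, e3]
  obtain ⟨k, rfl⟩ : ∃ k, m = k + 1 := ⟨m - 1, by omega⟩
  rw [Nat.add_sub_cancel]
  ring

theorem mem_inst {m : ℕ} : m ∈ inst n U L ↔ m = (2 * n - 1) * U ∨ m = (n - 1) * U ∨
    ∃ w ∈ L, m = (n - 1) * U + w.1 - w.2 ∨ m = (n - 1) * U + w.2 - w.1 := by
  simp [inst]

/-- **The criterion for the instances of the reduction.** -/
theorem inst_crit (hn : n = 2 * L.length + 2) (hn4 : 4 ≤ n) (hU : 0 < U)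
    (hL : ∀ w ∈ L, 2 * n * w.1 ≤ U ∧ 2 * n * w.2 ≤ U) {τ : ℚ} (hτ : 0 < τ)
    (hτ' : 4 * (n : ℚ) ^ 3 * τ ≤ 1) :
    Feasible (inst n U L) (1 - (1 / n + τ)) ↔
      ¬ ∃ z : ℤ, ((n : ℤ) ^ 2 ∣ z + n) ∧ ∀ w ∈ L, ∃ k : ℤ,
        |z * (((w.1 : ℚ) - w.2) / (n ^ 2 * U)) - k| < τ := by
  classical
  have hnq : (4 : ℚ) ≤ n := by exact_mod_cast hn4
  have hn0 : (0 : ℚ) < n := by linarith
  have hUq : (0 : ℚ) < U := by exact_mod_cast hU
  set D := n ^ 2 * U with hD
  have hD0 : 0 < D := by positivity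
  have hDq : ((D : ℕ) : ℚ) = n ^ 2 * U := by rw [hD]; push_cast; ring
  have hDq0 : (0 : ℚ) < D := by exact_mod_cast hD0
  have hsum := sum_inst hn hn4 hL
  have hlen := length_inst (U := U) hn
  -- bounds on τ
  have hn3 : (0 : ℚ) < (n : ℚ) ^ 3 := by positivity
  have hτ1 : τ ≤ 1 / (4 * (n : ℚ) ^ 3) := by
    rw [le_div_iff₀ (by positivity)]
    linarith
  have hτ2 : (n : ℚ) ^ 2 * τ * (4 * n) ≤ 1 := by nlinarith
  have hτ3 : (n : ℚ) ^ 2 * τ ≤ 1 / 16 := by nlinarith
  have hτ4 : (n : ℚ) * τ ≤ 1 / 64 := by nlinarith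
  have hτ5 : τ ≤ 1 / 256 := by nlinarith
  have hτ6 : (n : ℚ) * (n ^ 2 * τ) ≤ 1 / 4 := by nlinarith
  set β : ℚ := 1 / n + τ with hβ
  have hninv : (n : ℚ) * (1 / n) = 1 := by field_simp
  have hninv0 : (0 : ℚ) < 1 / n := by positivity
  have hninv4 : (1 : ℚ) / n ≤ 1 / 4 := one_div_le_one_div_of_le (by norm_num) hnq
  have hτn : τ < 1 / n := by
    rw [lt_div_iff₀ hn0]
    linarith
  have hβ0 : 0 < β := by positivity
  have hβ1 : β < 1 := by linarith
  -- the members of the instance, over the rationals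
  have e2n : ((((2 * n - 1) * U : ℕ) : ℕ) : ℚ) = (2 * n - 1) * U := by
    rw [Nat.cast_mul, Nat.cast_sub (by omega)]; push_cast; ring
  have e1n : ((((n - 1) * U : ℕ) : ℕ) : ℚ) = (n - 1) * U := by
    rw [Nat.cast_mul, Nat.cast_sub (by omega)]; push_cast; ring
  have ep : ∀ w ∈ L, ((((n - 1) * U + w.1 - w.2 : ℕ) : ℕ) : ℚ) = (n - 1) * U + w.1 - w.2 := by
    intro w hw
    have := small hn4 (hL w hw).2
    rw [Nat.cast_sub (by omega), Nat.cast_add, e1n]
  have em : ∀ w ∈ L, ((((n - 1) * U + w.2 - w.1 : ℕ) : ℕ) : ℚ) = (n - 1) * U + w.2 - w.1 := by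
    intro w hw
    have := small hn4 (hL w hw).1
    rw [Nat.cast_sub (by omega), Nat.cast_add, e1n]
  have hw : ∀ w ∈ L, (2 * (n : ℚ) * w.1 ≤ U) ∧ (2 * (n : ℚ) * w.2 ≤ U) := by
    intro w hw
    obtain ⟨h1, h2⟩ := hL w hw
    constructor
    · exact_mod_cast h1
    · exact_mod_cast h2
  -- bounds for all members but the first
  have hmem : ∀ m ∈ inst n U L, m = (2 * n - 1) * U ∨
      ((n - 1) * U - U / (2 * n) ≤ (m : ℚ) ∧ (m : ℚ) ≤ (n - 1) * U + U / (2 * n)) := by
    intro m hm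
    have hU2 : (0 : ℚ) ≤ U / (2 * n) := by positivity
    have hb : ∀ u : ℕ, 2 * (n : ℚ) * u ≤ U → (u : ℚ) ≤ U / (2 * n) := by
      intro u hu
      rw [le_div_iff₀ (by positivity)]
      linarith
    rcases mem_inst.1 hm with h | h | ⟨w, hw1, h⟩
    · exact Or.inl h
    · right
      rw [h, e1n]
      constructor <;> linarith
    · right
      have h1 := hb _ (hw w hw1).1
      have h2 := hb _ (hw w hw1).2
      have h3 : (0 : ℚ) ≤ w.1 := by positivity
      have h4 : (0 : ℚ) ≤ w.2 := by positivity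
      rcases h with h | h
      · rw [h, ep w hw1]
        constructor <;> linarith
      · rw [h, em w hw1]
        constructor <;> linarith
  have hrb : ∀ m ∈ inst n U L, m = (2 * n - 1) * U ∨
      (((n : ℚ) - 1) / n ^ 2 - 1 / (2 * n ^ 3) ≤ (m : ℚ) / D ∧
        (m : ℚ) / D ≤ ((n : ℚ) - 1) / n ^ 2 + 1 / (2 * n ^ 3)) := by
    intro m hm
    refine (hmem m hm).imp id fun ⟨h1, h2⟩ => ?_
    rw [le_div_iff₀ hDq0, div_le_iff₀ hDq0, hDq]
    have e1 : (((n : ℚ) - 1) / n ^ 2 - 1 / (2 * n ^ 3)) * (n ^ 2 * U) =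
      (n - 1) * U - U / (2 * n) := by field_simp
    have e2 : (((n : ℚ) - 1) / n ^ 2 + 1 / (2 * n ^ 3)) * (n ^ 2 * U) =
      (n - 1) * U + U / (2 * n) := by field_simp
    rw [e1, e2]
    exact ⟨h1, h2⟩
  have hr1 : ((((2 * n - 1) * U : ℕ) : ℕ) : ℚ) / D = (2 * n - 1) / n ^ 2 := by
    rw [e2n, hDq]
    field_simp
  have hpos : ∀ m ∈ inst n U L, 0 < m := by
    intro m hm
    rcases hmem m hm with h | ⟨h, _⟩
    · rw [h]
      exact Nat.mul_pos (by omega) hU
    · have h1 : (U : ℚ) / (2 * n) ≤ U := by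
        rw [div_le_iff₀ (by positivity)]
        nlinarith
      have h2 : (0 : ℚ) < m := by nlinarith
      exact_mod_cast h2
  have hne : inst n U L ≠ [] := by simp [inst]
  have hfeas := feasible_iff (B := 1 - β) hpos hne (by linarith) (by linarith)
  rw [hfeas, hsum]
  -- apply the criterion
  have hmemget : ∀ i : Fin (inst n U L).length, (inst n U L).get i ∈ inst n U L :=
    fun i => List.get_mem _ i
  have hc2 : 1 - 2 * β < ((n : ℚ) - 1) * (((n : ℚ) - 1) / n ^ 2 - 1 / (2 * n ^ 3)) := by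
    have e : ((n : ℚ) - 1) * (((n : ℚ) - 1) / n ^ 2 - 1 / (2 * n ^ 3)) =
      1 - 2 * (1 / n) + 1 / n ^ 2 - (n - 1) / (2 * n ^ 3) := by field_simp; ring
    rw [e, hβ]
    have h1 : ((n : ℚ) - 1) / (2 * n ^ 3) < 1 / n ^ 2 := by
      rw [div_lt_div_iff₀ (by positivity) (by positivity)]
      nlinarith [pow_pos hn0 2, pow_pos hn0 3]
    linarith
  have hcrit := crit (r := fun i : Fin (inst n U L).length => ((inst n U L).get i : ℚ) / D)
    (β := β) (n := n) (by rw [Fintype.card_fin, hlen]) (by omega) hβ0 hβ1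
    (by
      rw [← Finset.sum_div, ← Nat.cast_sum, sum_get, hsum, div_self hDq0.ne'])
    (by
      intro i
      exact div_pos (by exact_mod_cast hpos _ (hmemget i)) hDq0) hD0
    (by
      intro i
      refine ⟨(inst n U L).get i, ?_⟩
      rw [mul_div_cancel₀ _ hDq0.ne']
      push_cast
      rfl)
    (by
      rw [hβ]
      have e : ((n : ℚ) - 1) * (1 / n + τ) = 1 - 1 / n + n * τ - τ := by field_simp; ring
      rw [e]
      have : (n : ℚ) * τ ≤ 1 / n := by
        rw [le_div_iff₀ hn0]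
        nlinarith
      linarith)
    (by
      intro i
      rcases hrb _ (hmemget i) with h | ⟨h, _⟩
      · show 1 - 2 * β < ((n : ℚ) - 1) * (((inst n U L).get i : ℚ) / D)
        rw [h, hr1]
        refine hc2.trans_le (mul_le_mul_of_nonneg_left ?_ (by linarith))
        have h1 : (0 : ℚ) ≤ 1 / (2 * n ^ 3) := by positivity
        have h2 : ((n : ℚ) - 1) / n ^ 2 ≤ (2 * n - 1) / n ^ 2 :=
          div_le_div_of_nonneg_right (by linarith) (by positivity)
        linarith
      · exact hc2.trans_le (mul_le_mul_of_nonneg_left h (by linarith)))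
    ⟨0, by rw [hlen]; omega⟩
    (by
      intro j hj
      have h1 : (inst n U L).get j ∈ (inst n U L).tail := by
        obtain ⟨j, hjl⟩ := j
        cases j with
        | zero => exact absurd rfl hj
        | succ j =>
          rw [List.get_eq_getElem]
          simp only [inst, List.getElem_cons_succ, List.tail_cons]
          exact List.getElem_mem _
      have h2 : (((inst n U L).get j : ℕ) : ℚ) / D ≤
          ((n : ℚ) - 1) / n ^ 2 + 1 / (2 * n ^ 3) := by
        have h3 : (inst n U L).get j = (n - 1) * U ∨ ∃ w ∈ L,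
            (inst n U L).get j = (n - 1) * U + w.1 - w.2 ∨
            (inst n U L).get j = (n - 1) * U + w.2 - w.1 := by
          have : (inst n U L).tail = (n - 1) * U :: L.flatMap fun w =>
            [(n - 1) * U + w.1 - w.2, (n - 1) * U + w.2 - w.1] := rfl
          rw [this] at h1
          simpa using h1
        have hU2 : (0 : ℚ) ≤ U / (2 * n) := by positivity
        have hb : ∀ u : ℕ, 2 * (n : ℚ) * u ≤ U → (u : ℚ) ≤ U / (2 * n) := by
          intro u hu
          rw [le_div_iff₀ (by positivity)]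
          linarith
        have h5 : (((inst n U L).get j : ℕ) : ℚ) ≤ (n - 1) * U + U / (2 * n) := by
          rcases h3 with h | ⟨w, hw1, h⟩
          · rw [h, e1n]; linarith
          · have h1 := hb _ (hw w hw1).1
            have h2 := hb _ (hw w hw1).2
            have h3 : (0 : ℚ) ≤ w.1 := by positivity
            have h4 : (0 : ℚ) ≤ w.2 := by positivity
            rcases h with h | h
            · rw [h, ep w hw1]; linarith
            · rw [h, em w hw1]; linarith
        rw [div_le_iff₀ hDq0, hDq]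
        have e2 : (((n : ℚ) - 1) / n ^ 2 + 1 / (2 * n ^ 3)) * (n ^ 2 * U) =
          (n - 1) * U + U / (2 * n) := by field_simp
        rw [e2]
        exact h5
      have h3 := mul_le_mul_of_nonneg_left h2 (by linarith : (0 : ℚ) ≤ (n : ℚ) - 2)
      refine (add_le_add_left h3 (2 * β)).trans ?_
      have e : ((n : ℚ) - 2) * (((n : ℚ) - 1) / n ^ 2 + 1 / (2 * n ^ 3)) + 2 * (1 / n + τ) =
        1 - (n - 2) / n ^ 2 + (n - 2) / (2 * n ^ 3) + 2 * τ := by field_simp; ring
      rw [hβ, e]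
      have h4 : 2 * τ ≤ 1 / (2 * n ^ 3) := by
        have : 2 * (1 / (4 * (n : ℚ) ^ 3)) = 1 / (2 * n ^ 3) := by field_simp; norm_num
        linarith
      have h5 : ((n : ℚ) - 2) / (2 * n ^ 3) + 1 / (2 * n ^ 3) ≤ (n - 2) / n ^ 2 := by
        rw [← add_div, div_le_div_iff₀ (by positivity) (by positivity)]
        have : (n : ℚ) - 1 ≤ 2 * n * (n - 2) := by nlinarith
        have h6 := mul_le_mul_of_nonneg_left this (by positivity : (0 : ℚ) ≤ (n : ℚ) ^ 2)
        nlinarith
      linarith)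
    (by
      show ((((2 * n - 1) * U : ℕ) : ℕ) : ℚ) / D + 2 * β ≤ 1
      rw [hr1, hβ]
      have e : (2 * (n : ℚ) - 1) / n ^ 2 + 2 * (1 / n + τ) = (4 * n - 1) / n ^ 2 + 2 * τ := by
        field_simp; ring
      rw [e]
      have h1 : (4 * (n : ℚ) - 1) / n ^ 2 ≤ 15 / 16 := by
        rw [div_le_div_iff₀ (by positivity) (by norm_num)]
        nlinarith
      linarith)
  rw [hcrit, not_iff_not]
  -- the fractions of the members
  have hg : ((((n - 1) * U : ℕ) : ℕ) : ℚ) / D = ((n : ℚ) - 1) / n ^ 2 := by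
    rw [e1n, hDq]
    field_simp
  have hp : ∀ w ∈ L, ((((n - 1) * U + w.1 - w.2 : ℕ) : ℕ) : ℚ) / D =
      ((n : ℚ) - 1) / n ^ 2 + ((w.1 : ℚ) - w.2) / (n ^ 2 * U) := by
    intro w hw
    rw [ep w hw, hDq]
    field_simp
    ring
  have hm : ∀ w ∈ L, ((((n - 1) * U + w.2 - w.1 : ℕ) : ℕ) : ℚ) / D =
      ((n : ℚ) - 1) / n ^ 2 - ((w.1 : ℚ) - w.2) / (n ^ 2 * U) := by
    intro w hw
    rw [em w hw, hDq]
    field_simp
    ring
  have hget : ∀ m ∈ inst n U L, ∃ i : Fin (inst n U L).length, (inst n U L).get i = m :=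
    fun m hm => List.get_of_mem hm
  constructor
  · rintro ⟨z, hz1, hz2⟩
    have hz1' : ∀ m ∈ inst n U L, Int.fract ((z : ℚ) * ((m : ℚ) / D)) < β := by
      intro m hm
      obtain ⟨i, hi⟩ := hget m hm
      have := hz1 i
      rw [hi] at this
      exact this
    obtain ⟨i1, hi1⟩ := hget ((n - 1) * U) (mem_inst.2 (Or.inr (Or.inl rfl)))
    have hlb := lower_bound (r := fun i : Fin (inst n U L).length =>
      ((inst n U L).get i : ℚ) / D) (n := n) (by rw [Fintype.card_fin, hlen]) (by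
      rw [← Finset.sum_div, ← Nat.cast_sum, sum_get, hsum, div_self hDq0.ne']) hz1 hz2 i1
    rw [hi1, hg] at hlb
    have hub := hz1' _ (mem_inst.2 (Or.inr (Or.inl rfl)))
    rw [hg] at hub
    have hdvd := dvd_of_fract hn4 hτ hτ6 hub hlb
    refine ⟨z, hdvd, fun w hw => ?_⟩
    obtain ⟨t, ht⟩ := mul_g hn4 hdvd
    rw [← pair_iff hn4 hτ hτn hτ5 ht]
    have k1 := hz1' _ (mem_inst.2 (Or.inr (Or.inr ⟨w, hw, Or.inl rfl⟩)))
    have k2 := hz1' _ (mem_inst.2 (Or.inr (Or.inr ⟨w, hw, Or.inr rfl⟩)))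
    rw [hp w hw] at k1
    rw [hm w hw] at k2
    exact ⟨k1, k2⟩
  · rintro ⟨z, hdvd, hz⟩
    obtain ⟨t, ht⟩ := mul_g hn4 hdvd
    obtain ⟨t1, ht1⟩ := mul_g1 hn4 hdvd
    have hf : Int.fract (1 / (n : ℚ)) = 1 / n := by
      rw [Int.fract_eq_iff]
      exact ⟨hninv0.le, by linarith, 0, by simp⟩
    refine ⟨z, fun i => ?_, ?_⟩
    · have : ∀ m ∈ inst n U L, Int.fract ((z : ℚ) * ((m : ℚ) / D)) < β := by
        intro m hm1
        rcases mem_inst.1 hm1 with h | h | ⟨w, hw, h | h⟩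
        · rw [h, hr1, ht1, Int.fract_add_intCast, hf]
          linarith
        · rw [h, hg, ht, Int.fract_add_intCast, hf]
          linarith
        · rw [h, hp w hw]
          exact ((pair_iff hn4 hτ hτn hτ5 ht).2 (hz w hw)).1
        · rw [h, hm w hw]
          exact ((pair_iff hn4 hτ hτn hτ5 ht).2 (hz w hw)).2
      exact this _ (hmemget i)
    · obtain ⟨i1, hi1⟩ := hget ((n - 1) * U) (mem_inst.2 (Or.inr (Or.inl rfl)))
      refine ⟨i1, ?_⟩
      rw [hi1, hg, ht, Int.fract_add_intCast, hf]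
      exact hninv0.ne'

end

end Pool.Agent.Jit
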