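import Pool.Agent.Lib_MP_cedc2d_lc.VerP

/-!
# BJIT is coNP-complete
-/

set_option linter.unusedSectionVars false
set_option linter.unusedVariables false

namespace Pool.Agent.Jit

open Pool.Agent.PT81 Pool.Agent.IsoImp Polynomial Turing

noncomputable section

section cook

variable {C K Sg : Type} [Fintype C] [DecidableEq C] [Fintype K] [DecidableEq K]
  [Fintype Sg] [DecidableEq Sg]

theorem len_eqC (z y : Name) (g : Cook81.Tm) : ∀ c ∈ Cook81.eqC z y g, c.length ≤ 3 := by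
  intro c hc
  cases g with
  | cst b =>
    simp only [Cook81.eqC, List.mem_singleton] at hc
    subst hc
    simp
  | var x =>
    simp only [Cook81.eqC, List.mem_cons, List.not_mem_nil, or_false] at hc
    rcases hc with rfl | rfl <;> simp

variable (M : UM C K Sg) (N : Kd C K Sg → ℕ → ℕ → Name)

theorem len_stepsC (T W : ℕ) : ∀ c ∈ Cook81.stepsC M N T W, c.length ≤ 3 := by
  intro c hc
  simp only [Cook81.stepsC, List.mem_flatMap, List.mem_append, Cook81.trC, Cook81.stC0,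
    Cook81.stC1, List.mem_map] at hc
  obtain ⟨t, _, hc⟩ := hc
  rcases hc with ⟨p, _, rfl⟩ | ⟨p, _, hc⟩ | ⟨i, _, p, _, hc⟩
  · simp
  · exact len_eqC _ _ _ c hc
  · exact len_eqC _ _ _ c hc

theorem len_posC (k : K) (i : ℕ) (o : Option Sg) : ∀ c ∈ Cook81.posC N k i o, c.length ≤ 3 := by
  intro c hc
  simp only [Cook81.posC, List.mem_map] at hc
  obtain ⟨a, _, rfl⟩ := hc
  simp

theorem len_posD (k : K) (i : ℕ) (w : Name) (f : Bool → Sg) :
    ∀ c ∈ Cook81.posD N k i w f, c.length ≤ 3 := by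
  intro c hc
  simp only [Cook81.posD, List.mem_flatMap, List.mem_cons, List.not_mem_nil, or_false] at hc
  obtain ⟨a, _, rfl | rfl⟩ := hc <;> simp

theorem len_initC {Γ : Type} (k₀ : K) (inX : Γ → Sg) (inU : Bool → Sg) (c0 : C) (x : List Γ)
    (m W : ℕ) : ∀ c ∈ Cook81.initC N k₀ inX inU c0 x m W, c.length ≤ 3 := by
  intro c hc
  rw [Cook81.initC, List.mem_append, List.mem_append, List.mem_append, List.mem_append] at hc
  rcases hc with hc | hc | hc | hc | hc
  · simp only [Cook81.ctC, List.mem_map] at hc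
    obtain ⟨a, _, rfl⟩ := hc
    simp
  · rw [List.mem_flatMap] at hc
    obtain ⟨k, _, hc⟩ := hc
    split_ifs at hc
    · simp at hc
    · rw [List.mem_flatMap] at hc
      obtain ⟨i, _, hc⟩ := hc
      exact len_posC N _ _ _ c hc
  · rw [List.mem_flatMap] at hc
    obtain ⟨i, _, hc⟩ := hc
    exact len_posC N _ _ _ c hc
  · rw [List.mem_flatMap] at hc
    obtain ⟨i, _, hc⟩ := hc
    exact len_posD N _ _ _ _ c hc
  · rw [List.mem_flatMap] at hc
    obtain ⟨i, _, hc⟩ := hc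
    exact len_posC N _ _ _ c hc

end cook

/-- The Cook–Levin theorem with clauses of at most three literals. -/
theorem cook_levin3 {Γ : Type} [Fintype Γ] [inst : ∀ E : Env, Enc E Γ] {L : Set (List Γ)}
    (hL : InNP L) : ∃ F : List Γ → Cnf, (∀ E : Env, Poly E F) ∧
      (∀ x, ∀ c ∈ F x, c.length ≤ 3) ∧
      ∀ x, x ∈ L ↔ ∃ A : List Bool → Bool, ∀ c ∈ F x, ∃ l ∈ c, A l.2 = l.1 := by
  classical
  obtain ⟨R, q, ⟨Mc⟩, hR⟩ := hL
  refine ⟨Cook81.cook Mc q, fun E => Cook81.poly_cook Mc q, fun x c hc => ?_, fun x => ?_⟩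
  · rw [Cook81.cook, List.mem_append, Cook81.tabC, List.mem_append] at hc
    rcases hc with (hc | hc) | hc
    · exact len_initC _ _ _ _ _ _ _ _ c hc
    · exact len_stepsC _ _ _ _ c hc
    · simp only [List.mem_singleton] at hc
      subst hc
      simp
  · rw [hR x, ← Cook81.cook_spec Mc q x]
    rfl

/-- The strings of the instances of formulas. -/
theorem redStr_mem {φ : Cnf} (h3 : ∀ c ∈ φ, c.length ≤ 3) :
    redStr φ ∈ BJIT ↔ ¬ ∃ A : List Bool → Bool, ∀ c ∈ φ, ∃ l ∈ c, A l.2 = l.1 := by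
  rw [redStr, mem_iff, ← red_correct h3]
  constructor
  · exact fun h => h.2.2.2
  · intro h
    refine ⟨instOf_ne, instOf_pos h3, ?_, h⟩
    have := FF_pos (φ := φ)
    have := four_le (φ := φ)
    positivity

/-- **BJIT is hard for coNP.** -/
theorem hard {Γ : Type} [Fintype Γ] (L : Set (List Γ)) (hL : InNP Lᶜ) : Reduces L BJIT := by
  classical
  haveI : ∀ E : Env, Enc E Γ := fun E => finEnc E Γ
  obtain ⟨F, hF, h3, hFL⟩ := cook_levin3 hL
  refine ⟨fun x => redStr (F x), ?_, fun x => ?_⟩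
  · exact poly_toTM2 (G₀ := Γ) (G₁ := Option Bool) (Poly.comp (g := redStr) poly_redStr
      (hF (io Γ (Option Bool)))) _ _ _ (fun _ => rfl)
  · rw [redStr_mem (h3 x), ← hFL x]
    simp

/-- If BJIT is in NP, then NP is closed under complements. -/
theorem compl_of_inNP (h : InNP BJIT) {Γ : Type} [Fintype Γ] (L : Set (List Γ)) (hL : InNP L) :
    InNP Lᶜ := by
  haveI : ∀ E : Env, Enc E Γ := fun E => finEnc E Γ
  obtain ⟨F, hF, h3, hFL⟩ := cook_levin3 hL
  obtain ⟨F₁, hF₁, _, hFL₁⟩ := cook_levin3 h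
  refine inNP_of_cnf _ (fun x => F₁ (redStr (F x))) (fun E =>
    Poly.comp (g := F₁) (f := fun x => redStr (F x)) (hF₁ E)
      (Poly.comp (g := redStr) (f := F) poly_redStr (hF E))) fun x => ?_
  rw [← hFL₁, redStr_mem (h3 x), ← hFL x]
  rfl

/-- **Main theorem.** -/
theorem main : (InNP (BJIT)ᶜ ∧ ∀ (Γ : Type) [Fintype Γ] (L : Set (List Γ)), InNP Lᶜ →
      Reduces L BJIT) ∧
    (InNP BJIT ↔ ∀ (Γ : Type) [Fintype Γ] (L : Set (List Γ)), InNP L ↔ InNP Lᶜ) := by
  refine ⟨⟨inNP_compl, fun Γ _ L hL => hard L hL⟩, fun h Γ _ L => ⟨compl_of_inNP h L, ?_⟩, ?_⟩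
  · intro h2
    have := compl_of_inNP h _ h2
    rwa [compl_compl] at this
  · intro h
    exact (h (Option Bool) BJIT).2 inNP_compl

end

end Pool.Agent.Jit
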