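import Pool.Agent.Lib_MP_cedc2d_lc.Crit

/-!
# The arithmetic of the instances of the reduction
-/

namespace Pool.Agent.Jit

/-- Two opposite perturbations of `1 / n`. -/
theorem pair_iff {n : ℕ} (hn4 : 4 ≤ n) {τ : ℚ} (hτ : 0 < τ) (hτ' : τ < 1 / n) (hτ1 : τ ≤ 1 / 256)
    {g π : ℚ} {z t : ℤ} (hg : (z : ℚ) * g = 1 / n + t) :
    (Int.fract (z * (g + π)) < 1 / n + τ ∧ Int.fract (z * (g - π)) < 1 / n + τ) ↔
      ∃ k : ℤ, |z * π - k| < τ := by
  have hnq : (4 : ℚ) ≤ n := by exact_mod_cast hn4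
  have hn0 : (0 : ℚ) < n := by linarith
  have hninv0 : (0 : ℚ) < 1 / n := by positivity
  have hninv4 : (1 : ℚ) / n ≤ 1 / 4 := one_div_le_one_div_of_le (by norm_num) hnq
  have e1 : (z : ℚ) * (g + π) = (1 / n + z * π) + t := by rw [mul_add, hg]; ring
  have e2 : (z : ℚ) * (g - π) = (1 / n - z * π) + t := by rw [mul_sub, hg]; ring
  rw [e1, e2, Int.fract_add_intCast, Int.fract_add_intCast]
  set θ : ℚ := z * π
  constructor
  · rintro ⟨h1, h2⟩
    have f1 := Int.floor_add_fract (1 / (n : ℚ) + θ)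
    have f2 := Int.floor_add_fract (1 / (n : ℚ) - θ)
    have p1 := Int.fract_nonneg (1 / (n : ℚ) + θ)
    have p2 := Int.fract_nonneg (1 / (n : ℚ) - θ)
    set a := ⌊1 / (n : ℚ) + θ⌋
    set b := ⌊1 / (n : ℚ) - θ⌋
    set s := Int.fract (1 / (n : ℚ) + θ)
    set s' := Int.fract (1 / (n : ℚ) - θ)
    have h3 : ((a + b : ℤ) : ℚ) < 1 := by push_cast; linarith
    have h4 : (-1 : ℚ) < ((a + b : ℤ) : ℚ) := by push_cast; linarith
    have h5 : a + b < 1 := by exact_mod_cast h3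
    have h6 : -1 < a + b := by exact_mod_cast h4
    have h7 : b = -a := by omega
    have h8 : (b : ℚ) = -a := by rw [h7]; push_cast; ring
    refine ⟨a, abs_lt.2 ⟨by linarith, by linarith⟩⟩
  · rintro ⟨k, hk⟩
    obtain ⟨h1, h2⟩ := abs_lt.1 hk
    have f1 : Int.fract (1 / (n : ℚ) + θ) = 1 / n + (θ - k) := by
      rw [Int.fract_eq_iff]
      exact ⟨by linarith, by linarith, k, by ring⟩
    have f2 : Int.fract (1 / (n : ℚ) - θ) = 1 / n - (θ - k) := by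
      rw [Int.fract_eq_iff]
      exact ⟨by linarith, by linarith, -k, by push_cast; ring⟩
    rw [f1, f2]
    constructor <;> linarith

/-- The value of `z` modulo `n ^ 2`. -/
theorem dvd_of_fract {n : ℕ} (hn4 : 4 ≤ n) {τ : ℚ} (hτ : 0 < τ)
    (hτ6 : (n : ℚ) * (n ^ 2 * τ) ≤ 1 / 4) {z : ℤ}
    (h1 : Int.fract ((z : ℚ) * (((n : ℚ) - 1) / n ^ 2)) < 1 / n + τ)
    (h2 : 1 - ((n : ℚ) - 1) * (1 / n + τ) ≤ Int.fract ((z : ℚ) * (((n : ℚ) - 1) / n ^ 2))) :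
    (n : ℤ) ^ 2 ∣ z + n := by
  have hnq : (4 : ℚ) ≤ n := by exact_mod_cast hn4
  have hn0 : (0 : ℚ) < n := by linarith
  have hn2 : (0 : ℚ) < (n : ℚ) ^ 2 := by positivity
  have f1 := Int.floor_add_fract ((z : ℚ) * (((n : ℚ) - 1) / n ^ 2))
  set a := ⌊(z : ℚ) * (((n : ℚ) - 1) / n ^ 2)⌋
  set s := Int.fract ((z : ℚ) * (((n : ℚ) - 1) / n ^ 2))
  have e0 : (n : ℚ) ^ 2 * s = z * (n - 1) - n ^ 2 * a := by
    have : s = (z : ℚ) * (((n : ℚ) - 1) / n ^ 2) - a := by linarith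
    rw [this]
    field_simp
  have h3 : (n : ℚ) ^ 2 * s < n + 1 := by
    have := mul_lt_mul_of_pos_left h1 hn2
    have e : (n : ℚ) ^ 2 * (1 / n + τ) = n + n ^ 2 * τ := by field_simp
    rw [e] at this
    have : (n : ℚ) ^ 2 * τ ≤ n * (n ^ 2 * τ) := by nlinarith [mul_pos hn2 hτ]
    linarith
  have h4 : (n : ℚ) - 1 < (n : ℚ) ^ 2 * s := by
    have := mul_le_mul_of_nonneg_left h2 hn2.le
    have e : (n : ℚ) ^ 2 * (1 - ((n : ℚ) - 1) * (1 / n + τ)) =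
      n - (n * (n ^ 2 * τ) - n ^ 2 * τ) := by field_simp; ring
    rw [e] at this
    have : 0 < (n : ℚ) ^ 2 * τ := by positivity
    linarith
  rw [e0] at h3 h4
  have h5 : z * ((n : ℤ) - 1) - n ^ 2 * a < n + 1 := by exact_mod_cast h3
  have h6 : (n : ℤ) - 1 < z * ((n : ℤ) - 1) - n ^ 2 * a := by exact_mod_cast h4
  have h7 : z * ((n : ℤ) - 1) = n + n ^ 2 * a := by omega
  refine ⟨z - 1 - a * (n + 1), ?_⟩
  linear_combination (-((n : ℤ) + 1)) * h7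

/-- The value of `z g` modulo one. -/
theorem mul_g {n : ℕ} (hn4 : 4 ≤ n) {z : ℤ} (h : (n : ℤ) ^ 2 ∣ z + n) :
    ∃ t : ℤ, (z : ℚ) * (((n : ℚ) - 1) / n ^ 2) = 1 / n + t := by
  have hn0 : (0 : ℚ) < n := by
    have : (4 : ℚ) ≤ n := by exact_mod_cast hn4
    linarith
  obtain ⟨k, hk⟩ := h
  refine ⟨k * (n - 1) - 1, ?_⟩
  have h1 : (z : ℚ) = n ^ 2 * k - n := by
    have : z = n ^ 2 * k - n := by linarith
    rw [this]; push_cast; ring
  rw [h1]
  push_cast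
  field_simp
  ring

theorem mul_g1 {n : ℕ} (hn4 : 4 ≤ n) {z : ℤ} (h : (n : ℤ) ^ 2 ∣ z + n) :
    ∃ t : ℤ, (z : ℚ) * ((2 * (n : ℚ) - 1) / n ^ 2) = 1 / n + t := by
  have hn0 : (0 : ℚ) < n := by
    have : (4 : ℚ) ≤ n := by exact_mod_cast hn4
    linarith
  obtain ⟨k, hk⟩ := h
  refine ⟨k * (2 * n - 1) - 2, ?_⟩
  have h1 : (z : ℚ) = n ^ 2 * k - n := by
    have : z = n ^ 2 * k - n := by linarith
    rw [this]; push_cast; ring
  rw [h1]
  push_cast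
  field_simp
  ring

/-- If all the fractional parts are small and not all of them vanish, then none is too small. -/
theorem lower_bound {ι : Type} [Fintype ι] {r : ι → ℚ} {β : ℚ} {n : ℕ}
    (hn : Fintype.card ι = n) (hr : ∑ i, r i = 1) {z : ℤ}
    (h1 : ∀ i, Int.fract (z * r i) < β) (h2 : ∃ i, Int.fract (z * r i) ≠ 0) (j : ι) :
    1 - ((n : ℚ) - 1) * β ≤ Int.fract (z * r j) := by
  classical
  have h3 : ∑ i, Int.fract ((z : ℚ) * r i) = ((z - ∑ i, ⌊(z : ℚ) * r i⌋ : ℤ) : ℚ) := by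
    simp only [Int.fract, Finset.sum_sub_distrib]
    push_cast
    rw [← Finset.mul_sum, hr, mul_one]
  have h4 : 0 < ∑ i, Int.fract ((z : ℚ) * r i) := by
    obtain ⟨i, hi⟩ := h2
    exact Finset.sum_pos' (fun i _ => Int.fract_nonneg _)
      ⟨i, Finset.mem_univ _, lt_of_le_of_ne (Int.fract_nonneg _) (Ne.symm hi)⟩
  have h5 : 1 ≤ ∑ i, Int.fract ((z : ℚ) * r i) := by
    rw [h3] at h4 ⊢
    have : 0 < (z - ∑ i, ⌊(z : ℚ) * r i⌋ : ℤ) := by exact_mod_cast h4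
    have : 1 ≤ (z - ∑ i, ⌊(z : ℚ) * r i⌋ : ℤ) := by omega
    exact_mod_cast this
  rw [← Finset.add_sum_erase _ _ (Finset.mem_univ j)] at h5
  have h6 : ∑ i ∈ Finset.univ.erase j, Int.fract ((z : ℚ) * r i) ≤ ((n : ℚ) - 1) * β := by
    refine (Finset.sum_le_sum fun i _ => (h1 i).le).trans ?_
    rw [Finset.sum_const, Finset.card_erase_of_mem (Finset.mem_univ j), Finset.card_univ, hn,
      nsmul_eq_mul]
    have h5 : 0 < n := by
      rw [← hn]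
      exact Fintype.card_pos_iff.2 ⟨j⟩
    rw [Nat.cast_sub h5]
    simp
  linarith

end Pool.Agent.Jit
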