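import Pool.Agent.Lib_MP_cedc2d_lc.Sat
import Pool.Agent.Lib_MP_cedc2d_lc.Bin
import Pool.Agent.Lib_MP_33ea09_lc.CookH
import Pool.Agent.Lib_MP_a1eae6_lc.MembPoly

/-!
# The reduction is computable in polynomial time
-/

set_option linter.unusedSectionVars false
set_option linter.unusedVariables false

namespace Pool.Agent.Jit

open Pool.Agent.PT81 Polynomial

noncomputable section

variable {E : Env} {α γ : Type} [Enc E α] [Enc E γ]

theorem poly_encode {f : γ → List BN} (hf : Poly E f) :
    Poly E (fun c => encodeNums ((f c).map BN.val)) := by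
  have h : Poly E (fun x : γ × BN => (Nat.bits x.2.val).map some ++ [none]) :=
    Poly.append (Poly.map (g := fun y : (γ × BN) × Bool => some y.2)
      (Poly.bits Poly.snd) (Poly.osome Poly.snd)) (Poly.const [none])
  refine (Poly.flatMap hf h).congr fun c => ?_
  rw [encodeNums, List.flatMap_map]

section

variable {φ : γ → Cnf} (hφ : Poly E φ)

theorem poly_vs : Poly E (fun φ : Cnf => vs φ) :=
  Poly.flatMap (g := fun x : Cnf × List (Bool × List Bool) => x.2.map Prod.snd) Poly.id
    (Poly.map (g := fun y : (Cnf × List (Bool × List Bool)) × (Bool × List Bool) => y.2.2)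
      Poly.snd (Poly.snd.comp Poly.snd))

theorem poly_nu : Poly E (fun φ : Cnf => (vs φ).length) := poly_vs.length

theorem poly_hh : Poly E (fun φ : Cnf => hh φ) :=
  Poly.add (Poly.add (Poly.const 1) poly_nu) (Poly.length Poly.id)

theorem poly_nn : Poly E (fun φ : Cnf => nn φ) :=
  Poly.succ (Poly.succ (Poly.mul (Poly.const 2) poly_hh))

theorem poly_bnn : Poly E (fun φ : Cnf => BN.mk (nn φ)) := Poly.ofUnary poly_nn

theorem prod_range (n : ℕ) : ((List.range n).map fun i => i + 1).prod = n.factorial := by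
  induction n with
  | zero => rfl
  | succ n ih =>
    rw [List.range_succ, List.map_append, List.prod_append, ih, Nat.factorial_succ]
    simp [mul_comm]

theorem poly_FF : Poly E (fun φ : Cnf => BN.mk (FF φ)) := by
  refine (Poly.bprod (f := fun φ : Cnf => (List.range (nn φ)).map fun i => BN.mk (i + 1))
    (Poly.map (g := fun x : Cnf × ℕ => BN.mk (x.2 + 1)) (Poly.range poly_nn)
      (Poly.ofUnary (Poly.succ Poly.snd)))).congr fun φ => ?_
  rw [FF, ← prod_range, List.map_map]
  rfl

theorem poly_FF2 : Poly E (fun φ : Cnf => BN.mk (FF φ ^ 2)) :=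
  (Poly.bmul poly_FF poly_FF).congr fun φ => by rw [sq]

theorem poly_pp : Poly E (fun x : Cnf × ℕ => BN.mk (pp x.1 x.2)) := by
  have hF : Poly E (fun x : Cnf × ℕ => BN.mk (FF x.1)) := poly_FF.comp Poly.fst
  have ha : Poly E (fun x : Cnf × ℕ => BN.mk (x.2 + 1)) := Poly.ofUnary (Poly.succ Poly.snd)
  refine (Poly.badd (Poly.bmul hF (Poly.badd (Poly.bmul (Poly.const (BN.mk 2)) hF) ha))
    (Poly.const (BN.mk 1))).congr fun x => ?_
  rw [pp, add_assoc (2 * FF x.1)]

theorem poly_MM : Poly E (fun φ : Cnf => BN.mk (MM φ)) := by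
  refine (Poly.bprod (f := fun φ : Cnf => (List.range (vs φ).length).map fun i =>
    BN.mk (pp φ i)) (Poly.map (g := fun x : Cnf × ℕ => BN.mk (pp x.1 x.2)) (Poly.range poly_nu)
      poly_pp)).congr fun φ => ?_
  rw [MM, List.map_map]
  rfl

theorem poly_UU : Poly E (fun φ : Cnf => BN.mk (UU φ)) := Poly.bmul poly_FF2 poly_MM

theorem poly_KK : Poly E (fun φ : Cnf => BN.mk (KK φ)) :=
  (Poly.bmul (Poly.bmul poly_bnn poly_bnn) poly_FF2).congr fun φ => by rw [KK, sq (nn φ)]

theorem poly_TT : Poly E (fun x : Cnf × ℕ => BN.mk (TT x.1 x.2)) :=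
  Poly.bmul (poly_KK.comp Poly.fst) (Poly.bdiv (poly_MM.comp Poly.fst) poly_pp)

theorem poly_idx : Poly E (fun x : Cnf × List Bool => idx x.1 x.2) :=
  Pool.Agent.IsoImp.Poly.findIdx
    (p := fun y : (Cnf × List Bool) × List Bool => decide (y.2 = y.1.2))
    (poly_vs.comp Poly.fst) (Poly.eq Poly.snd (Poly.snd.comp Poly.fst))

/-- Pairs of binary numbers. -/
def bp (w : ℕ × ℕ) : BN × BN := (BN.mk w.1, BN.mk w.2)

theorem poly_consP : Poly E (fun x : Cnf × ℕ => bp (consP x.1 x.2)) := by
  have hq : Poly E (fun x : Cnf × ℕ => BN.mk (nn x.1 / 4)) :=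
    Poly.ofUnary (Poly.div (poly_nn.comp Poly.fst) (Poly.const 4) (fun _ => by norm_num))
  exact Poly.pair (Poly.badd poly_TT (Poly.bmul hq (poly_MM.comp Poly.fst)))
    (Poly.const (BN.mk 0))

theorem poly_TTidx : Poly E (fun y : (Cnf × List (Bool × List Bool)) × (Bool × List Bool) =>
      BN.mk (TT y.1.1 (idx y.1.1 y.2.2))) := by
  have h1 : Poly E (fun y : (Cnf × List (Bool × List Bool)) × (Bool × List Bool) => y.1.1) :=
    Poly.fst.comp Poly.fst
  have h2 : Poly E (fun y : (Cnf × List (Bool × List Bool)) × (Bool × List Bool) => y.2.2) :=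
    Poly.snd.comp Poly.snd
  have h3 : Poly E (fun y : (Cnf × List (Bool × List Bool)) × (Bool × List Bool) =>
      (y.1.1, y.2.2)) := Poly.pair h1 h2
  have h4 : Poly E (fun y : (Cnf × List (Bool × List Bool)) × (Bool × List Bool) =>
      idx y.1.1 y.2.2) := Poly.comp (g := fun x : Cnf × List Bool => idx x.1 x.2)
    (f := fun y : (Cnf × List (Bool × List Bool)) × (Bool × List Bool) =>
      (y.1.1, y.2.2)) poly_idx h3
  have h5 : Poly E (fun y : (Cnf × List (Bool × List Bool)) × (Bool × List Bool) =>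
      (y.1.1, idx y.1.1 y.2.2)) := Poly.pair h1 h4
  exact Poly.comp (g := fun x : Cnf × ℕ => BN.mk (TT x.1 x.2))
    (f := fun y : (Cnf × List (Bool × List Bool)) × (Bool × List Bool) =>
      (y.1.1, idx y.1.1 y.2.2)) poly_TT h5

theorem poly_clauseP : Poly E (fun x : Cnf × List (Bool × List Bool) => bp (clauseP x.1 x.2)) := by
  have hT : Poly E (fun y : (Cnf × List (Bool × List Bool)) × (Bool × List Bool) =>
      BN.mk (TT y.1.1 (idx y.1.1 y.2.2))) :=
    poly_TTidx
  have hH1 : Poly E (fun x : Cnf × List (Bool × List Bool) => hh x.1 + 1) :=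
    Poly.succ (poly_hh.comp Poly.fst)
  have hH2 : Poly E (fun x : Cnf × List (Bool × List Bool) => BN.mk (MM x.1)) :=
    poly_MM.comp Poly.fst
  have hH : Poly E (fun x : Cnf × List (Bool × List Bool) =>
      BN.mk ((hh x.1 + 1) * MM x.1)) :=
    Poly.bmul (f := fun x : Cnf × List (Bool × List Bool) => BN.mk (hh x.1 + 1))
      (g := fun x : Cnf × List (Bool × List Bool) => BN.mk (MM x.1)) (Poly.ofUnary hH1) hH2
  have hb : Poly E (fun y : (Cnf × List (Bool × List Bool)) × (Bool × List Bool) => y.2.1) :=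
    Poly.fst.comp Poly.snd
  have h1 : Poly E (fun x : Cnf × List (Bool × List Bool) =>
      BN.mk (x.2.map fun l => if l.1 then 0 else TT x.1 (idx x.1 l.2) +
        (hh x.1 + 1) * MM x.1).sum) := by
    refine (Poly.bsum (f := fun x : Cnf × List (Bool × List Bool) => x.2.map fun l =>
      if l.1 then BN.mk 0 else BN.mk (TT x.1 (idx x.1 l.2) + (hh x.1 + 1) * MM x.1))
      (Poly.map (g := fun y : (Cnf × List (Bool × List Bool)) × (Bool × List Bool) =>
        if y.2.1 then BN.mk 0 else BN.mk (TT y.1.1 (idx y.1.1 y.2.2) +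
          (hh y.1.1 + 1) * MM y.1.1)) Poly.snd
        (Poly.ite hb (Poly.const _) (Poly.badd hT (hH.comp Poly.fst))))).congr fun x => ?_
    rw [List.map_map]
    congr 2
    refine List.map_congr_left fun l _ => ?_
    simp only [Function.comp]
    cases l.1 <;> rfl
  have h2 : Poly E (fun x : Cnf × List (Bool × List Bool) =>
      BN.mk (x.2.map fun l => if l.1 then TT x.1 (idx x.1 l.2) else 0).sum) := by
    refine (Poly.bsum (f := fun x : Cnf × List (Bool × List Bool) => x.2.map fun l =>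
      if l.1 then BN.mk (TT x.1 (idx x.1 l.2)) else BN.mk 0)
      (Poly.map (g := fun y : (Cnf × List (Bool × List Bool)) × (Bool × List Bool) =>
        if y.2.1 then BN.mk (TT y.1.1 (idx y.1.1 y.2.2)) else BN.mk 0) Poly.snd
        (Poly.ite hb hT (Poly.const _)))).congr fun x => ?_
    rw [List.map_map]
    congr 2
    refine List.map_congr_left fun l _ => ?_
    simp only [Function.comp]
    cases l.1 <;> rfl
  refine (Poly.pair h1 (Poly.badd h2 (Poly.bmul (Poly.const (BN.mk 2)) hH))).congr fun x => ?_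
  rw [bp, clauseP, mul_assoc]

theorem poly_LL : Poly E (fun φ : Cnf => (LL φ).map bp) := by
  have h1 : Poly E (fun φ : Cnf => bp (MM φ, 0)) := Poly.pair poly_MM (Poly.const (BN.mk 0))
  have h2 : Poly E (fun φ : Cnf => (List.range (vs φ).length).map fun a => bp (consP φ a)) :=
    Poly.map (g := fun x : Cnf × ℕ => bp (consP x.1 x.2)) (Poly.range poly_nu) poly_consP
  have h3 : Poly E (fun φ : Cnf => φ.map fun c => bp (clauseP φ c)) :=
    Poly.map (g := fun x : Cnf × List (Bool × List Bool) => bp (clauseP x.1 x.2)) Poly.id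
      poly_clauseP
  refine (Poly.cons h1 (Poly.append h2 h3)).congr fun φ => ?_
  rw [LL, List.map_cons, List.map_append, List.map_map, List.map_map]
  rfl

theorem poly_inst : Poly E (fun φ : Cnf => (instOf φ).map BN.mk) := by
  have hA : Poly E (fun φ : Cnf => BN.mk ((nn φ - 1) * UU φ)) :=
    Poly.bmul (Poly.ofUnary (Poly.sub poly_nn (Poly.const 1))) poly_UU
  have hA' : Poly E (fun φ : Cnf => BN.mk ((2 * nn φ - 1) * UU φ)) :=
    Poly.bmul (Poly.ofUnary (Poly.sub (Poly.mul (Poly.const 2) poly_nn) (Poly.const 1))) poly_UU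
  have h1 : Poly E (fun y : Cnf × (BN × BN) => y.2.1) := Poly.fst.comp Poly.snd
  have h2 : Poly E (fun y : Cnf × (BN × BN) => y.2.2) := Poly.snd.comp Poly.snd
  have h3 : Poly E (fun φ : Cnf => ((LL φ).map bp).flatMap fun w =>
      [BN.mk ((nn φ - 1) * UU φ + w.1.val - w.2.val),
        BN.mk ((nn φ - 1) * UU φ + w.2.val - w.1.val)]) := by
    refine Poly.flatMap (g := fun y : Cnf × (BN × BN) =>
      [BN.mk ((nn y.1 - 1) * UU y.1 + y.2.1.val - y.2.2.val),
        BN.mk ((nn y.1 - 1) * UU y.1 + y.2.2.val - y.2.1.val)]) poly_LL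
      (Poly.cons (Poly.bsub (Poly.badd (hA.comp Poly.fst) h1) h2)
        (Poly.cons (Poly.bsub (Poly.badd (hA.comp Poly.fst) h2) h1) (Poly.const [])))
  refine (Poly.cons hA' (Poly.cons hA h3)).congr fun φ => ?_
  rw [instOf, inst, List.map_cons, List.map_cons, List.flatMap_map, List.map_flatMap]
  rfl

/-- The string of the instance of a formula. -/
def redStr (φ : Cnf) : List (Option Bool) :=
  encodeNums ((8 * nn φ * FF φ ^ 2 - 8 * FF φ ^ 2 - 5 * nn φ) :: (8 * nn φ * FF φ ^ 2) :: instOf φ)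

theorem poly_redStr : Poly E (fun φ : Cnf => redStr φ) := by
  have h8 : Poly E (fun φ : Cnf => BN.mk (8 * FF φ ^ 2)) :=
    Poly.bmul (Poly.const (BN.mk 8)) poly_FF2
  have hq : Poly E (fun φ : Cnf => BN.mk (8 * nn φ * FF φ ^ 2)) :=
    Poly.bmul (Poly.ofUnary (Poly.mul (Poly.const 8) poly_nn)) poly_FF2
  have h5 : Poly E (fun φ : Cnf => BN.mk (5 * nn φ)) :=
    Poly.ofUnary (Poly.mul (Poly.const 5) poly_nn)
  refine (poly_encode (Poly.cons (Poly.bsub (Poly.bsub hq h8) h5)
    (Poly.cons hq poly_inst))).congr fun φ => ?_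
  rw [redStr, List.map_cons, List.map_cons, List.map_map]
  have : BN.val ∘ BN.mk = id := rfl
  rw [this, List.map_id]

end

end

end Pool.Agent.Jit
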