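import Pool.Agent.Lib_MP_cedc2d_lc.Arith

/-!
# Satisfiable formulas are exactly those with infeasible instances
-/

namespace Pool.Agent.Jit

theorem sum_lower {α : Type} (f : α → ℚ) (b : ℚ) : ∀ c : List α, (∀ l ∈ c, b ≤ f l) →
    c.length * b ≤ (c.map f).sum := by
  intro c
  induction c with
  | nil => intro _; simp
  | cons l c ih =>
    intro h
    have h1 := h l (by simp)
    have h2 := ih fun l hl => h l (List.mem_cons_of_mem _ hl)
    simp only [List.length_cons, List.map_cons, List.sum_cons]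
    push_cast
    linarith

theorem sum_nonpos {α : Type} (f : α → ℚ) : ∀ c : List α, (∀ l ∈ c, f l ≤ 0) →
    (c.map f).sum ≤ 0 := by
  intro c
  induction c with
  | nil => intro _; simp
  | cons l c ih =>
    intro h
    have h1 := h l (by simp)
    have h2 := ih fun l hl => h l (List.mem_cons_of_mem _ hl)
    simp only [List.map_cons, List.sum_cons]
    linarith

theorem sum_upper {α : Type} (f : α → ℚ) : ∀ c : List α, (∀ l ∈ c, f l ≤ 0) → ∀ l ∈ c,
    (c.map f).sum ≤ f l := by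
  intro c
  induction c with
  | nil => intro _ l hl; simp at hl
  | cons a c ih =>
    intro h l hl
    have h1 := h a (by simp)
    have h2 : ∀ l ∈ c, f l ≤ 0 := fun l hl => h l (List.mem_cons_of_mem _ hl)
    simp only [List.map_cons, List.sum_cons]
    rcases List.mem_cons.1 hl with rfl | hl
    · have := sum_nonpos f c h2
      linarith
    · have := ih h2 l hl
      linarith

section

variable {φ : Cnf}

/-- The reciprocal of the square of the factorial. -/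
noncomputable def xx (φ : Cnf) : ℚ := 1 / (FF φ : ℚ) ^ 2

theorem FFq_pos : (0 : ℚ) < FF φ := by exact_mod_cast FF_pos (φ := φ)
theorem MMq_pos : (0 : ℚ) < MM φ := by exact_mod_cast MM_pos (φ := φ)
theorem four_leq : (4 : ℚ) ≤ nn φ := by exact_mod_cast four_le (φ := φ)
theorem xx_pos : 0 < xx φ := by
  have := FFq_pos (φ := φ)
  rw [xx]; positivity

theorem xx_le : xx φ ≤ 1 / 576 := by
  have h1 := FF_six (φ := φ)
  have h2 := four_le (φ := φ)
  have h3 : (24 : ℚ) ≤ FF φ := by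
    have : 24 ≤ FF φ := by omega
    exact_mod_cast this
  rw [xx]
  apply one_div_le_one_div_of_le (by norm_num)
  nlinarith

theorem KKq : (KK φ : ℚ) = (nn φ : ℚ) ^ 2 / xx φ := by
  rw [KK, xx]
  push_cast
  field_simp

theorem KKq_pos : (0 : ℚ) < KK φ := by
  have h1 := four_leq (φ := φ)
  have h2 := xx_pos (φ := φ)
  rw [KKq]
  positivity

theorem den_eq : (nn φ : ℚ) ^ 2 * UU φ = KK φ * MM φ := by
  rw [UU, KK]
  push_cast
  ring

theorem inv_pp_le (a : ℕ) : 1 / (pp φ a : ℚ) ≤ xx φ / 2 := by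
  have h1 : (2 * (FF φ : ℚ) ^ 2) ≤ pp φ a := by exact_mod_cast le_pp (φ := φ) a
  have h2 := FFq_pos (φ := φ)
  have h3 : xx φ / 2 = 1 / (2 * (FF φ : ℚ) ^ 2) := by rw [xx]; field_simp
  rw [h3]
  exact one_div_le_one_div_of_le (by positivity) h1

theorem le_inv_pp {a : ℕ} (ha : a < (vs φ).length) : 12 * xx φ / 25 ≤ 1 / (pp φ a : ℚ) := by
  have h1 : 12 * (pp φ a : ℚ) ≤ 25 * (FF φ : ℚ) ^ 2 := by exact_mod_cast pp_le (φ := φ) ha
  have h2 := FFq_pos (φ := φ)
  have h3 : (0 : ℚ) < pp φ a := by exact_mod_cast pp_pos (φ := φ) a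
  have h4 : 12 * xx φ / 25 = 12 / (25 * (FF φ : ℚ) ^ 2) := by rw [xx]; field_simp
  rw [h4, div_le_div_iff₀ (by positivity) h3]
  linarith

theorem TTq {a : ℕ} (ha : a < (vs φ).length) : (TT φ a : ℚ) = KK φ * MM φ / pp φ a := by
  have h3 : (pp φ a : ℚ) ≠ 0 := by exact_mod_cast (pp_pos (φ := φ) a).ne'
  rw [TT, Nat.cast_mul, Nat.cast_div (pp_dvd ha) h3]
  ring

/-- The quarter of the number of items. -/
theorem quarter : (nn φ : ℚ) / 6 ≤ ((nn φ / 4 : ℕ) : ℚ) ∧ ((nn φ / 4 : ℕ) : ℚ) ≤ (nn φ : ℚ) / 4 := by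
  have h1 := four_le (φ := φ)
  have h2 : nn φ = 2 * hh φ + 2 := rfl
  have h3 : nn φ ≤ 6 * (nn φ / 4) := by omega
  have h4 : 4 * (nn φ / 4) ≤ nn φ := by omega
  have h5 : (nn φ : ℚ) ≤ 6 * ((nn φ / 4 : ℕ) : ℚ) := by exact_mod_cast h3
  have h6 : 4 * ((nn φ / 4 : ℕ) : ℚ) ≤ (nn φ : ℚ) := by exact_mod_cast h4
  constructor <;> linarith

theorem frac_B : ((MM φ : ℚ) - ((0 : ℕ) : ℚ)) / ((nn φ : ℚ) ^ 2 * UU φ) = xx φ / (nn φ : ℚ) ^ 2 := by
  have h1 := MMq_pos (φ := φ)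
  have h2 := xx_pos (φ := φ)
  have h3 := four_leq (φ := φ)
  have h4 : (nn φ : ℚ) ≠ 0 := by linarith
  rw [den_eq, KKq, Nat.cast_zero, sub_zero]
  field_simp

theorem frac_cons {a : ℕ} (ha : a < (vs φ).length) :
    (((consP φ a).1 : ℚ) - (consP φ a).2) / ((nn φ : ℚ) ^ 2 * UU φ) =
      1 / pp φ a + ((nn φ / 4 : ℕ) : ℚ) * (xx φ / (nn φ : ℚ) ^ 2) := by
  have h1 := MMq_pos (φ := φ)
  have h2 := xx_pos (φ := φ)
  have h3 := four_leq (φ := φ)
  have h4 : (nn φ : ℚ) ≠ 0 := by linarith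
  have h5 : (pp φ a : ℚ) ≠ 0 := by exact_mod_cast (pp_pos (φ := φ) a).ne'
  have h6 := KKq_pos (φ := φ)
  simp only [consP]
  rw [den_eq, Nat.cast_zero, sub_zero, Nat.cast_add, Nat.cast_mul, TTq ha]
  have h7 : xx φ / (nn φ : ℚ) ^ 2 = 1 / KK φ := by
    rw [KKq]; field_simp
  rw [h7]
  field_simp

/-- The value of `z`. -/
theorem z_eq {z k : ℤ} (hd : (nn φ : ℤ) ^ 2 ∣ z + nn φ)
    (h : |(z : ℚ) * (xx φ / (nn φ : ℚ) ^ 2) - k| < 5 * xx φ / 8) : z = k * KK φ - nn φ := by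
  have h2 := xx_pos (φ := φ)
  have h3 := four_leq (φ := φ)
  have h4 : (0 : ℚ) < nn φ := by linarith
  have hK := KKq (φ := φ)
  have h5 : |(z : ℚ) - k * KK φ| < 5 * (nn φ : ℚ) ^ 2 / 8 := by
    have e1 : (z : ℚ) - k * KK φ =
        ((z : ℚ) * (xx φ / (nn φ : ℚ) ^ 2) - k) * ((nn φ : ℚ) ^ 2 / xx φ) := by
      rw [hK]; field_simp
    rw [e1, abs_mul, abs_of_pos (show (0 : ℚ) < (nn φ : ℚ) ^ 2 / xx φ by positivity)]
    have e2 : 5 * (nn φ : ℚ) ^ 2 / 8 = (5 * xx φ / 8) * ((nn φ : ℚ) ^ 2 / xx φ) := by field_simp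
    rw [e2]
    exact mul_lt_mul_of_pos_right h (by positivity)
  have h6 : (nn φ : ℤ) ^ 2 ∣ (z - k * KK φ) + nn φ := by
    have h7 : (nn φ : ℤ) ^ 2 ∣ k * (KK φ : ℤ) := by
      refine Dvd.dvd.mul_left ?_ k
      rw [KK]
      push_cast
      exact dvd_mul_right _ _
    have : (z - k * KK φ) + nn φ = (z + nn φ) - k * (KK φ : ℤ) := by ring
    rw [this]
    exact dvd_sub hd h7
  obtain ⟨t, ht⟩ := h6
  set d := z - k * (KK φ : ℤ) with hdef
  have hdq : ((d : ℤ) : ℚ) = (z : ℚ) - k * KK φ := by rw [hdef]; push_cast; ring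
  rw [← hdq] at h5
  have ht' : d = nn φ ^ 2 * t - nn φ := by linarith
  have hN : (4 : ℤ) ≤ nn φ := by exact_mod_cast four_le (φ := φ)
  have h8 : 8 * |d| < 5 * (nn φ : ℤ) ^ 2 := by
    have : 8 * |((d : ℤ) : ℚ)| < 5 * (nn φ : ℚ) ^ 2 := by linarith
    exact_mod_cast this
  have h9 : t = 0 := by
    by_contra h0
    rcases lt_or_gt_of_ne h0 with h0 | h0
    · have h10 : t ≤ -1 := by omega
      have h11 : d ≤ -((nn φ : ℤ) ^ 2) - nn φ := by
        rw [ht']
        nlinarith [pow_pos (show (0 : ℤ) < nn φ by linarith) 2]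
      have h12 : (nn φ : ℤ) ^ 2 ≤ |d| := by
        rw [abs_of_nonpos (by nlinarith)]
        linarith
      nlinarith [pow_pos (show (0 : ℤ) < nn φ by linarith) 2]
    · have h10 : 1 ≤ t := by omega
      have h11 : (nn φ : ℤ) ^ 2 - nn φ ≤ d := by
        rw [ht']
        nlinarith [pow_pos (show (0 : ℤ) < nn φ by linarith) 2]
      have h12 : (nn φ : ℤ) ^ 2 - nn φ ≤ |d| := h11.trans (le_abs_self d)
      nlinarith
  rw [h9] at ht'
  have : z = k * (KK φ : ℤ) + d := by rw [hdef]; ring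
  rw [this, ht']
  ring

/-- The products with `x / n ^ 2` of a number `z = k K - n`. -/
theorem z_mul {z k : ℤ} (hz : z = k * KK φ - nn φ) (q : ℚ) :
    (z : ℚ) * (q * (xx φ / (nn φ : ℚ) ^ 2)) = k * q - q * xx φ / nn φ := by
  have h2 := xx_pos (φ := φ)
  have h3 := four_leq (φ := φ)
  have h4 : (0 : ℚ) < nn φ := by linarith
  have h5 : (z : ℚ) = k * ((nn φ : ℚ) ^ 2 / xx φ) - nn φ := by
    rw [← KKq, hz]
    push_cast
    ring
  rw [h5]
  field_simp

/-- The residues modulo the primes are `0` or `1`. -/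
theorem resid {z k : ℤ} (hz : z = k * KK φ - nn φ) {a : ℕ} (ha : a < (vs φ).length) :
    (∃ k : ℤ, |(z : ℚ) * (1 / pp φ a + ((nn φ / 4 : ℕ) : ℚ) * (xx φ / (nn φ : ℚ) ^ 2)) - k| <
      5 * xx φ / 8) ↔ ∃ ρ k' : ℤ, (ρ = 0 ∨ ρ = 1) ∧ z = ρ + k' * pp φ a := by
  have h2 := xx_pos (φ := φ)
  have h3 := four_leq (φ := φ)
  have h4 : (0 : ℚ) < nn φ := by linarith
  have hp : (0 : ℚ) < pp φ a := by exact_mod_cast pp_pos (φ := φ) a
  obtain ⟨q1, q2⟩ := quarter (φ := φ)
  have p1 := inv_pp_le (φ := φ) a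
  have p2 := le_inv_pp (φ := φ) ha
  have e0 : (z : ℚ) * (1 / pp φ a + ((nn φ / 4 : ℕ) : ℚ) * (xx φ / (nn φ : ℚ) ^ 2)) =
      z * (1 / pp φ a) + (k * ((nn φ / 4 : ℕ) : ℚ) - ((nn φ / 4 : ℕ) : ℚ) * xx φ / nn φ) := by
    rw [mul_add, z_mul hz]
  rw [e0]
  clear e0
  generalize nn φ / 4 = Q at *
  set q : ℚ := (Q : ℚ) with hq
  set y : ℚ := q * xx φ / nn φ with hy
  have y1 : xx φ / 6 ≤ y := by
    rw [hy, le_div_iff₀ h4]
    nlinarith
  have y2 : y ≤ xx φ / 4 := by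
    rw [hy, div_le_iff₀ h4]
    nlinarith
  constructor
  · rintro ⟨j, hj⟩
    set k' : ℤ := j - k * (Q : ℤ) with hk'
    refine ⟨z - k' * pp φ a, k', ?_, by ring⟩
    have h5 : |(z : ℚ) * (1 / pp φ a) - y - k'| < 5 * xx φ / 8 := by
      rw [hk']
      push_cast
      have : (z : ℚ) * (1 / pp φ a) - y - (j - k * (Q : ℚ)) =
        z * (1 / pp φ a) + (k * q - y) - j := by rw [hq]; ring
      rw [this]
      exact hj
    obtain ⟨h6, h7⟩ := abs_lt.1 h5
    set ρ : ℚ := ((z - k' * pp φ a : ℤ) : ℚ) with hρ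
    have h8 : ρ * (1 / pp φ a) = (z : ℚ) * (1 / pp φ a) - k' := by
      rw [hρ]
      push_cast
      field_simp
    have h9 : ρ * (1 / pp φ a) < 7 * xx φ / 8 := by linarith
    have h10 : -(11 * xx φ / 24) < ρ * (1 / pp φ a) := by linarith
    have h11 : ρ < 2 := by
      by_contra h
      push Not at h
      have := mul_le_mul_of_nonneg_right h (show (0 : ℚ) ≤ 1 / pp φ a by positivity)
      linarith
    have h12 : -1 < ρ := by
      by_contra h
      push Not at h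
      have := mul_le_mul_of_nonneg_right h (show (0 : ℚ) ≤ 1 / pp φ a by positivity)
      linarith
    rw [hρ] at h11 h12
    have h13 : (z - k' * pp φ a : ℤ) < 2 := by exact_mod_cast h11
    have h14 : -1 < (z - k' * pp φ a : ℤ) := by exact_mod_cast h12
    omega
  · rintro ⟨ρ, k', hρ, hz'⟩
    refine ⟨k' + k * (Q : ℤ), ?_⟩
    have h5 : (z : ℚ) * (1 / pp φ a) = ρ * (1 / pp φ a) + k' := by
      rw [hz']
      push_cast
      field_simp
    have h6 : (z : ℚ) * (1 / pp φ a) + (k * q - y) - ((k' + k * (Q : ℤ) : ℤ) : ℚ) =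
        ρ * (1 / pp φ a) - y := by
      rw [h5]
      push_cast
      rw [hq]
      ring
    rw [h6, abs_lt]
    rcases hρ with rfl | rfl
    · push_cast
      constructor <;> linarith
    · push_cast
      constructor <;> linarith

/-- The contribution of a literal. -/
noncomputable def xl (φ : Cnf) (ρ : ℕ → ℤ) (l : Bool × List Bool) : ℚ :=
  if l.1 then -((ρ (idx φ l.2) : ℚ) * (1 / pp φ (idx φ l.2)))
  else (ρ (idx φ l.2) : ℚ) * (1 / pp φ (idx φ l.2)) - xx φ / 2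

theorem clause_sum {z k : ℤ} (hz : z = k * KK φ - nn φ) {ρ : ℕ → ℤ} {k' : ℕ → ℤ}
    (hρ : ∀ a < (vs φ).length, z = ρ a + k' a * pp φ a) :
    ∀ c : List (Bool × List Bool), (∀ l ∈ c, idx φ l.2 < (vs φ).length) → ∃ m : ℤ,
      (z : ℚ) * (((((c.map fun l => if l.1 then 0 else TT φ (idx φ l.2) +
        (hh φ + 1) * MM φ).sum : ℕ) : ℚ) - (((c.map fun l => if l.1 then TT φ (idx φ l.2)
        else 0).sum : ℕ) : ℚ)) / ((nn φ : ℚ) ^ 2 * UU φ)) = (c.map (xl φ ρ)).sum + m := by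
  have hK0 := KKq_pos (φ := φ)
  have hM0 := MMq_pos (φ := φ)
  have h2 := xx_pos (φ := φ)
  have h3 := four_leq (φ := φ)
  have h4 : (0 : ℚ) < nn φ := by linarith
  have h7 : xx φ / (nn φ : ℚ) ^ 2 = 1 / KK φ := by
    rw [KKq]; field_simp
  have hzp : ∀ a < (vs φ).length, (z : ℚ) * (1 / pp φ a) = ρ a * (1 / pp φ a) + k' a := by
    intro a ha
    have hp : (0 : ℚ) < pp φ a := by exact_mod_cast pp_pos (φ := φ) a
    have h5 : (z : ℚ) = ρ a + k' a * pp φ a := by exact_mod_cast hρ a ha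
    rw [h5]
    field_simp
  have hhalf : (2 : ℚ) * (hh φ + 1) = nn φ := by
    rw [nn]; push_cast; ring
  intro c
  induction c with
  | nil => intro _; exact ⟨0, by simp⟩
  | cons l c ih =>
    intro h
    obtain ⟨m, hm⟩ := ih fun l hl => h l (List.mem_cons_of_mem _ hl)
    have hl := h l (by simp)
    simp only [List.map_cons, List.sum_cons, Nat.cast_add]
    have key : ∃ m' : ℤ, (z : ℚ) * ((((if l.1 then 0 else TT φ (idx φ l.2) +
        (hh φ + 1) * MM φ : ℕ) : ℚ) - ((if l.1 then TT φ (idx φ l.2) else 0 : ℕ) : ℚ)) /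
        ((nn φ : ℚ) ^ 2 * UU φ)) = xl φ ρ l + m' := by
      rw [xl]
      have hzl := hzp _ hl
      have hp : (0 : ℚ) < pp φ (idx φ l.2) := by exact_mod_cast pp_pos (φ := φ) (idx φ l.2)
      cases l.1
      · simp only [Bool.false_eq_true, if_false]
        refine ⟨k' (idx φ l.2) + k * (hh φ + 1), ?_⟩
        have e1 : ((((TT φ (idx φ l.2) + (hh φ + 1) * MM φ : ℕ) : ℚ) - ((0 : ℕ) : ℚ)) /
            ((nn φ : ℚ) ^ 2 * UU φ)) = 1 / pp φ (idx φ l.2) +
            (hh φ + 1) * (xx φ / (nn φ : ℚ) ^ 2) := by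
          rw [den_eq, h7, Nat.cast_zero, sub_zero, Nat.cast_add, Nat.cast_mul, TTq hl]
          push_cast
          field_simp
        rw [e1, mul_add, hzl, z_mul hz]
        have e2 : ((hh φ : ℚ) + 1) * xx φ / nn φ = xx φ / 2 := by
          rw [← hhalf]
          have : (hh φ : ℚ) + 1 ≠ 0 := by positivity
          field_simp
        rw [e2]
        push_cast
        ring
      · simp only [if_true]
        refine ⟨-k' (idx φ l.2), ?_⟩
        have e1 : (((0 : ℕ) : ℚ) - ((TT φ (idx φ l.2) : ℕ) : ℚ)) /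
            ((nn φ : ℚ) ^ 2 * UU φ) = -(1 / pp φ (idx φ l.2)) := by
          rw [den_eq, Nat.cast_zero, zero_sub, TTq hl]
          field_simp
        rw [e1, mul_neg, hzl]
        push_cast
        ring
    obtain ⟨m', hm'⟩ := key
    refine ⟨m' + m, ?_⟩
    rw [add_sub_add_comm, add_div, mul_add, hm, hm']
    push_cast
    ring

/-- The value of a clause. -/
theorem clause_val {z k : ℤ} (hz : z = k * KK φ - nn φ) {ρ : ℕ → ℤ} {k' : ℕ → ℤ}
    (hρ : ∀ a < (vs φ).length, z = ρ a + k' a * pp φ a) (c : List (Bool × List Bool))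
    (hc : ∀ l ∈ c, idx φ l.2 < (vs φ).length) : ∃ m : ℤ,
      (z : ℚ) * ((((clauseP φ c).1 : ℚ) - (clauseP φ c).2) / ((nn φ : ℚ) ^ 2 * UU φ)) =
        (xx φ + (c.map (xl φ ρ)).sum) + m := by
  obtain ⟨m, hm⟩ := clause_sum hz hρ c hc
  have hK0 := KKq_pos (φ := φ)
  have hM0 := MMq_pos (φ := φ)
  have h2 := xx_pos (φ := φ)
  have h3 := four_leq (φ := φ)
  have h4 : (0 : ℚ) < nn φ := by linarith
  have hhalf : (2 : ℚ) * (hh φ + 1) = nn φ := by
    rw [nn]; push_cast; ring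
  refine ⟨m - k * nn φ, ?_⟩
  simp only [clauseP]
  rw [Nat.cast_add, ← sub_sub, sub_div, mul_sub, hm]
  have h7 : xx φ / (nn φ : ℚ) ^ 2 = 1 / KK φ := by
    rw [KKq]; field_simp
  have e1 : (((2 * (hh φ + 1) * MM φ : ℕ) : ℚ)) / ((nn φ : ℚ) ^ 2 * UU φ) =
      nn φ * (xx φ / (nn φ : ℚ) ^ 2) := by
    rw [den_eq, h7, ← hhalf]
    push_cast
    field_simp
  rw [e1, z_mul hz]
  have e2 : (nn φ : ℚ) * xx φ / nn φ = xx φ := by field_simp
  rw [e2]
  push_cast
  ring

/-- Bounds for the contribution of a literal. -/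
theorem xl_bounds {ρ : ℕ → ℤ} (hρ : ∀ a, ρ a = 0 ∨ ρ a = 1) {l : Bool × List Bool}
    (hl : idx φ l.2 < (vs φ).length) {A : List Bool → Bool}
    (hA : A l.2 = true ↔ ρ (idx φ l.2) = 1) :
    -(xx φ / 2) ≤ xl φ ρ l ∧ xl φ ρ l ≤ 0 ∧ (A l.2 = l.1 → xl φ ρ l ≤ -(xx φ / 2) + xx φ / 48) ∧
      (A l.2 ≠ l.1 → -(xx φ / 48) ≤ xl φ ρ l) := by
  have h2 := xx_pos (φ := φ)
  have p1 := inv_pp_le (φ := φ) (idx φ l.2)
  have p2 := le_inv_pp (φ := φ) hl
  rw [xl]
  rcases hρ (idx φ l.2) with h0 | h0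
  · have hA' : A l.2 = false := by
      rw [h0] at hA
      simpa using hA
    rw [h0, hA']
    cases l.1
    · simp only [Bool.false_eq_true, if_false, Int.cast_zero, zero_mul, zero_sub]
      refine ⟨le_rfl, by linarith, fun _ => by linarith, fun h => absurd rfl h⟩
    · simp only [if_true, Int.cast_zero, zero_mul, neg_zero]
      exact ⟨by linarith, le_rfl, fun h => by simp at h, fun _ => by linarith⟩
  · have hA' : A l.2 = true := hA.2 h0
    rw [h0, hA']
    cases l.1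
    · simp only [Bool.false_eq_true, if_false, Int.cast_one, one_mul]
      refine ⟨by linarith, by linarith, fun h => by simp at h, fun _ => by linarith⟩
    · simp only [if_true, Int.cast_one, one_mul]
      refine ⟨by linarith, by linarith, fun _ => by linarith, fun h => absurd rfl h⟩

/-- A clause is satisfied iff its value is small. -/
theorem clause_iff {z k : ℤ} (hz : z = k * KK φ - nn φ) {ρ : ℕ → ℤ} {k' : ℕ → ℤ}
    (hρ0 : ∀ a, ρ a = 0 ∨ ρ a = 1)
    (hρ : ∀ a < (vs φ).length, z = ρ a + k' a * pp φ a) {c : List (Bool × List Bool)}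
    (h3 : c.length ≤ 3) (hc : ∀ l ∈ c, idx φ l.2 < (vs φ).length) {A : List Bool → Bool}
    (hA : ∀ l ∈ c, (A l.2 = true ↔ ρ (idx φ l.2) = 1)) :
    (∃ j : ℤ, |(z : ℚ) * ((((clauseP φ c).1 : ℚ) - (clauseP φ c).2) /
      ((nn φ : ℚ) ^ 2 * UU φ)) - j| < 5 * xx φ / 8) ↔ ∃ l ∈ c, A l.2 = l.1 := by
  obtain ⟨m, hm⟩ := clause_val hz hρ c hc
  have h2 := xx_pos (φ := φ)
  have h2' := xx_le (φ := φ)
  have hb := fun l (hl : l ∈ c) => xl_bounds hρ0 (hc l hl) (hA l hl)
  have hlen : (c.length : ℚ) ≤ 3 := by exact_mod_cast h3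
  have hlo := sum_lower (xl φ ρ) (-(xx φ / 2)) c (fun l hl => (hb l hl).1)
  have hup := sum_nonpos (xl φ ρ) c (fun l hl => (hb l hl).2.1)
  have hlo' : -(3 * (xx φ / 2)) ≤ (c.map (xl φ ρ)).sum := by
    refine le_trans ?_ hlo
    nlinarith
  rw [hm]
  constructor
  · rintro ⟨j, hj⟩
    by_contra hcon
    push Not at hcon
    have hlo2 := sum_lower (xl φ ρ) (-(xx φ / 48)) c (fun l hl => (hb l hl).2.2.2 (hcon l hl))
    have hlo3 : -(3 * (xx φ / 48)) ≤ (c.map (xl φ ρ)).sum := by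
      refine le_trans ?_ hlo2
      nlinarith
    set X := xx φ + (c.map (xl φ ρ)).sum with hX
    have h5 : X + m - j = X + ((m - j : ℤ) : ℚ) := by push_cast; ring
    rw [h5] at hj
    obtain ⟨h6, h7⟩ := abs_lt.1 hj
    have h8 : ((m - j : ℤ) : ℚ) < 1 := by linarith
    have h9 : (-1 : ℚ) < ((m - j : ℤ) : ℚ) := by linarith
    have h10 : m - j < 1 := by exact_mod_cast h8
    have h11 : -1 < m - j := by exact_mod_cast h9
    have h12 : m - j = 0 := by omega
    rw [h12] at h7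
    push_cast at h7
    linarith
  · rintro ⟨l, hl, hAl⟩
    have h6 := sum_upper (xl φ ρ) c (fun l hl => (hb l hl).2.1) l hl
    have h7 := (hb l hl).2.2.1 hAl
    refine ⟨m, ?_⟩
    rw [add_sub_cancel_right, abs_lt]
    constructor <;> linarith

/-- **Correctness of the arithmetic.** -/
theorem sat_iff (h3 : ∀ c ∈ φ, c.length ≤ 3) :
    (∃ z : ℤ, (nn φ : ℤ) ^ 2 ∣ z + nn φ ∧ ∀ w ∈ LL φ, ∃ k : ℤ,
      |(z : ℚ) * (((w.1 : ℚ) - w.2) / ((nn φ : ℚ) ^ 2 * UU φ)) - k| < 5 * xx φ / 8) ↔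
    ∃ A : List Bool → Bool, ∀ c ∈ φ, ∃ l ∈ c, A l.2 = l.1 := by
  classical
  constructor
  · rintro ⟨z, hd, hz⟩
    obtain ⟨k, hk⟩ := hz (MM φ, 0) (by rw [LL]; exact List.mem_cons_self)
    rw [frac_B] at hk
    have hzk := z_eq hd hk
    have hres : ∀ a < (vs φ).length, ∃ ρ k' : ℤ, (ρ = 0 ∨ ρ = 1) ∧ z = ρ + k' * pp φ a := by
      intro a ha
      have h1 := hz (consP φ a) (by
        rw [LL]
        refine List.mem_cons_of_mem _ (List.mem_append_left _ (List.mem_map.2 ⟨a, ?_, rfl⟩))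
        exact List.mem_range.2 ha)
      rw [frac_cons ha] at h1
      exact (resid hzk ha).1 h1
    have hres' : ∀ a, ∃ ρ k' : ℤ, (ρ = 0 ∨ ρ = 1) ∧
        (a < (vs φ).length → z = ρ + k' * pp φ a) := by
      intro a
      by_cases ha : a < (vs φ).length
      · obtain ⟨ρ, k', h1, h2⟩ := hres a ha
        exact ⟨ρ, k', h1, fun _ => h2⟩
      · exact ⟨0, 0, Or.inl rfl, fun h => absurd h ha⟩
    choose ρ k' hρ0 hρ using hres'
    refine ⟨fun x => decide (ρ (idx φ x) = 1), fun c hc => ?_⟩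
    have h1 := hz (clauseP φ c) (by
      rw [LL]
      exact List.mem_cons_of_mem _ (List.mem_append_right _ (List.mem_map.2 ⟨c, hc, rfl⟩)))
    exact (clause_iff (A := fun x => decide (ρ (idx φ x) = 1)) hzk hρ0 hρ (h3 c hc)
      (fun l hl => idx_lt hc hl) (fun l _ => decide_eq_true_iff)).1 h1
  · rintro ⟨A, hA⟩
    set ν := (vs φ).length with hν
    -- the Chinese remainder theorem
    let s : ℕ → ℕ := fun i => if i = 0 then KK φ else pp φ (i - 1)
    let tg : ℕ → ℕ := fun i => if i = 0 then KK φ - nn φ else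
      if A ((vs φ)[i - 1]?.getD []) then 1 else 0
    have hK0 : 0 < KK φ := by
      have := FF_pos (φ := φ)
      have := four_le (φ := φ)
      rw [KK]
      positivity
    have hs0 : ∀ i ∈ Finset.range (ν + 1), s i ≠ 0 := by
      intro i _
      simp only [s]
      split_ifs
      · exact hK0.ne'
      · exact (pp_pos _).ne'
    have hcop : ∀ i ∈ Finset.range (ν + 1), ∀ j ∈ Finset.range (ν + 1), i < j →
        Nat.Coprime (s i) (s j) := by
      intro i hi j hj hij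
      rw [Finset.mem_range] at hi hj
      simp only [s]
      rw [if_neg (show j ≠ 0 by omega)]
      split_ifs with h
      · exact coprime_KK _
      · exact coprime_pp (by omega) (by omega)
    have hpair : Set.Pairwise (↑(Finset.range (ν + 1))) (Function.onFun Nat.Coprime s) := by
      intro i hi j hj hij
      rcases lt_or_gt_of_ne hij with h | h
      · exact hcop i hi j hj h
      · exact (hcop j hj i hi h).symm
    obtain ⟨t, ht⟩ := Nat.chineseRemainderOfFinset tg s (Finset.range (ν + 1)) hs0 hpair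
    have ht0 := ht 0 (by simp)
    simp only [s, tg, if_true] at ht0
    have hnK : nn φ ≤ KK φ := by
      have h1 := FF_pos (φ := φ)
      have h2 := four_le (φ := φ)
      rw [KK]
      calc nn φ ≤ nn φ ^ 2 := by nlinarith
        _ = nn φ ^ 2 * 1 := by ring
        _ ≤ nn φ ^ 2 * FF φ ^ 2 := Nat.mul_le_mul_left _ (Nat.one_le_pow _ _ h1)
    obtain ⟨k, hk⟩ : ∃ k : ℤ, (t : ℤ) = k * KK φ - nn φ := by
      have h1 := (Nat.modEq_iff_dvd.1 ht0)
      obtain ⟨j, hj⟩ := h1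
      rw [Nat.cast_sub hnK] at hj
      exact ⟨1 - j, by linarith⟩
    have hres : ∀ a, ∃ k' : ℤ, a < ν →
        (t : ℤ) = (if A ((vs φ)[a]?.getD []) then 1 else 0) + k' * pp φ a := by
      intro a
      by_cases ha : a < ν
      · have h1 := ht (a + 1) (by simp [ha])
        have e1 : s (a + 1) = pp φ a := by simp [s]
        have e2 : tg (a + 1) = if A ((vs φ)[a]?.getD []) then 1 else 0 := by simp [tg]
        rw [e1, e2] at h1
        obtain ⟨j, hj⟩ := Nat.modEq_iff_dvd.1 h1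
        refine ⟨-j, fun _ => ?_⟩
        push_cast at hj
        linarith
      · exact ⟨0, fun h => absurd h ha⟩
    choose k' hk' using hres
    have hρ0 : ∀ a : ℕ, ((if A ((vs φ)[a]?.getD []) then 1 else 0 : ℤ) = 0 ∨
        (if A ((vs φ)[a]?.getD []) then 1 else 0 : ℤ) = 1) := by
      intro a
      split_ifs <;> simp
    have h2 := xx_pos (φ := φ)
    have h4q := four_leq (φ := φ)
    have hnq : (0 : ℚ) < nn φ := by linarith
    refine ⟨t, ?_, fun w hw => ?_⟩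
    · rw [hk, KK]
      push_cast
      exact ⟨k * (FF φ : ℤ) ^ 2, by ring⟩
    · rw [LL, List.mem_cons, List.mem_append] at hw
      rcases hw with rfl | hw | hw
      · rw [frac_B]
        refine ⟨k, ?_⟩
        have h1 := z_mul hk 1
        rw [one_mul] at h1
        rw [h1, mul_one, one_mul]
        have h5 : (k : ℚ) - xx φ / nn φ - k = -(xx φ / nn φ) := by ring
        rw [h5, abs_neg, abs_of_pos (by positivity), div_lt_iff₀ hnq]
        nlinarith
      · obtain ⟨a, ha, rfl⟩ := List.mem_map.1 hw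
        have ha' := List.mem_range.1 ha
        rw [frac_cons ha']
        exact (resid hk ha').2 ⟨_, k' a, hρ0 a, hk' a ha'⟩
      · obtain ⟨c, hc, rfl⟩ := List.mem_map.1 hw
        refine (clause_iff (A := A) hk hρ0 hk' (h3 c hc) (fun l hl => idx_lt hc hl)
          (fun l hl => ?_)).2 (hA c hc)
        have h6 := idx_spec hc hl
        have h7 : (vs φ)[idx φ l.2]?.getD [] = l.2 := by
          rw [List.getElem?_eq_getElem (idx_lt hc hl), h6]
          rfl
        rw [h7]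
        cases A l.2 <;> simp

/-- The instance of a formula. -/
def instOf (φ : Cnf) : List ℕ := inst (nn φ) (UU φ) (LL φ)

/-- **Correctness of the reduction.** -/
theorem red_correct (h3 : ∀ c ∈ φ, c.length ≤ 3) :
    Feasible (instOf φ) (((8 * nn φ * FF φ ^ 2 - 8 * FF φ ^ 2 - 5 * nn φ : ℕ) : ℚ) /
      ((8 * nn φ * FF φ ^ 2 : ℕ) : ℚ)) ↔
    ¬ ∃ A : List Bool → Bool, ∀ c ∈ φ, ∃ l ∈ c, A l.2 = l.1 := by
  have h4 := four_leq (φ := φ)
  have hn0 : (0 : ℚ) < nn φ := by linarith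
  have hF := FFq_pos (φ := φ)
  have hx := xx_pos (φ := φ)
  have hF2 : 4 * (nn φ : ℚ) ^ 3 ≤ (FF φ : ℚ) ^ 2 := by exact_mod_cast FF_sq (φ := φ)
  have e1 : (((8 * nn φ * FF φ ^ 2 - 8 * FF φ ^ 2 - 5 * nn φ : ℕ) : ℚ) /
      ((8 * nn φ * FF φ ^ 2 : ℕ) : ℚ)) = 1 - (1 / nn φ + 5 * xx φ / 8) := by
    have h5 : 5 * nn φ ≤ 8 * FF φ ^ 2 := by
      have h1 := FF_sq (φ := φ)
      have h2 := four_le (φ := φ)
      have h6 : nn φ ≤ nn φ ^ 3 := Nat.le_self_pow (by norm_num) _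
      omega
    have h6 : 8 * FF φ ^ 2 + 8 * FF φ ^ 2 ≤ 8 * nn φ * FF φ ^ 2 := by
      have h2 := four_le (φ := φ)
      nlinarith [Nat.zero_le (FF φ ^ 2)]
    rw [Nat.sub_sub, Nat.cast_sub (by omega), xx]
    push_cast
    field_simp
  rw [e1, instOf, inst_crit length_LL four_le UU_pos (LL_small h3) (by positivity) ?_, ← sat_iff h3]
  rw [xx]
  have : 4 * (nn φ : ℚ) ^ 3 * (5 * (1 / (FF φ : ℚ) ^ 2) / 8) =
      (4 * (nn φ : ℚ) ^ 3) / (FF φ : ℚ) ^ 2 * (5 / 8) := by field_simp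
  rw [this]
  have h7 : (4 * (nn φ : ℚ) ^ 3) / (FF φ : ℚ) ^ 2 ≤ 1 := by
    rw [div_le_one (by positivity)]
    exact hF2
  linarith

theorem instOf_ne : instOf φ ≠ [] := by simp [instOf, inst]

theorem instOf_pos (h3 : ∀ c ∈ φ, c.length ≤ 3) : ∀ m ∈ instOf φ, 0 < m := by
  intro m hm
  have h4 := four_le (φ := φ)
  have hU := UU_pos (φ := φ)
  have h1 : UU φ ≤ (nn φ - 1) * UU φ := Nat.le_mul_of_pos_left _ (by omega)
  have hb : ∀ u : ℕ, 2 * nn φ * u ≤ UU φ → u < UU φ := by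
    intro u hu
    have : 8 * u ≤ 2 * nn φ * u := by nlinarith
    omega
  rcases mem_inst.1 hm with h | h | ⟨w, hw, h⟩
  · rw [h]
    exact Nat.mul_pos (by omega) hU
  · rw [h]
    exact Nat.mul_pos (by omega) hU
  · obtain ⟨h2, h3⟩ := LL_small h3 w hw
    have h5 := hb _ h2
    have h6 := hb _ h3
    rcases h with h | h <;> omega

end

end Pool.Agent.Jit
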