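import Pool.Agent.Lib_MP_cedc2d_lc.Red

/-!
# Certificates for infeasible instances
-/

set_option linter.unusedSectionVars false
set_option linter.unusedVariables false

namespace Pool.Agent.Jit

open Pool.Agent.PT81 Polynomial

/-! ### Parsing -/

/-- Split at the separators. -/
def seg (w : List (Option Bool)) : List (List Bool) :=
  w.foldr (fun a s => match a with
    | none => [] :: s
    | some b => (b :: s.headD []) :: s.tail) [[]]

theorem seg_none (w : List (Option Bool)) : seg (none :: w) = [] :: seg w := rfl
theorem seg_some (b : Bool) (w : List (Option Bool)) :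
    seg (some b :: w) = (b :: (seg w).headD []) :: (seg w).tail := rfl

theorem seg_row (r : List Bool) (w : List (Option Bool)) :
    seg (r.map some ++ none :: w) = r :: seg w := by
  induction r with
  | nil => rw [List.map_nil, List.nil_append, seg_none]
  | cons b r ih => rw [List.map_cons, List.cons_append, seg_some, ih]; rfl

/-- The list of numbers of a string. -/
def nums (w : List (Option Bool)) : List BN :=
  (seg w).reverse.tail.reverse.map fun l => BN.mk (bitval l)

theorem seg_encode (l : List ℕ) : seg (encodeNums l) = l.map Nat.bits ++ [[]] := by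
  induction l with
  | nil => rfl
  | cons m l ih =>
    have : encodeNums (m :: l) = (Nat.bits m).map some ++ none :: encodeNums l := by
      simp [encodeNums]
    rw [this, seg_row, ih]
    rfl

theorem nums_encode (l : List ℕ) : nums (encodeNums l) = l.map BN.mk := by
  rw [nums, seg_encode]
  simp [Function.comp_def, bitval_bits]

theorem encodeNums_inj {l l' : List ℕ} (h : encodeNums l = encodeNums l') : l = l' := by
  have h1 := congrArg nums h
  rw [nums_encode, nums_encode] at h1
  exact List.map_injective_iff.2 (fun a b hab => by simpa using hab) h1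

/-! ### The certificate -/

/-- The demand of an item of size `m`. -/
def dem (D p q x y m : ℕ) : ℕ :=
  (y * m * q + (q - p) * D - 1) / (D * q) - (x * m * q + p * D) / (D * q)

theorem dem_eq {D p q x y m : ℕ} (hD : 0 < D) (hpq : p < q) :
    dem D p q x y m = (cnt ((m : ℚ) / D) ((p : ℚ) / q) x y).toNat := by
  have hq : 0 < q := by omega
  have hDq : (0 : ℚ) < D := by exact_mod_cast hD
  have hqq : (0 : ℚ) < q := by exact_mod_cast hq
  have hK : 0 < D * q := Nat.mul_pos hD hq
  have hKq : ((D * q : ℕ) : ℚ) = D * q := by push_cast; ring
  have e1 : ⌊(x : ℚ) * ((m : ℚ) / D) + (p : ℚ) / q⌋ = (((x * m * q + p * D) / (D * q) : ℕ) : ℤ) := by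
    rw [Int.floor_eq_iff]
    set N := x * m * q + p * D with hN
    have h1 := Nat.div_mul_le_self N (D * q)
    have h2 := Nat.lt_div_mul_add (a := N) hK
    have h3 : (x : ℚ) * ((m : ℚ) / D) + (p : ℚ) / q = (N : ℚ) / (D * q) := by
      rw [hN]; push_cast; field_simp
    rw [h3]
    constructor
    · rw [le_div_iff₀ (by positivity), ← hKq]
      exact_mod_cast h1
    · rw [div_lt_iff₀ (by positivity), ← hKq, add_mul, one_mul]
      exact_mod_cast h2
  have e2 : ⌈(y : ℚ) * ((m : ℚ) / D) - (p : ℚ) / q⌉ =
      (((y * m * q + (q - p) * D - 1) / (D * q) : ℕ) : ℤ) := by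
    rw [Int.ceil_eq_iff]
    have hpos : 0 < (q - p) * D := Nat.mul_pos (by omega) hD
    set N := y * m * q + (q - p) * D - 1 with hN
    have h1 := Nat.div_mul_le_self N (D * q)
    have h2 := Nat.lt_div_mul_add (a := N) hK
    have h4 : N + 1 + p * D = y * m * q + D * q := by
      have : (q - p) * D + p * D = D * q := by
        rw [← add_mul, Nat.sub_add_cancel hpq.le, mul_comm]
      omega
    have h4q : (N : ℚ) + 1 + p * D = y * m * q + D * q := by exact_mod_cast h4
    have h3 : (y : ℚ) * ((m : ℚ) / D) - (p : ℚ) / q = ((N : ℚ) + 1 - D * q) / (D * q) := by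
      have : (N : ℚ) + 1 - D * q = y * m * q - p * D := by linarith
      rw [this]
      field_simp
    rw [h3]
    have h1q : (((N / (D * q) : ℕ) : ℚ)) * (D * q) ≤ N := by rw [← hKq]; exact_mod_cast h1
    have h2q : (N : ℚ) + 1 ≤ (((N / (D * q) : ℕ) : ℚ)) * (D * q) + D * q := by
      have h5 : N + 1 ≤ N / (D * q) * (D * q) + D * q := h2
      have h6 : ((N + 1 : ℕ) : ℚ) ≤ ((N / (D * q) * (D * q) + D * q : ℕ) : ℚ) := by
        exact_mod_cast h5
      push_cast at h6 ⊢
      exact h6
    have hpos' : (0 : ℚ) < D * q := by positivity
    rw [Int.cast_natCast]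
    constructor
    · rw [lt_div_iff₀ hpos', sub_mul, one_mul]
      linarith
    · rw [div_le_iff₀ hpos']
      linarith
  rw [cnt, e1, e2, dem]
  omega

theorem sum_get_fun (d : List ℕ) (f : ℕ → ℕ) : ∑ i : Fin d.length, f (d.get i) = (d.map f).sum := by
  rw [← List.sum_ofFn]
  congr 1
  refine List.ext_getElem (by simp) ?_
  intro i h1 h2
  simp

/-- The check of an instance with certificate `(x, y)`. -/
def check (p q : BN) (d : List BN) (x y : BN) : Bool :=
  d.isEmpty || (decide (q = BN.mk 0) || (d.any (fun m => decide (m = BN.mk 0)) ||
    (decide (p.val < q.val) && (decide (x.val ≤ y.val) &&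
      (decide (y.val ≤ (d.map BN.val).sum) &&
        decide (y.val - x.val < (d.map fun m =>
          dem (d.map BN.val).sum p.val q.val x.val y.val m.val).sum))))))

/-- The verifier of infeasibility. -/
def ver (t : List (Option Bool) × List Bool) : Bool :=
  !(decide (encodeNums ((nums t.1).map BN.val) = t.1)) ||
    match nums t.1 with
    | [] => true
    | p :: l => match l with
      | [] => true
      | q :: d => check p q d (BN.mk (bitval (t.2.take t.1.length)))
          (BN.mk (bitval (t.2.drop t.1.length)))

theorem check_iff (p q : ℕ) (d : List ℕ) (x y : ℕ) :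
    check (BN.mk p) (BN.mk q) (d.map BN.mk) (BN.mk x) (BN.mk y) = true ↔
      (d = [] ∨ q = 0 ∨ (∃ m ∈ d, m = 0) ∨ (p < q ∧ x ≤ y ∧ y ≤ d.sum ∧
        y - x < (d.map fun m => dem d.sum p q x y m).sum)) := by
  have e1 : (d.map BN.mk).map BN.val = d := by
    rw [List.map_map]
    exact List.map_id d
  simp only [check, e1, Bool.or_eq_true, List.isEmpty_iff, List.map_eq_nil_iff, decide_eq_true_eq,
    BN.mk.injEq, List.any_eq_true, List.mem_map, exists_exists_and_eq_and, Bool.and_eq_true]
  rw [List.map_map]
  rfl

theorem mem_iff (p q : ℕ) (d : List ℕ) : encodeNums (p :: q :: d) ∈ BJIT ↔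
    d ≠ [] ∧ (∀ m ∈ d, 0 < m) ∧ 0 < q ∧ Feasible d ((p : ℚ) / q) := by
  constructor
  · rintro ⟨p', q', d', h, h1, h2, h3, h4⟩
    have := encodeNums_inj h
    simp only [List.cons.injEq] at this
    obtain ⟨rfl, rfl, rfl⟩ := this
    exact ⟨h1, h2, h3, h4⟩
  · rintro ⟨h1, h2, h3, h4⟩
    exact ⟨p, q, d, rfl, h1, h2, h3, h4⟩

theorem sum_lt_two_pow (l : List ℕ) : l.sum < 2 ^ (encodeNums l).length := by
  induction l with
  | nil => simp [encodeNums]
  | cons m l ih =>
    have e : (encodeNums (m :: l)).length = (Nat.bits m).length + 1 + (encodeNums l).length := by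
      simp [encodeNums]
      omega
    have h1 := bitval_lt (Nat.bits m)
    rw [bitval_bits] at h1
    rw [e, List.sum_cons, pow_add, pow_add, pow_one]
    have h2 : 1 ≤ 2 ^ (Nat.bits m).length := Nat.one_le_two_pow
    have h3 : 1 ≤ 2 ^ (encodeNums l).length := Nat.one_le_two_pow
    nlinarith

/-- Bits of a number, padded. -/
theorem exists_bits {x k : ℕ} (h : x < 2 ^ k) : ∃ u : List Bool, u.length = k ∧ bitval u = x := by
  have h1 : (Nat.bits x).length ≤ k := by
    rw [Nat.size_eq_bits_len, Nat.size_le]
    exact h
  refine ⟨Nat.bits x ++ List.replicate (k - (Nat.bits x).length) false, ?_, ?_⟩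
  · simp only [List.length_append, List.length_replicate]
    omega
  · rw [bitval_append, bitval_replicate_false, bitval_bits]
    simp

/-- **The certificates.** -/
theorem ver_iff (w : List (Option Bool)) :
    w ∉ BJIT ↔ ∃ u : List Bool, u.length = 2 * w.length ∧ ver (w, u) = true := by
  by_cases hw : encodeNums ((nums w).map BN.val) = w
  swap
  · constructor
    · intro _
      refine ⟨List.replicate (2 * w.length) false, by simp, ?_⟩
      simp [ver, hw]
    · rintro - ⟨p, q, d, h, -⟩
      apply hw
      rw [h, nums_encode, List.map_map]
      congr 1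
      exact List.map_id _
  · obtain ⟨l, rfl⟩ : ∃ l, w = encodeNums l := ⟨_, hw.symm⟩
    cases l with
    | nil =>
      constructor
      · intro _
        exact ⟨[], rfl, rfl⟩
      · rintro - ⟨p, q, d, h, -⟩
        have := encodeNums_inj h
        simp at this
    | cons p l =>
      cases l with
      | nil =>
        constructor
        · intro _
          refine ⟨List.replicate (2 * (encodeNums [p]).length) false, by simp, ?_⟩
          simp [ver, nums_encode]
        · rintro - ⟨p, q, d, h, -⟩
          have := encodeNums_inj h
          simp at this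
      | cons q d =>
        obtain ⟨w, hwdef⟩ : ∃ w, w = encodeNums (p :: q :: d) := ⟨_, rfl⟩
        rw [← hwdef] at hw
        have hver : ∀ u, ver (w, u) = check (BN.mk p) (BN.mk q) (d.map BN.mk)
            (BN.mk (bitval (u.take w.length))) (BN.mk (bitval (u.drop w.length))) := by
          intro u
          have hn : nums w = BN.mk p :: BN.mk q :: d.map BN.mk := by
            rw [hwdef, nums_encode]
            rfl
          rw [ver]
          simp only [hw, decide_true, Bool.not_true, Bool.false_or]
          rw [hn]
        rw [mem_iff, ← hwdef]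
        constructor
        · intro hnot
          by_cases h0 : d = [] ∨ q = 0 ∨ (∃ m ∈ d, m = 0)
          · refine ⟨List.replicate (2 * w.length) false, List.length_replicate, ?_⟩
            rw [hver, check_iff]
            rcases h0 with h0 | h0 | h0
            · exact Or.inl h0
            · exact Or.inr (Or.inl h0)
            · exact Or.inr (Or.inr (Or.inl h0))
          · push Not at h0
            obtain ⟨h1, h2, h3⟩ := h0
            have h3' : ∀ m ∈ d, 0 < m := fun m hm => Nat.pos_of_ne_zero (h3 m hm)
            have hq : 0 < q := Nat.pos_of_ne_zero h2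
            have hqq : (0 : ℚ) < q := by exact_mod_cast hq
            have hnf : ¬ Feasible d ((p : ℚ) / q) := fun hf => hnot ⟨h1, h3', hq, hf⟩
            have hpq : p < q := by
              by_contra hcon
              push Not at hcon
              apply hnf
              refine feasible_of_one_le h3' h1 ?_
              rw [le_div_iff₀ hqq, one_mul]
              exact_mod_cast hcon
            have hB1 : (p : ℚ) / q < 1 := by
              rw [div_lt_one hqq]
              exact_mod_cast hpq
            rw [feasible_iff h3' h1 (by positivity) hB1] at hnf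
            push Not at hnf
            obtain ⟨x, y, hxy, hy, hviol⟩ := hnf
            have hD : 0 < d.sum := by
              obtain ⟨a, l, rfl⟩ := List.exists_cons_of_ne_nil h1
              have := h3' a (by simp)
              rw [List.sum_cons]
              omega
            have hDw : d.sum < 2 ^ w.length := by
              have := sum_lt_two_pow (p :: q :: d)
              rw [List.sum_cons, List.sum_cons, ← hwdef] at this
              omega
            obtain ⟨u1, hu1, hx1⟩ := exists_bits (x := x) (k := w.length) (by omega)
            obtain ⟨u2, hu2, hy2⟩ := exists_bits (x := y) (k := w.length) (by omega)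
            refine ⟨u1 ++ u2, by rw [List.length_append, hu1, hu2]; ring, ?_⟩
            rw [hver, ← hu1, List.take_left, List.drop_left, check_iff, hx1, hy2]
            refine Or.inr (Or.inr (Or.inr ⟨hpq, hxy, hy, ?_⟩))
            have e : (d.map fun m => dem d.sum p q x y m).sum =
                ∑ i : Fin d.length, (cnt ((d.get i : ℚ) / d.sum) ((p : ℚ) / q) x y).toNat := by
              rw [← sum_get_fun d fun m => dem d.sum p q x y m]
              exact Finset.sum_congr rfl fun i _ => dem_eq hD hpq
            rw [e]
            exact hviol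
        · rintro ⟨u, _, hu⟩ ⟨h1, h2, h3, h4⟩
          rw [hver, check_iff] at hu
          rcases hu with hu | hu | ⟨m, hm, hm0⟩ | ⟨hpq, hxy, hy, hv⟩
          · exact h1 hu
          · omega
          · have := h2 m hm
            omega
          · have hqq : (0 : ℚ) < q := by exact_mod_cast h3
            have hB1 : (p : ℚ) / q < 1 := by
              rw [div_lt_one hqq]
              exact_mod_cast hpq
            have hD : 0 < d.sum := by
              obtain ⟨a, l, rfl⟩ := List.exists_cons_of_ne_nil h1
              have := h2 a (by simp)
              rw [List.sum_cons]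
              omega
            rw [feasible_iff h2 h1 (by positivity) hB1] at h4
            have h5 := h4 _ _ hxy hy
            rw [← sum_get_fun d fun m => dem d.sum p q _ _ m] at hv
            rw [Finset.sum_congr rfl fun i _ => dem_eq hD hpq] at hv
            omega

end Pool.Agent.Jit
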