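import Pool.Agent.Lib_MP_cedc2d_lc.Ver
import Pool.Agent.Lib_MP_33ea09_lc.NPList

/-!
# The verifier is computable in polynomial time; membership in NP
-/

set_option linter.unusedSectionVars false
set_option linter.unusedVariables false

namespace Pool.Agent.Jit

open Pool.Agent.PT81 Polynomial Turing

noncomputable section

section

variable {E : Env} {α γ : Type} [Enc E α] [Enc E γ]

theorem poly_seg {f : γ → List (Option Bool)} (hf : Poly E f) : Poly E (fun c => seg (f c)) := by
  have hs : Poly E (fun x : γ × (Option Bool × List (List Bool)) => x.2.2) :=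
    Poly.snd.comp Poly.snd
  have hst : Poly E (fun x : γ × (Option Bool × List (List Bool)) => match x.2.1 with
      | none => [] :: x.2.2
      | some b => (b :: x.2.2.headD []) :: x.2.2.tail) := by
    have h1 : Poly E (fun y : (γ × (Option Bool × List (List Bool))) × Bool =>
        (y.2 :: y.1.2.2.headD []) :: y.1.2.2.tail) := by
      have h2 : Poly E (fun y : (γ × (Option Bool × List (List Bool))) × Bool => y.1.2.2) :=
        hs.comp Poly.fst
      have h3 : Poly E (fun y : (γ × (Option Bool × List (List Bool))) × Bool =>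
          y.1.2.2.headD []) :=
        (Poly.listCases h2 (Poly.const []) (Poly.fst.comp Poly.snd)).congr fun x => by
          cases x.1.2.2 <;> rfl
      exact Poly.cons (Poly.cons Poly.snd h3) (Poly.tail h2)
    refine (Poly.optCases (f := fun x : γ × (Option Bool × List (List Bool)) => x.2.1)
      (g := fun x => [] :: x.2.2) (h := fun y => (y.2 :: y.1.2.2.headD []) :: y.1.2.2.tail)
      (Poly.fst.comp Poly.snd) (Poly.cons (Poly.const []) hs) h1).congr fun x => ?_
    rcases x with ⟨c, o, s⟩
    cases o <;> rfl
  refine Poly.foldrAdd (b := fun _ => [[]]) (g := fun x : γ × (Option Bool × List (List Bool)) =>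
    match x.2.1 with
      | none => [] :: x.2.2
      | some b => (b :: x.2.2.headD []) :: x.2.2.tail) hf (Poly.const _) hst 6 ?_
  intro c a ha s
  cases a with
  | none =>
    simp only [esz_cons, esz_nil, eval_ofNat]
    omega
  | some b =>
    have h1 := esz_bool (E := E) b
    cases s with
    | nil =>
      simp only [List.headD_nil, List.tail_nil, esz_cons, esz_nil, eval_ofNat]
      omega
    | cons h t =>
      simp only [List.headD_cons, List.tail_cons, esz_cons, eval_ofNat]
      omega

theorem poly_nums {f : γ → List (Option Bool)} (hf : Poly E f) : Poly E (fun c => nums (f c)) :=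
  Poly.map (g := fun x : γ × List Bool => BN.mk (bitval x.2))
    (Poly.reverse (Poly.tail (Poly.reverse (poly_seg hf)))) (Poly.toBN Poly.snd)

theorem poly_dem {D p q x y m : γ → BN} (hD : Poly E D) (hp : Poly E p) (hq : Poly E q)
    (hx : Poly E x) (hy : Poly E y) (hm : Poly E m) :
    Poly E (fun c => BN.mk (dem (D c).val (p c).val (q c).val (x c).val (y c).val (m c).val)) := by
  have h1 : Poly E (fun c => BN.mk ((D c).val * (q c).val)) := Poly.bmul hD hq
  have h2 : Poly E (fun c => BN.mk ((y c).val * (m c).val * (q c).val)) :=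
    Poly.bmul (Poly.bmul hy hm) hq
  have h3 : Poly E (fun c => BN.mk ((x c).val * (m c).val * (q c).val)) :=
    Poly.bmul (Poly.bmul hx hm) hq
  have h4 : Poly E (fun c => BN.mk (((q c).val - (p c).val) * (D c).val)) :=
    Poly.bmul (Poly.bsub hq hp) hD
  have h5 : Poly E (fun c => BN.mk ((p c).val * (D c).val)) := Poly.bmul hp hD
  exact Poly.bsub (Poly.bdiv (Poly.bsub (Poly.badd h2 h4) (Poly.const (BN.mk 1))) h1)
    (Poly.bdiv (Poly.badd h3 h5) h1)

theorem poly_check {p q x y : γ → BN} {d : γ → List BN} (hp : Poly E p) (hq : Poly E q)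
    (hd : Poly E d) (hx : Poly E x) (hy : Poly E y) :
    Poly E (fun c => check (p c) (q c) (d c) (x c) (y c)) := by
  have hD : Poly E (fun c => BN.mk ((d c).map BN.val).sum) := Poly.bsum hd
  have h1 : Poly E (fun c => (d c).isEmpty) := Poly.isEmpty hd
  have h2 : Poly E (fun c => decide (q c = BN.mk 0)) := Poly.eq hq (Poly.const _)
  have h3 : Poly E (fun c => (d c).any (fun m => decide (m = BN.mk 0))) :=
    Poly.any (g := fun z : γ × BN => decide (z.2 = BN.mk 0)) hd
      (Poly.eq Poly.snd (Poly.const _))
  have h4 : Poly E (fun c => decide ((p c).val < (q c).val)) := Poly.blt hp hq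
  have h5 : Poly E (fun c => decide ((x c).val ≤ (y c).val)) := Poly.ble hx hy
  have h6 : Poly E (fun c => decide ((y c).val ≤ (BN.mk ((d c).map BN.val).sum).val)) :=
    Poly.ble hy hD
  have h7 : Poly E (fun z : γ × BN => BN.mk (dem ((d z.1).map BN.val).sum (p z.1).val (q z.1).val
      (x z.1).val (y z.1).val z.2.val)) :=
    poly_dem (D := fun z : γ × BN => BN.mk ((d z.1).map BN.val).sum) (hD.comp Poly.fst)
      (hp.comp Poly.fst) (hq.comp Poly.fst) (hx.comp Poly.fst) (hy.comp Poly.fst) Poly.snd
  have h8 : Poly E (fun c => (d c).map fun m => BN.mk (dem ((d c).map BN.val).sum (p c).val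
      (q c).val (x c).val (y c).val m.val)) :=
    Poly.map (g := fun z : γ × BN => BN.mk (dem ((d z.1).map BN.val).sum (p z.1).val (q z.1).val
      (x z.1).val (y z.1).val z.2.val)) hd h7
  have h9 := Poly.blt (Poly.bsub hy hx) (Poly.bsum h8)
  refine (Poly.or h1 (Poly.or h2 (Poly.or h3 (Poly.and h4 (Poly.and h5
    (Poly.and h6 h9)))))).congr fun c => ?_
  simp only [check, List.map_map]
  rfl

theorem poly_ver : Poly E ver := by
  have hw : Poly E (fun t : List (Option Bool) × List Bool => t.1) := Poly.fst
  have hu : Poly E (fun t : List (Option Bool) × List Bool => t.2) := Poly.snd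
  have hn : Poly E (fun t : List (Option Bool) × List Bool => nums t.1) := poly_nums hw
  have hx : Poly E (fun t : List (Option Bool) × List Bool =>
      BN.mk (bitval (t.2.take t.1.length))) := by
    refine (Poly.toBN (Poly.reverse (Poly.dropN (Poly.reverse hu)
      (Poly.sub hu.length hw.length)))).congr fun t => ?_
    congr 2
    rw [List.drop_reverse, List.reverse_reverse]
    by_cases h : t.1.length ≤ t.2.length
    · congr 1; omega
    · rw [List.take_of_length_le (by omega), List.take_of_length_le (by omega)]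
  have hy : Poly E (fun t : List (Option Bool) × List Bool =>
      BN.mk (bitval (t.2.drop t.1.length))) := Poly.toBN (Poly.dropN hu hw.length)
  have h1 : Poly E (fun t : List (Option Bool) × List Bool =>
      !(decide (encodeNums ((nums t.1).map BN.val) = t.1))) :=
    Poly.not (Poly.eq (poly_encode hn) hw)
  have h2 : Poly E (fun z : ((List (Option Bool) × List Bool) × (BN × List BN)) ×
      (BN × List BN) => check z.1.2.1 z.2.1 z.2.2 (BN.mk (bitval (z.1.1.2.take z.1.1.1.length)))
        (BN.mk (bitval (z.1.1.2.drop z.1.1.1.length)))) :=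
    poly_check (Poly.fst.comp (Poly.snd.comp Poly.fst)) (Poly.fst.comp Poly.snd)
      (Poly.snd.comp Poly.snd) (hx.comp (Poly.fst.comp Poly.fst))
      (hy.comp (Poly.fst.comp Poly.fst))
  have h3 : Poly E (fun z : (List (Option Bool) × List Bool) × (BN × List BN) =>
      match z.2.2 with
      | [] => true
      | q :: d => check z.2.1 q d (BN.mk (bitval (z.1.2.take z.1.1.length)))
        (BN.mk (bitval (z.1.2.drop z.1.1.length)))) := by
    refine (Poly.listCases (f := fun z : (List (Option Bool) × List Bool) × (BN × List BN) =>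
      z.2.2) (Poly.snd.comp Poly.snd) (Poly.const true) h2).congr fun z => ?_
    cases z.2.2 <;> rfl
  have h4 : Poly E (fun t : List (Option Bool) × List Bool =>
      match nums t.1 with
      | [] => true
      | p :: l => match l with
        | [] => true
        | q :: d => check p q d (BN.mk (bitval (t.2.take t.1.length)))
          (BN.mk (bitval (t.2.drop t.1.length)))) := by
    refine (Poly.listCases (f := fun t : List (Option Bool) × List Bool => nums t.1) hn
      (Poly.const true) h3).congr fun t => ?_
    cases nums t.1 <;> rfl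
  refine (Poly.or h1 h4).congr fun t => ?_
  rfl

end

section

open Pool.Agent.IsoImp

variable {Γ : Type} [Fintype Γ]

/-- Membership in NP from a predicate that is computable in polynomial time. -/
theorem inNP_of_poly [inst : ∀ E : Env, Enc E Γ] (L : Set (List Γ))
    (P : List Γ × List Bool → Bool) (q : ℕ[X]) (hP : ∀ E : Env, Poly E P)
    (h : ∀ x, x ∈ L ↔ ∃ u : List Bool, u.length = q.eval x.length ∧ P (x, u) = true) :
    InNP L := by
  classical
  refine ⟨P, q, ?_, h⟩
  let _ : Enc (io (Γ ⊕ Bool) Bool) (Γ ⊕ Bool) := finEnc _ _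
  have hX : Poly (io (Γ ⊕ Bool) Bool) (Bx81.prX (Γ := Γ)) :=
    Poly.filterMap (g := fun p : List (Γ ⊕ Bool) × (Γ ⊕ Bool) => (match p.2 with
      | .inl a => some a
      | .inr _ => none)) Poly.id (Poly.comp₁ (fun s : Γ ⊕ Bool => (match s with
      | .inl a => some a
      | .inr _ => none : Option Γ)) Poly.snd)
  have hU : Poly (io (Γ ⊕ Bool) Bool) (Bx81.prU (Γ := Γ)) :=
    Poly.filterMap (g := fun p : List (Γ ⊕ Bool) × (Γ ⊕ Bool) => (match p.2 with
      | .inl _ => none
      | .inr b => some b)) Poly.id (Poly.comp₁ (fun s : Γ ⊕ Bool => (match s with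
      | .inl _ => none
      | .inr b => some b : Option Bool)) Poly.snd)
  have h := Poly.cons ((hP (io (Γ ⊕ Bool) Bool)).comp (Poly.pair hX hU))
    (Poly.const ([] : List Bool))
  refine poly_toTM2 h _ _ _ fun t => ?_
  rw [Bx81.prX_enc, Bx81.prU_enc]

/-- BJIT is in coNP. -/
theorem inNP_compl : InNP (BJIT)ᶜ := by
  refine inNP_of_poly _ ver (2 * X) (fun E => poly_ver) fun x => ?_
  rw [Set.mem_compl_iff, ver_iff]
  simp

/-- Sizes of the encodings of strings over a finite alphabet. -/
theorem esz_le_length (E : Env) [Enc E Γ] : ∃ C : ℕ, ∀ l : List Γ, esz E l ≤ C * l.length + 1 := by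
  classical
  refine ⟨1 + ∑ a : Γ, esz E a, fun l => ?_⟩
  induction l with
  | nil => simp
  | cons a l ih =>
    have h : esz E a ≤ ∑ a : Γ, esz E a :=
      Finset.single_le_sum (f := fun a => esz E a) (fun _ _ => Nat.zero_le _) (Finset.mem_univ a)
    rw [esz_cons, List.length_cons]
    have : (1 + ∑ a : Γ, esz E a) * (l.length + 1) = (1 + ∑ a : Γ, esz E a) * l.length +
      (1 + ∑ a : Γ, esz E a) := by ring
    omega

/-- The verifier of satisfiability: the bit `i` of the certificate is the value of the variable
`i`. -/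
def satVer (t : Cnf × List Bool) : Bool :=
  t.1.all fun c => c.any fun l => decide (t.2[idx t.1 l.2]? = some l.1)

theorem poly_satVer {E : Env} : Poly E satVer := by
  have h1 : Poly E (fun z : ((Cnf × List Bool) × List (Bool × List Bool)) × (Bool × List Bool) =>
      z.1.1.1) := Poly.fst.comp (Poly.fst.comp Poly.fst)
  have h2 : Poly E (fun z : ((Cnf × List Bool) × List (Bool × List Bool)) × (Bool × List Bool) =>
      z.1.1.2) := Poly.snd.comp (Poly.fst.comp Poly.fst)
  have h3 : Poly E (fun z : ((Cnf × List Bool) × List (Bool × List Bool)) × (Bool × List Bool) =>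
      z.2.2) := Poly.snd.comp Poly.snd
  have h4 : Poly E (fun z : ((Cnf × List Bool) × List (Bool × List Bool)) × (Bool × List Bool) =>
      idx z.1.1.1 z.2.2) :=
    Poly.comp (g := fun x : Cnf × List Bool => idx x.1 x.2)
      (f := fun z : ((Cnf × List Bool) × List (Bool × List Bool)) × (Bool × List Bool) =>
        (z.1.1.1, z.2.2)) poly_idx (Poly.pair h1 h3)
  have h5 : Poly E (fun z : ((Cnf × List Bool) × List (Bool × List Bool)) × (Bool × List Bool) =>
      decide (z.1.1.2[idx z.1.1.1 z.2.2]? = some z.2.1)) :=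
    Poly.eq (Poly.nth h2 h4) (Poly.osome (Poly.fst.comp Poly.snd))
  exact Poly.all (g := fun y : (Cnf × List Bool) × List (Bool × List Bool) =>
    y.2.any fun l => decide (y.1.2[idx y.1.1 l.2]? = some l.1)) Poly.fst
    (Poly.any (g := fun z : ((Cnf × List Bool) × List (Bool × List Bool)) × (Bool × List Bool) =>
      decide (z.1.1.2[idx z.1.1.1 z.2.2]? = some z.2.1)) Poly.snd h5)

/-- Membership in NP from a reduction to satisfiability. -/
theorem inNP_of_cnf [inst : ∀ E : Env, Enc E Γ] (L : Set (List Γ)) (F : List Γ → Cnf)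
    (hF : ∀ E : Env, Poly E F)
    (h : ∀ x, x ∈ L ↔ ∃ A : List Bool → Bool, ∀ c ∈ F x, ∃ l ∈ c, A l.2 = l.1) : InNP L := by
  classical
  -- a bound for the number of variables
  obtain ⟨q, hq⟩ : ∃ q : ℕ[X], ∀ x : List Γ, (vs (F x)).length ≤ q.eval x.length := by
    obtain ⟨p, hp⟩ := (Poly.comp (g := fun φ : Cnf => (vs φ).length) poly_nu
      (hF (io Γ Bool))).bound
    obtain ⟨C, hC⟩ := esz_le_length (Γ := Γ) (io Γ Bool)
    refine ⟨p.comp (((C : ℕ) : ℕ[X]) * X + 1), fun x => ?_⟩
    have h1 := hp x
    rw [esz_nat] at h1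
    have h2 := pmono p (hC x)
    simp only [eval_comp, eval_add, eval_mul, eval_natCast, eval_X, eval_one, Nat.cast_id]
    omega
  refine inNP_of_poly L (fun t => satVer (F t.1, t.2)) q (fun E =>
    Poly.comp (g := satVer) (f := fun t : List Γ × List Bool => (F t.1, t.2)) poly_satVer
      (Poly.pair ((hF E).comp Poly.fst) Poly.snd)) fun x => ?_
  rw [h x]
  simp only [satVer, List.all_eq_true, List.any_eq_true, decide_eq_true_eq]
  constructor
  · rintro ⟨A, hA⟩
    refine ⟨(vs (F x)).map A ++ List.replicate (q.eval x.length - (vs (F x)).length) false, ?_,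
      fun c hc => ?_⟩
    · have := hq x
      simp only [List.length_append, List.length_map, List.length_replicate]
      omega
    · obtain ⟨l, hl, hAl⟩ := hA c hc
      refine ⟨l, hl, ?_⟩
      have h1 := idx_lt hc hl
      rw [List.getElem?_append_left (by simpa using h1), List.getElem?_map,
        List.getElem?_eq_getElem h1, idx_spec hc hl, ← hAl]
      rfl
  · rintro ⟨u, _, hu⟩
    refine ⟨fun y => u[idx (F x) y]?.getD false, fun c hc => ?_⟩
    obtain ⟨l, hl, hul⟩ := hu c hc
    refine ⟨l, hl, ?_⟩
    simp only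
    rw [hul]
    rfl

end

end

end Pool.Agent.Jit
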